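import Mathlib

/-!
# Clickomania boards

Basic semantics of the game: boards, groups, clicks, elimination, score.
-/

namespace Pool.Agent.Lib.MP_e74eef_lc

/-- A board: the list of its columns from left to right; a column is the list of the colours of
its tiles from bottom to top. -/
abbrev Board := List (List ℕ)

/-- The colour of the tile at position `p = (i, j)`: the `j`-th tile from the bottom of the `i`-th
column (both counted from `0`), or `none` when there is no such tile. -/
def tile (b : Board) (p : ℕ × ℕ) : Option ℕ := (b[p.1]?).bind (fun col => col[p.2]?)

/-- `p` and `q` are horizontal or vertical neighbours in the grid. -/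
def Neighbour (p q : ℕ × ℕ) : Prop :=
  (p.1 = q.1 ∧ (p.2 + 1 = q.2 ∨ q.2 + 1 = p.2)) ∨ (p.2 = q.2 ∧ (p.1 + 1 = q.1 ∨ q.1 + 1 = p.1))

/-- There are tiles at `p` and at `q`, they are adjacent and have the same colour. -/
def Link (b : Board) (p q : ℕ × ℕ) : Prop :=
  Neighbour p q ∧ ∃ a, tile b p = some a ∧ tile b q = some a

/-- The group of the tile at `p`: all positions that can be reached from `p` through adjacent tiles
of the same colour. -/
def group (b : Board) (p : ℕ × ℕ) : Set (ℕ × ℕ) := {q | Relation.ReflTransGen (Link b) p q}

open Classical in
/-- The column `c` after its tiles at the heights in `S` are removed and the others fall down. -/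
noncomputable def fall (S : Set ℕ) (c : List ℕ) : List ℕ :=
  (c.zipIdx.filter (fun x => x.2 ∉ S)).map Prod.fst

/-- The columns of the board after the tiles at the positions in `S` are removed and the others
fall down, before the empty columns are deleted. -/
noncomputable def fallAll (b : Board) (S : Set (ℕ × ℕ)) : Board :=
  b.zipIdx.map (fun x => fall {j | (x.2, j) ∈ S} x.1)

/-- The board after the tiles at the positions in `S` are removed: the remaining tiles of each
column fall down keeping their order, and the columns that become empty are deleted. -/
noncomputable def remove (b : Board) (S : Set (ℕ × ℕ)) : Board :=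
  (fallAll b S).filter (fun c => c ≠ [])

/-- One click turns `b` into `b'`: the group of some tile `p`, with at least two tiles, is
removed. -/
def Click (b b' : Board) : Prop :=
  ∃ p q, tile b p ≠ none ∧ q ∈ group b p ∧ q ≠ p ∧ b' = remove b (group b p)

/-- `Clicks m b b'`: exactly `m` clicks turn `b` into `b'`. -/
inductive Clicks : ℕ → Board → Board → Prop
  | zero (b : Board) : Clicks 0 b b
  | succ {m : ℕ} {b b' b'' : Board} : Click b b' → Clicks m b' b'' → Clicks (m + 1) b b''

/-- The number of tiles of a board. -/
def numTiles (b : Board) : ℕ := (b.map List.length).sum

/-- The board can be emptied with at most `k` clicks. -/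
def CanEmpty (b : Board) (k : ℕ) : Prop := ∃ m ≤ k, ∃ b', Clicks m b b' ∧ numTiles b' = 0

/-- With at most `k` clicks one can reach a total score greater than `S`, where each removed tile
scores `1`. -/
def CanScore (b : Board) (k S : ℕ) : Prop :=
  ∃ m ≤ k, ∃ b', Clicks m b b' ∧ S + numTiles b' < numTiles b

end Pool.Agent.Lib.MP_e74eef_lc
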