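import Pool.Agent.Lib.MP_e74eef_lc.Board

/-!
# Lemmas on boards
-/

namespace Pool.Agent.Lib.MP_e74eef_lc

theorem fall_eq (S : Set ℕ) (l : List ℕ) (n : ℕ) :
    fall {j | j + n ∈ S} l
      = by classical exact ((l.zipIdx n).filter (fun x => x.2 ∉ S)).map Prod.fst := by
  classical
  unfold fall
  rw [List.zipIdx_eq_map_add (l := l) (i := n)]
  simp only [List.filter_map, List.map_map]
  congr 1
  · apply List.filter_congr
    intro x _
    simp [Function.comp, Nat.add_comm]

@[simp] theorem fall_nil (S : Set ℕ) : fall S [] = [] := by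
  simp [fall]

theorem fall_cons (S : Set ℕ) [Decidable (0 ∈ S)] (a : ℕ) (l : List ℕ) :
    fall S (a :: l) = (if 0 ∈ S then [] else [a]) ++ fall {j | j + 1 ∈ S} l := by
  classical
  rw [fall_eq]
  unfold fall
  rw [List.zipIdx_cons, List.filter_cons]
  by_cases h : 0 ∈ S <;> simp [h]

theorem fall_append (S : Set ℕ) (x y : List ℕ) :
    fall S (x ++ y) = fall S x ++ fall {j | j + x.length ∈ S} y := by
  classical
  rw [fall_eq]
  unfold fall
  rw [List.zipIdx_append, List.filter_append, List.map_append]
  simp

theorem fall_eq_self {S : Set ℕ} {l : List ℕ} (h : ∀ j < l.length, j ∉ S) : fall S l = l := by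
  classical
  induction l generalizing S with
  | nil => simp
  | cons a l ih =>
    rw [fall_cons, if_neg (h 0 (by simp)), ih]
    · simp
    · intro j hj
      exact h (j + 1) (by simpa using hj)

theorem fall_eq_nil {S : Set ℕ} {l : List ℕ} (h : ∀ j < l.length, j ∈ S) : fall S l = [] := by
  classical
  induction l generalizing S with
  | nil => simp
  | cons a l ih =>
    rw [fall_cons, if_pos (h 0 (by simp)), ih]
    · simp
    · intro j hj
      exact h (j + 1) (by simpa using hj)

theorem fall_color {S : Set ℕ} {l : List ℕ} {a : ℕ}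
    (h : ∀ j (hj : j < l.length), j ∈ S ↔ l[j] = a) : fall S l = l.filter (fun x => x ≠ a) := by
  classical
  induction l generalizing S with
  | nil => simp
  | cons x l ih =>
    have h0 := h 0 (by simp)
    simp only [List.getElem_cons_zero] at h0
    rw [fall_cons, List.filter_cons, ih]
    · by_cases hx : x = a
      · simp [h0.2 hx, hx]
      · have : (0 : ℕ) ∉ S := fun h' => hx (h0.1 h')
        simp [this, hx]
    · intro j hj
      have := h (j + 1) (by simpa using hj)
      simpa using this

theorem fall_sublist (S : Set ℕ) (l : List ℕ) : (fall S l).Sublist l := by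
  classical
  induction l generalizing S with
  | nil => simp
  | cons a l ih =>
    rw [fall_cons]
    by_cases h : 0 ∈ S
    · simp only [h, if_true, List.nil_append]
      exact (ih _).cons _
    · simp only [h, if_false, List.singleton_append]
      exact (ih _).cons_cons _

theorem fall_congr {S T : Set ℕ} {l : List ℕ} (h : ∀ j < l.length, j ∈ S ↔ j ∈ T) :
    fall S l = fall T l := by
  classical
  induction l generalizing S T with
  | nil => simp
  | cons a l ih =>
    rw [fall_cons, fall_cons, ih (T := {j | j + 1 ∈ T})]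
    · have := h 0 (by simp)
      simp [this]
    · intro j hj
      exact h (j + 1) (by simpa using hj)

@[simp] theorem fallAll_length (b : Board) (S : Set (ℕ × ℕ)) :
    (fallAll b S).length = b.length := by simp [fallAll]

theorem fallAll_getElem? (b : Board) (S : Set (ℕ × ℕ)) (i : ℕ) :
    (fallAll b S)[i]? = (b[i]?).map (fall {j | (i, j) ∈ S}) := by
  simp only [fallAll, List.getElem?_map, List.getElem?_zipIdx]
  cases b[i]? <;> simp

theorem fallAll_append (b b' : Board) (S : Set (ℕ × ℕ)) :
    fallAll (b ++ b') S = fallAll b S ++ fallAll b' {x | (x.1 + b.length, x.2) ∈ S} := by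
  apply List.ext_getElem?
  intro i
  rw [fallAll_getElem?, List.getElem?_append, List.getElem?_append]
  simp only [fallAll_length]
  split_ifs with h
  · rw [fallAll_getElem?]
  · rw [fallAll_getElem?]
    have : i - b.length + b.length = i := by omega
    simp [this]

@[simp] theorem fallAll_nil (S : Set (ℕ × ℕ)) : fallAll [] S = [] := by simp [fallAll]

theorem fallAll_cons (col : List ℕ) (b : Board) (S : Set (ℕ × ℕ)) :
    fallAll (col :: b) S = fall {j | (0, j) ∈ S} col :: fallAll b {x | (x.1 + 1, x.2) ∈ S} := by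
  have := fallAll_append [col] b S
  simpa [fallAll] using this

/-! ### Links and groups -/

theorem Neighbour.symm {p q : ℕ × ℕ} (h : Neighbour p q) : Neighbour q p := by
  unfold Neighbour at *
  omega

theorem Link.symm {b : Board} {p q : ℕ × ℕ} (h : Link b p q) : Link b q p := by
  obtain ⟨h1, a, h2, h3⟩ := h
  exact ⟨h1.symm, a, h3, h2⟩

theorem group_self (b : Board) (p : ℕ × ℕ) : p ∈ group b p := Relation.ReflTransGen.refl

theorem group_symm {b : Board} {p q : ℕ × ℕ} (h : q ∈ group b p) : p ∈ group b q := by
  induction h with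
  | refl => exact Relation.ReflTransGen.refl
  | tail _ hl ih => exact Relation.ReflTransGen.head hl.symm ih

theorem group_trans {b : Board} {p q r : ℕ × ℕ} (h : q ∈ group b p) (h' : r ∈ group b q) :
    r ∈ group b p := Relation.ReflTransGen.trans h h'

theorem group_color {b : Board} {p q : ℕ × ℕ} {a : ℕ} (h : q ∈ group b p)
    (hp : tile b p = some a) : tile b q = some a := by
  induction h with
  | refl => exact hp
  | tail _ hl ih =>
    obtain ⟨_, c, h1, h2⟩ := hl
    rw [h1] at ih
    rw [h2, ih]

/-- Intermediate value: a group that has tiles in the columns `≤ m` and `> m` has a link between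
column `m` and column `m + 1`. -/
theorem exists_link_between {b : Board} {p q : ℕ × ℕ} {m : ℕ} (h : q ∈ group b p)
    (hp : p.1 ≤ m) (hq : m < q.1) :
    ∃ y, Link b (m, y) (m + 1, y) ∧ (m, y) ∈ group b p := by
  induction h with
  | refl => omega
  | @tail x z hx hl ih =>
    by_cases hxm : m < x.1
    · exact ih hxm
    · obtain ⟨hn, a, h1, h2⟩ := hl
      have hn' := hn
      unfold Neighbour at hn'
      have e1 : x.1 = m := by omega
      have e2 : z.1 = m + 1 := by omega
      have e3 : x.2 = z.2 := by omega
      refine ⟨x.2, ?_, ?_⟩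
      · have hx' : x = (m, x.2) := by ext <;> simp [e1]
        have hz' : z = (m + 1, x.2) := by ext <;> simp [e2, e3]
        rw [← hx', ← hz']
        exact ⟨hn, a, h1, h2⟩
      · have hx' : x = (m, x.2) := by ext <;> simp [e1]
        rw [← hx']
        exact hx

/-- Two tiles of the group of `p` on different sides: the version used below. -/
theorem exists_link_between' {b : Board} {p q r : ℕ × ℕ} {m : ℕ} (hq : q ∈ group b p)
    (hr : r ∈ group b p) (h1 : q.1 ≤ m) (h2 : m < r.1) :
    ∃ y, Link b (m, y) (m + 1, y) ∧ (m, y) ∈ group b p := by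
  obtain ⟨y, hy, hy'⟩ := exists_link_between (group_trans (group_symm hq) hr) h1 h2
  exact ⟨y, hy, group_trans hq hy'⟩

/-- A set that contains `p` and is closed under links contains the group of `p`. -/
theorem group_subset {b : Board} {p : ℕ × ℕ} {T : Set (ℕ × ℕ)} (hp : p ∈ T)
    (h : ∀ x ∈ T, ∀ y, Link b x y → y ∈ T) : group b p ⊆ T := by
  intro q hq
  induction hq with
  | refl => exact hp
  | tail _ hl ih => exact h _ ih _ hl

/-- A strip: in every column `i` with `i0 ≤ i < i1` the tiles at the heights from `lo i` to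
`hi i - 1` have colour `a`, and the intervals of neighbouring columns overlap. Then all tiles of
the strip are in one group. -/
theorem strip_connected {b : Board} {a i0 i1 : ℕ} {lo hi : ℕ → ℕ}
    (hcol : ∀ i, i0 ≤ i → i < i1 → ∀ y, lo i ≤ y → y < hi i → tile b (i, y) = some a)
    (hlt : ∀ i, i0 ≤ i → i < i1 → lo i < hi i)
    (hov : ∀ i, i0 ≤ i → i + 1 < i1 → lo i < hi (i + 1) ∧ lo (i + 1) < hi i)
    {i j y z : ℕ} (hi0 : i0 ≤ i) (hi1 : i < i1) (hj0 : i0 ≤ j) (hj1 : j < i1)
    (hy : lo i ≤ y) (hy' : y < hi i) (hz : lo j ≤ z) (hz' : z < hi j) :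
    (j, z) ∈ group b (i, y) := by
  -- within one column
  have hup : ∀ i, i0 ≤ i → i < i1 → ∀ d y, lo i ≤ y → y + d < hi i →
      (i, y + d) ∈ group b (i, y) := by
    intro i h0 h1 d
    induction d with
    | zero => intro y _ _; exact group_self _ _
    | succ d ih =>
      intro y hy hyd
      refine group_trans (ih y hy (by omega)) ?_
      apply Relation.ReflTransGen.single
      refine ⟨?_, a, hcol i h0 h1 _ (by omega) (by omega), hcol i h0 h1 _ (by omega) (by omega)⟩
      exact Or.inl ⟨rfl, Or.inl rfl⟩
  have hcolm : ∀ i, i0 ≤ i → i < i1 → ∀ y z, lo i ≤ y → y < hi i → lo i ≤ z → z < hi i →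
      (i, z) ∈ group b (i, y) := by
    intro i h0 h1 y z hy hy' hz hz'
    rcases Nat.le_total y z with h | h
    · obtain ⟨d, rfl⟩ := Nat.exists_eq_add_of_le h
      exact hup i h0 h1 d y hy hz'
    · obtain ⟨d, rfl⟩ := Nat.exists_eq_add_of_le h
      exact group_symm (hup i h0 h1 d z hz hy')
  have hnext : ∀ i, i0 ≤ i → i + 1 < i1 → ∀ y z, lo i ≤ y → y < hi i → lo (i + 1) ≤ z →
      z < hi (i + 1) → (i + 1, z) ∈ group b (i, y) := by
    intro i h0 h1 y z hy hy' hz hz'
    obtain ⟨ho1, ho2⟩ := hov i h0 h1
    have l1 := hlt i h0 (by omega)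
    have l2 := hlt (i + 1) (by omega) h1
    set w := max (lo i) (lo (i + 1)) with hw
    have hw1 : lo i ≤ w := le_max_left _ _
    have hw2 : lo (i + 1) ≤ w := le_max_right _ _
    have hw3 : w < hi i := by omega
    have hw4 : w < hi (i + 1) := by omega
    refine group_trans (hcolm i h0 (by omega) y w hy hy' hw1 hw3) ?_
    refine group_trans (q := (i + 1, w)) ?_ (hcolm (i + 1) (by omega) h1 w z hw2 hw4 hz hz')
    apply Relation.ReflTransGen.single
    refine ⟨?_, a, hcol i h0 (by omega) _ hw1 hw3, hcol (i + 1) (by omega) h1 _ hw2 hw4⟩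
    exact Or.inr ⟨rfl, Or.inl rfl⟩
  have hdist : ∀ d i, i0 ≤ i → i + d < i1 → ∀ y z, lo i ≤ y → y < hi i → lo (i + d) ≤ z →
      z < hi (i + d) → (i + d, z) ∈ group b (i, y) := by
    intro d
    induction d with
    | zero => intro i h0 h1 y z hy hy' hz hz'; exact hcolm i h0 h1 y z hy hy' hz hz'
    | succ d ih =>
      intro i h0 h1 y z hy hy' hz hz'
      have l1 := hlt (i + d) (by omega) (by omega)
      refine group_trans (ih i h0 (by omega) y (lo (i + d)) hy hy' le_rfl l1) ?_
      exact hnext (i + d) (by omega) (by omega) _ z le_rfl l1 hz hz'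
  rcases Nat.le_total i j with h | h
  · obtain ⟨d, rfl⟩ := Nat.exists_eq_add_of_le h
    exact hdist d i hi0 hj1 y z hy hy' hz hz'
  · obtain ⟨d, rfl⟩ := Nat.exists_eq_add_of_le h
    exact group_symm (hdist d j hj0 hi1 z y hz hz' hy hy')

end Pool.Agent.Lib.MP_e74eef_lc
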