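import Pool.Agent.Lib.MP_e74eef_lc.Sound2

/-!
# Completeness: a small dominating set gives an elimination with few clicks
-/

namespace Pool.Agent.Lib.MP_e74eef_lc

theorem Clicks.snoc {m : ℕ} {b b' b'' : Board} (h : Clicks m b b') (h' : Click b' b'') :
    Clicks (m + 1) b b'' := by
  induction h with
  | zero b => exact .succ h' (.zero _)
  | succ hc _ ih => exact .succ hc (ih h')

theorem click_color {b : Board} {a : ℕ} {p q : ℕ × ℕ} (hp : tile b p = some a)
    (hq : tile b q = some a) (hpq : q ≠ p) (h : ∀ x, tile b x = some a → x ∈ group b p) :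
    Click b ((b.map (fun c => c.filter (fun x => x ≠ a))).filter (fun c => c ≠ [])) := by
  refine ⟨p, q, by rw [hp]; simp, h q hq, hpq, ?_⟩
  unfold remove
  rw [fallAll_color (fun x => ⟨fun hx => group_color hx hp, fun hx => h x hx⟩)]

section
variable {δ : ℕ → ℕ → ℕ} {L N H : ℕ} {tp : ℕ → ℕ} {lft : Board} {main : List (ℕ × List ℕ)}
  {l : List ℕ} {hasA hasC : Bool}

/-- Clicking a run. -/
theorem click_run (hδ : ∀ t i, δ t i ≤ 1) (hL : 4 * N + 4 ≤ L)
    (hl : l.Sublist (List.range (2 * N))) {l1 m l2 : List ℕ} {a : ℕ} (hr : IsRun l l1 m l2 a)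
    (ha : a < 2) (htop : ∀ x ∈ main, ∀ z ∈ x.2, 2 ≤ z)
    (hleft : ∀ i y, i + 1 = lft.length → tile lft (i, y) ≠ some a)
    (hne : ∀ x ∈ lft, x ≠ []) (hmain : main ≠ []) :
    Click (board δ L tp lft main l) (board δ L tp lft (norm (l1 ++ l2) main) (l1 ++ l2)) := by
  have hlen : 0 < main.length := List.length_pos_of_ne_nil hmain
  have hge := ht_ge (L := L) hδ (typeAt tp main 0) hr.ne
  have hp : (lft.length, ht δ L (typeAt tp main 0) l1) ∈
      runSet δ L tp lft.length main l1 m := by
    refine ⟨0, hlen, rfl, le_rfl, ?_⟩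
    rw [ht_append]
    simp only
    omega
  have hq : (lft.length, ht δ L (typeAt tp main 0) l1 + 1) ∈
      runSet δ L tp lft.length main l1 m := by
    refine ⟨0, hlen, rfl, by simp, ?_⟩
    rw [ht_append]
    simp only
    omega
  have hg := group_run (lft := lft) hδ hL hl hr ha htop hleft hp
  refine ⟨(lft.length, ht δ L (typeAt tp main 0) l1),
    (lft.length, ht δ L (typeAt tp main 0) l1 + 1), ?_, ?_, ?_, ?_⟩
  · rw [tile_runSet hr hp]; simp
  · rw [hg]; exact hq
  · intro h
    have := congrArg Prod.snd h
    simp at this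
  · unfold remove
    rw [hg, fallAll_run hr.eq, filter_board hδ hL]
    have : lft.filter (fun x => x ≠ []) = lft := by
      rw [List.filter_eq_self]
      intro x hx
      simpa using hne x hx
    rw [this]
    rfl

end

section
variable {n q k N L H : ℕ} {adj : ℕ → ℕ → Prop} [DecidableRel adj]

/-- the bars that remain after the clicks for the vertices in `S` -/
def lst (N q : ℕ) (S : Finset ℕ) : List ℕ :=
  (List.range (2 * N)).filter (fun j => ∀ v ∈ S, j ≠ 2 * (v * q))

theorem lst_sublist (S : Finset ℕ) : (lst N q S).Sublist (List.range (2 * N)) :=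
  List.filter_sublist

theorem mem_lst {S : Finset ℕ} {j : ℕ} :
    j ∈ lst N q S ↔ j < 2 * N ∧ ∀ v ∈ S, j ≠ 2 * (v * q) := by
  simp [lst]

theorem lst_insert (hq : 0 < q) {S : Finset ℕ} {v : ℕ} (hv : v ∉ S) (hvN : v * q < N) :
    ∃ l1 l2, IsRun (lst N q S) l1 [2 * (v * q)] l2 0 ∧ l1 ++ l2 = lst N q (insert v S) := by
  set j := 2 * (v * q) with hj
  have hjS : ∀ w ∈ S, j ≠ 2 * (w * q) := by
    intro w hw h
    have h1 : v * q = w * q := by omega
    have := Nat.eq_of_mul_eq_mul_right hq h1
    exact hv (this ▸ hw)
  have hrange : List.range (2 * N) = List.range j ++ ([j] ++ List.range' (j + 1) (2 * N - j - 1)) := by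
    rw [List.range_eq_range', List.range_eq_range']
    have e : 2 * N = j + (1 + (2 * N - j - 1)) := by omega
    rw [e, ← List.range'_append_1, ← List.range'_append_1]
    simp
  have hkeep : ∀ j', j' % 2 = 1 → ∀ w ∈ S, j' ≠ 2 * (w * q) := by
    intro j' h w _ h'
    omega
  refine ⟨(List.range j).filter (fun j => ∀ v ∈ S, j ≠ 2 * (v * q)),
    (List.range' (j + 1) (2 * N - j - 1)).filter (fun j => ∀ v ∈ S, j ≠ 2 * (v * q)), ?_, ?_⟩
  · refine ⟨?_, by simp, ?_, ?_, ?_⟩
    · unfold lst
      rw [hrange, List.filter_append, List.filter_append, List.append_assoc]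
      congr 2
      rw [List.filter_cons_of_pos (by simpa using hjS)]
      simp
    · intro z hz
      simp only [List.mem_singleton] at hz
      omega
    · intro x z hxz
      rcases hj0 : j with _ | j'
      · rw [hj0] at hxz
        simp at hxz
      · rw [hj0, List.range_succ, List.filter_append, List.filter_cons_of_pos
          (by simpa using hkeep j' (by omega))] at hxz
        simp only [List.filter_nil] at hxz
        have := (List.append_inj' hxz rfl).2
        simp only [List.cons.injEq, and_true] at this
        omega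
    · intro z x hzx
      rcases hm : 2 * N - j - 1 with _ | m
      · omega
      · rw [hm, List.range'_succ, List.filter_cons_of_pos
          (by simpa using hkeep (j + 1) (by omega))] at hzx
        simp only [List.cons.injEq] at hzx
        omega
  · unfold lst
    rw [hrange, List.filter_append, List.filter_append]
    congr 1
    · apply List.filter_congr
      intro x hx
      have hx' : x < j := by simpa using hx
      simp only [Finset.mem_insert, forall_eq_or_imp, decide_eq_decide]
      constructor
      · intro h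
        exact ⟨by omega, h⟩
      · intro h
        exact h.2
    · rw [List.filter_cons_of_neg (by simp [hj])]
      simp only [List.filter_nil, List.nil_append]
      apply List.filter_congr
      intro x hx
      have hx' : j + 1 ≤ x := by
        rw [List.mem_range'_1] at hx
        exact hx.1
      simp only [Finset.mem_insert, forall_eq_or_imp, decide_eq_decide]
      constructor
      · intro h
        exact ⟨by omega, h⟩
      · intro h
        exact h.2

theorem lst_ne_nil (hN : 0 < N) (S : Finset ℕ) : lst N q S ≠ [] := by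
  have : 1 ∈ lst N q S := by
    rw [mem_lst]
    exact ⟨by omega, by intro v _; omega⟩
  exact List.ne_nil_of_mem this

/-- The clicks for the vertices. -/
theorem clicks_vertices {δ : ℕ → ℕ → ℕ} {tp : ℕ → ℕ} {main : List (ℕ × List ℕ)}
    (hδ : ∀ t i, δ t i ≤ 1) (hL : 4 * N + 4 ≤ L)
    (hH : 0 < H) (hq : 0 < q) (htop : ∀ x ∈ main, ∀ z ∈ x.2, 2 ≤ z) (hmain : main ≠ [])
    (S : Finset ℕ) (hS : ∀ v ∈ S, v * q < N) (hN : 0 < N) :
    Clicks S.card (board δ L tp (lftOf H true true) main (List.range (2 * N)))
      (board δ L tp (lftOf H true true) main (lst N q S)) := by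
  induction S using Finset.induction_on with
  | empty =>
    have : lst N q ∅ = List.range (2 * N) := by simp [lst]
    rw [this]
    exact .zero _
  | @insert v S hv ih =>
    rw [Finset.card_insert_of_notMem hv]
    refine (ih (fun w hw => hS w (Finset.mem_insert_of_mem hw))).snoc ?_
    obtain ⟨l1, l2, hr, he⟩ := lst_insert hq hv (hS v (Finset.mem_insert_self _ _))
    have := click_run (lft := lftOf H true true) (tp := tp) hδ hL (lst_sublist S) hr (by omega)
      htop ?_ ?_ hmain
    · rw [he] at this
      have hn : norm (lst N q (insert v S)) main = main := by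
        unfold norm
        rw [if_neg (lst_ne_nil hN _)]
      rw [hn] at this
      exact this
    · intro i y hi htile
      have hi' : i = 1 := by simpa [length_lftOf] using hi
      subst hi'
      obtain ⟨col, h3, _, h4, h5⟩ := tile_color_mem htile
      simp [lftOf] at h3
      rw [← h3] at h5
      simp at h5
    · intro x hx
      simp only [lftOf, if_true, List.singleton_append, List.mem_cons, List.not_mem_nil,
        or_false] at hx
      rcases hx with rfl | rfl
      · simp; omega
      · simp

/-! ### The last five clicks -/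

/-- the main columns after the click with colour `3` -/
def main1 (n R : ℕ) : List (ℕ × List ℕ) := (List.range (R * (2 * n + 1))).map (fun a => (a, [4]))

theorem filter_main' {δ : ℕ → ℕ → ℕ} {tp : ℕ → ℕ} {main : List (ℕ × List ℕ)} (a : ℕ)
    (l : List ℕ) :
    (main.map (mcol δ L tp l)).map (fun c => c.filter (fun x => x ≠ a))
      = (main.map (fun x => (x.1, x.2.filter (fun z => z ≠ a)))).map
        (mcol δ L tp (l.filter (fun j => j % 2 ≠ a))) := by
  rw [List.map_map, List.map_map]
  apply List.map_congr_left
  intro x _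
  simp only [Function.comp, mcol]
  rw [List.filter_append, filter_bars]

theorem main0_getElem? (n k R i : ℕ) (hi : i < R * (2 * n + 1)) :
    (main0 n k R)[i]? = some (i, topInit n (k + 1) i) := by
  unfold main0
  rw [List.getElem?_map, List.getElem?_range hi]
  rfl

/-- The click with colour `3`. -/
theorem click_three {δ : ℕ → ℕ → ℕ} {R : ℕ} {l : List ℕ} (hδ : ∀ t i, δ t i ≤ 1)
    (hL : 4 * N + 4 ≤ L) (hH : 0 < H) (hR : 2 ≤ R) (hl : l ≠ [])
    (hs : ∀ u < n, ht δ L u l + 1 ≤ ht δ L n l ∧ ht δ L n l ≤ ht δ L u l + k) :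
    Click (board δ L (tpOf n) (lftOf H true true) (main0 n k R) l)
      (board δ L (tpOf n) (lftOf H true true) (main1 n R) l) := by
  set b := board δ L (tpOf n) (lftOf H true true) (main0 n k R) l with hb
  set M := R * (2 * n + 1) with hM
  set lo : ℕ → ℕ := fun a => ht δ L (tpOf n a) l + (if a % (2 * n + 1) % 2 = 1 then 1 else 0)
    with hlo
  set hi : ℕ → ℕ := fun a => ht δ L (tpOf n a) l +
    (if a % (2 * n + 1) % 2 = 1 then k + 2 else 1) with hhi
  have hlen : (lftOf H true true).length = 2 := by simp [length_lftOf]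
  have hMlen : (main0 n k R).length = M := by simp [main0, hM]
  have hbnd : ∀ a, lo a ≤ ht δ L n l ∧ ht δ L n l < hi a := by
    intro a
    simp only [hlo, hhi]
    by_cases h : a % (2 * n + 1) % 2 = 1
    · have h1 : tpOf n a < n := by
        unfold tpOf
        rw [if_pos h]
        have := Nat.mod_lt a (show 0 < 2 * n + 1 by omega)
        omega
      have := hs _ h1
      rw [if_pos h, if_pos h]
      omega
    · have h1 : tpOf n a = n := by
        unfold tpOf
        rw [if_neg h]
      rw [if_neg h, if_neg h, h1]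
      omega
  have hcol : ∀ a < M, ∀ y, lo a ≤ y → y < hi a → tile b (2 + a, y) = some 3 := by
    intro a ha y h1 h2
    have := tile_main (δ := δ) (L := L) (tp := tpOf n) (lft := lftOf H true true)
      (main := main0 n k R) (l := l) a y
    rw [hlen] at this
    rw [hb, this, main0_getElem? n k R a ha]
    simp only [Option.bind_some, mcol]
    simp only [hlo, hhi] at h1 h2
    rw [getElem?_top _ _ _ (by omega)]
    unfold topInit
    by_cases h : a % (2 * n + 1) % 2 = 1
    · rw [if_pos h] at h1 h2 ⊢
      obtain ⟨d, hd⟩ : ∃ d, y - ht δ L (tpOf n a) l = d + 1 :=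
        ⟨y - ht δ L (tpOf n a) l - 1, by omega⟩
      rw [hd, List.getElem?_cons_succ, List.getElem?_replicate, if_pos (by omega)]
    · rw [if_neg h] at h1 h2 ⊢
      have : y - ht δ L (tpOf n a) l = 0 := by omega
      rw [this]
      rfl
  have hloc : ∀ x, tile b x = some 3 → ∃ a < M, x.1 = 2 + a ∧ lo a ≤ x.2 ∧ x.2 < hi a := by
    intro x hx
    rcases tile_cases hx with ⟨_, _, _, h⟩ | ⟨_, _, _, h⟩ | ⟨i, _, _, _, h⟩ |
      ⟨i, w, hw, h1, h2, h3⟩
    · omega
    · omega
    · omega
    · have hi' : i < M := by
        rw [← hMlen]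
        exact (List.getElem?_eq_some_iff.1 hw).1
      rw [main0_getElem? n k R i hi'] at hw
      simp only [Option.some.injEq] at hw
      subst hw
      rw [hlen] at h1
      simp only at h2 h3
      refine ⟨i, hi', h1, ?_⟩
      simp only [hlo, hhi]
      unfold topInit at h3
      by_cases h : i % (2 * n + 1) % 2 = 1
      · rw [if_pos h] at h3 ⊢
        rw [if_pos h]
        rcases hd : x.2 - ht δ L (tpOf n i) l with _ | d
        · rw [hd] at h3
          simp at h3
        · rw [hd, List.getElem?_cons_succ, List.getElem?_replicate] at h3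
          split_ifs at h3 with h4
          · omega
      · rw [if_neg h] at h3 ⊢
        rw [if_neg h]
        rcases hd : x.2 - ht δ L (tpOf n i) l with _ | _ | d
        · omega
        · rw [hd] at h3
          simp at h3
        · rw [hd] at h3
          simp at h3
  have h2M : 2 ≤ M := by
    calc 2 ≤ R := hR
      _ = R * 1 := by ring
      _ ≤ M := Nat.mul_le_mul_left _ (by omega)
  have hconn : ∀ x y, tile b x = some 3 → tile b y = some 3 → y ∈ group b x := by
    intro x y hx hy
    obtain ⟨i, hi1, hi2, hi3, hi4⟩ := hloc x hx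
    obtain ⟨j, hj1, hj2, hj3, hj4⟩ := hloc y hy
    have ex : x = (2 + i, x.2) := by ext <;> simp [hi2]
    have ey : y = (2 + j, y.2) := by ext <;> simp [hj2]
    rw [ex, ey]
    refine strip_connected (a := 3) (i0 := 2) (i1 := 2 + M)
      (lo := fun i => lo (i - 2)) (hi := fun i => hi (i - 2))
      ?_ ?_ ?_ (by omega) (by omega) (by omega) (by omega) ?_ ?_ ?_ ?_
    · intro i' h0 h1 y' h2 h3
      have := hcol (i' - 2) (by omega) y' h2 h3
      have e : 2 + (i' - 2) = i' := by omega
      rwa [e] at this
    · intro i' _ _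
      have := hbnd (i' - 2)
      omega
    · intro i' _ _
      have h1 := hbnd (i' - 2)
      have h2 := hbnd (i' + 1 - 2)
      omega
    all_goals simp only [Nat.add_sub_cancel_left]; assumption
  have hp := hcol 0 (by omega) (ht δ L n l) (hbnd 0).1 (hbnd 0).2
  have hq := hcol 1 (by omega) (ht δ L n l) (hbnd 1).1 (hbnd 1).2
  have := click_color hp hq (by simp) (fun x hx => hconn _ _ hp hx)
  have e : (b.map (fun c => c.filter (fun x => x ≠ 3))).filter (fun c => c ≠ [])
      = board δ L (tpOf n) (lftOf H true true) (main1 n R) l := by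
    rw [hb]
    unfold board
    rw [List.map_append, filter_main']
    have h1 : (lftOf H true true).map (fun c => c.filter (fun x => x ≠ 3)) = lftOf H true true := by
      simp [lftOf]
    have h2 : (main0 n k R).map (fun x => (x.1, x.2.filter (fun z => z ≠ 3))) = main1 n R := by
      unfold main0 main1
      rw [List.map_map]
      apply List.map_congr_left
      intro a _
      simp only [Function.comp, Prod.mk.injEq, true_and]
      unfold topInit
      split_ifs
      · simp
      · simp
    have h3 : l.filter (fun j => j % 2 ≠ 3) = l := by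
      rw [List.filter_eq_self]
      intro j _
      have : j % 2 < 2 := Nat.mod_lt _ (by omega)
      simp; omega
    rw [h1, h2, h3]
    have := filter_board (lft := lftOf H true true) (tp := tpOf n) hδ hL (main1 n R) l
    unfold board at this
    rw [this, filter_lftOf hH, if_neg hl]
  rwa [e] at this

/-- The last click, with colour `4`. -/
theorem click_four {δ : ℕ → ℕ → ℕ} {tp : ℕ → ℕ} {R : ℕ} (hR : 2 ≤ R) :
    Click (board δ L tp [] (main1 n R) []) [] := by
  set b := board δ L tp [] (main1 n R) [] with hb
  have hbe : b = List.replicate (R * (2 * n + 1)) [4] := by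
    rw [hb]
    unfold board main1
    rw [List.nil_append, List.map_map]
    have : (mcol δ L tp [] ∘ fun a : ℕ => (a, [4])) = fun _ => [4] := by
      funext a
      simp [mcol]
    rw [this]
    simp
  have h2M : 2 ≤ R * (2 * n + 1) := by
    calc 2 ≤ R := hR
      _ = R * 1 := by ring
      _ ≤ _ := Nat.mul_le_mul_left _ (by omega)
  have hcol : ∀ a < R * (2 * n + 1), tile b (a, 0) = some 4 := by
    intro a ha
    rw [hbe]
    unfold tile
    simp only [List.getElem?_replicate, if_pos ha]
    rfl
  have hloc : ∀ x, tile b x = some 4 → x.1 < R * (2 * n + 1) ∧ x.2 = 0 := by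
    intro x hx
    rw [hbe] at hx
    unfold tile at hx
    simp only [List.getElem?_replicate] at hx
    split_ifs at hx with h
    · refine ⟨h, ?_⟩
      rcases hd : x.2 with _ | d
      · rfl
      · rw [hd] at hx
        simp at hx
    · simp at hx
  have hp := hcol 0 (by omega)
  have hq := hcol 1 (by omega)
  have := click_color hp hq (by simp) (by
    intro x hx
    obtain ⟨h1, h2⟩ := hloc x hx
    have ex : x = (x.1, x.2) := rfl
    rw [ex]
    refine strip_connected (a := 4) (i0 := 0) (i1 := R * (2 * n + 1))
      (lo := fun _ => 0) (hi := fun _ => 1)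
      ?_ ?_ ?_ (by omega) (by omega) (by omega) (by omega) (by simp) (by simp) (by simp) ?_
    · intro i _ hi y _ hy
      have : y = 0 := by omega
      rw [this]
      exact hcol i hi
    · intro i _ _; simp
    · intro i _ _; simp
    · omega)
  have e : (b.map (fun c => c.filter (fun x => x ≠ 4))).filter (fun c => c ≠ []) = [] := by
    rw [hbe, List.filter_eq_nil_iff]
    intro x hx
    simp at hx
    simp [hx]
  rwa [e] at this


end

section
variable {n k : ℕ} {adj : ℕ → ℕ → Prop} [DecidableRel adj]

theorem countP_lst {N q : ℕ} (p : ℕ → Prop) [DecidablePred p] (S : Finset ℕ) (hq : 0 < q)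
    (hS : ∀ v ∈ S, v * q < N) :
    (lst N q S).countP (fun j => p j) + (S.filter (fun v => p (2 * (v * q)))).card
      = (List.range (2 * N)).countP (fun j => p j) := by
  have h1 : (lst N q S).Nodup := (lst_sublist S).nodup List.nodup_range
  rw [countP_eq_card h1, countP_eq_card List.nodup_range]
  have : (S.filter (fun v => p (2 * (v * q)))).card
      = ((S.filter (fun v => p (2 * (v * q)))).image (fun v => 2 * (v * q))).card := by
    rw [Finset.card_image_of_injOn]
    intro a _ b _ h
    simp only at h
    exact Nat.eq_of_mul_eq_mul_right hq (by omega)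
  rw [this, ← Finset.card_union_of_disjoint]
  · congr 1
    ext j
    simp only [Finset.mem_union, Finset.mem_filter, List.mem_toFinset, mem_lst, Finset.mem_image,
      List.mem_range]
    constructor
    · rintro (⟨⟨h1, _⟩, h3⟩ | ⟨v, ⟨hv, h3⟩, rfl⟩)
      · exact ⟨h1, h3⟩
      · have := hS v hv
        exact ⟨by omega, h3⟩
    · rintro ⟨h1, h3⟩
      by_cases h : ∃ v ∈ S, j = 2 * (v * q)
      · obtain ⟨v, hv, rfl⟩ := h
        exact Or.inr ⟨v, ⟨hv, h3⟩, rfl⟩
      · push Not at h
        exact Or.inl ⟨⟨h1, h⟩, h3⟩
  · rw [Finset.disjoint_left]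
    intro j hj hj'
    simp only [Finset.mem_filter, List.mem_toFinset, mem_lst, Finset.mem_image] at hj hj'
    obtain ⟨v, ⟨hv, _⟩, rfl⟩ := hj'
    exact hj.1.2 v hv rfl

theorem evs_range_eq (δ : ℕ → ℕ → ℕ) (t N : ℕ) :
    evs δ t (List.range (2 * N)) = ods δ t (List.range (2 * N)) := by
  induction N with
  | zero => simp [evs, ods]
  | succ N ih =>
    have e : 2 * (N + 1) = 2 * N + 1 + 1 := by ring
    have e0 : 2 * N % 2 = 0 := by omega
    have e1 : (2 * N + 1) % 2 = 1 := by omega
    have e2 : 2 * N / 2 = N := by omega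
    have e3 : (2 * N + 1) / 2 = N := by omega
    unfold evs ods at ih ⊢
    rw [e, List.range_succ, List.range_succ]
    simp only [List.map_append, List.sum_append, List.map_cons, List.map_nil, List.sum_cons,
      List.sum_nil, e0, e1, e2, e3]
    simp
    omega

/-- The difference between the heights of the reference columns and of the columns of type `u`. -/
theorem ht_lst {q N L : ℕ} (hq : 0 < q) (hL : 1 ≤ L) {S : Finset ℕ} (hS : ∀ v ∈ S, v * q < N)
    (u : ℕ) :
    ht (del n q adj) L u (lst N q S)
      + (S.filter (fun v => del n q adj u (v * q) = 1)).card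
      = ht (del n q adj) L n (lst N q S) := by
  have hδ := del_le_one (n := n) (q := q) (adj := adj)
  have h1 := ht_eq hδ hL u (lst N q S)
  have h2 := ht_eq hδ hL n (lst N q S)
  rw [ods_ref, evs_ref] at h2
  have h3 := countP_lst (fun j => j % 2 = 0 ∧ del n q adj u (j / 2) = 1) S hq hS
  have h4 := countP_lst (fun j => j % 2 = 1 ∧ del n q adj u (j / 2) = 1) S hq hS
  rw [← evs_eq_countP hδ, ← evs_eq_countP hδ] at h3
  rw [← ods_eq_countP hδ, ← ods_eq_countP hδ] at h4
  have h5 := evs_range_eq (del n q adj) u N
  have h6 : S.filter (fun v => 2 * (v * q) % 2 = 0 ∧ del n q adj u (2 * (v * q) / 2) = 1)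
      = S.filter (fun v => del n q adj u (v * q) = 1) := by
    apply Finset.filter_congr
    intro v _
    have e1 : 2 * (v * q) % 2 = 0 := by omega
    have e2 : 2 * (v * q) / 2 = v * q := by omega
    rw [e1, e2]
    simp
  have h7 : S.filter (fun v => 2 * (v * q) % 2 = 1 ∧ del n q adj u (2 * (v * q) / 2) = 1)
      = ∅ := by
    rw [Finset.filter_eq_empty_iff]
    intro v _ h
    omega
  rw [h6] at h3
  rw [h7, Finset.card_empty] at h4
  omega

theorem norm_main1 (n R : ℕ) (l : List ℕ) : norm l (main1 n R) = main1 n R := by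
  unfold norm
  split_ifs
  · rw [List.filter_eq_self]
    intro x hx
    unfold main1 at hx
    rw [List.mem_map] at hx
    obtain ⟨a, _, rfl⟩ := hx
    simp
  · rfl

theorem complete (h : HasDomSet n adj k) :
    ∃ m ≤ k + 5, Clicks m (theBoard n adj k) [] := by
  obtain ⟨S, hSk, hSn, hdom⟩ := h
  refine ⟨S.card + 5, by omega, ?_⟩
  unfold theBoard
  simp only
  set q := 2 * k + 8 with hq
  set N := n * q + 1 with hN
  set L := 4 * N + 4 with hL
  set H := L * (2 * N) + N + 1 with hH
  set δ := del n q adj with hδ'
  have hδ : ∀ t i, δ t i ≤ 1 := del_le_one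
  have hS : ∀ v ∈ S, v * q < N := by
    intro v hv
    have := Nat.mul_le_mul_right q (hSn v hv).le
    omega
  have hq0 : 0 < q := by omega
  have hR0 : (2 * k + 11) * (2 * n + 1) ≠ 0 := by positivity
  have hmain0 : main0 n k (2 * k + 11) ≠ [] := by
    unfold main0
    simp
  have htop0 : ∀ x ∈ main0 n k (2 * k + 11), ∀ z ∈ x.2, 2 ≤ z := by
    intro x hx z hz
    unfold main0 at hx
    rw [List.mem_map] at hx
    obtain ⟨a, _, rfl⟩ := hx
    unfold topInit at hz
    simp only at hz
    split_ifs at hz
    · simp [List.mem_replicate] at hz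
      omega
    · simp at hz
      omega
  have c1 := clicks_vertices (L := L) (H := H) (tp := tpOf n) hδ hL.ge (by omega) hq0 htop0
    hmain0 S hS (by omega)
  -- colour 3
  set l := lst N q S with hl
  have hlsub : l.Sublist (List.range (2 * N)) := lst_sublist S
  have hlne : l ≠ [] := lst_ne_nil (by omega) S
  have hs : ∀ u < n, ht δ L u l + 1 ≤ ht δ L n l ∧ ht δ L n l ≤ ht δ L u l + k := by
    intro u hu
    have h1 := ht_lst (n := n) (adj := adj) (L := L) hq0 (by omega) hS u
    rw [← hδ', ← hl] at h1
    have h2 : (S.filter (fun v => δ u (v * q) = 1)).card ≤ S.card :=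
      Finset.card_filter_le _ _
    have h3 : 0 < (S.filter (fun v => δ u (v * q) = 1)).card := by
      rw [Finset.card_pos]
      obtain ⟨v, hv, h4⟩ := hdom u hu
      refine ⟨v, ?_⟩
      rw [Finset.mem_filter]
      refine ⟨hv, ?_⟩
      rw [hδ']
      unfold del
      rw [Nat.mul_div_cancel _ hq0, if_pos ⟨hu, hSn v hv, h4⟩]
    omega
  have c2 := c1.snoc (click_three (R := 2 * k + 11) hδ hL.ge (by omega) (by omega) hlne hs)
  -- colour 2
  have hinc : (main1 n (2 * k + 11)).Pairwise (fun x y => x.1 < y.1) := by
    unfold main1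
    rw [List.pairwise_map]
    exact List.pairwise_lt_range
  have htop1 : ∀ x ∈ main1 n (2 * k + 11), ∀ z ∈ x.2, z = 3 ∨ z = 4 := by
    intro x hx z hz
    unfold main1 at hx
    rw [List.mem_map] at hx
    obtain ⟨a, _, rfl⟩ := hx
    right
    simpa using hz
  have hne1 : ∀ x ∈ main1 n (2 * k + 11), x.2 ≠ [] := by
    intro x hx
    unfold main1 at hx
    rw [List.mem_map] at hx
    obtain ⟨a, _, rfl⟩ := hx
    simp
  have hinv1 : Inv N (N + 1) true (main1 n (2 * k + 11)) l :=
    ⟨hlsub, Or.inl ⟨by simp; omega, by simp; omega⟩, hinc, htop1, fun _ => hne1⟩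
  set b1 := board δ L (tpOf n) (lftOf H true true) (main1 n (2 * k + 11)) l with hb1
  have t1 : tile b1 (1, 0) = some 2 := by
    rw [hb1, tile_left (by simp [length_lftOf])]
    simp [tile, lftOf]
  have t1' : tile b1 (1, 1) = some 2 := by
    rw [hb1, tile_left (by simp [length_lftOf])]
    simp [tile, lftOf]
  have c3' : Click b1 (board δ L (tpOf n) (lftOf H true false) (main1 n (2 * k + 11)) l) := by
    refine ⟨(1, 0), (1, 1), by rw [t1]; simp, ?_, by simp, ?_⟩
    · apply Relation.ReflTransGen.single
      exact ⟨Or.inl ⟨rfl, Or.inl rfl⟩, 2, t1, t1'⟩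
    · have := (step_C hδ hL.ge (by omega) hinv1 t1).1
      rw [norm_main1] at this
      exact this.symm
  have c3 := c2.snoc c3'
  -- colour 0
  have hinv2 : Inv N (N + 1) false (main1 n (2 * k + 11)) l :=
    ⟨hlsub, Or.inl ⟨by simp, by simp⟩, hinc, htop1, fun _ => hne1⟩
  set b2 := board δ L (tpOf n) (lftOf H true false) (main1 n (2 * k + 11)) l with hb2
  have hHpos : 1 < H := by
    have : 8 * 1 ≤ L * (2 * N) := Nat.mul_le_mul (by omega) (by omega)
    omega
  have t2 : ∀ y < H, tile b2 (0, y) = some 0 := by
    intro y hy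
    rw [hb2, tile_left (by simp [length_lftOf])]
    simp [tile, lftOf, hy]
  set l' := l.filter (fun j => j % 2 ≠ 0) with hl'
  have c4' : Click b2 (board δ L (tpOf n) (lftOf H false false) (main1 n (2 * k + 11)) l') := by
    refine ⟨(0, 0), (0, 1), by rw [t2 0 (by omega)]; simp, ?_, by simp, ?_⟩
    · apply Relation.ReflTransGen.single
      exact ⟨Or.inl ⟨rfl, Or.inl rfl⟩, 0, t2 0 (by omega), t2 1 hHpos⟩
    · have := (step_mass hδ hL.ge (by omega) hinv2 (t2 0 (by omega))).1
      rw [norm_main1] at this
      exact this.symm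
  have c4 := c3.snoc c4'
  -- colour 1
  have hl'ne : l' ≠ [] := by
    have : 1 ∈ l' := by
      rw [hl', List.mem_filter]
      refine ⟨?_, by simp⟩
      rw [hl, mem_lst]
      exact ⟨by omega, by intro v _; omega⟩
    exact List.ne_nil_of_mem this
  have hodd : ∀ z ∈ l', z % 2 = 1 := by
    intro z hz
    rw [hl', List.mem_filter] at hz
    have : z % 2 ≠ 0 := by simpa using hz.2
    omega
  have hrun : IsRun l' [] l' [] 1 :=
    ⟨by simp, hl'ne, hodd, by simp, by simp⟩
  have c5' := click_run (lft := lftOf H false false) (tp := tpOf n) (main := main1 n (2 * k + 11))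
    hδ hL.ge (List.filter_sublist.trans hlsub) hrun (by omega)
    (fun x hx z hz => by rcases htop1 x hx z hz with h | h <;> omega)
    (by intro i y hi; simp [lftOf] at hi) (by intro x hx; simp [lftOf] at hx)
    (by unfold main1; simp)
  rw [norm_main1] at c5'
  have c5 := c4.snoc c5'
  -- colour 4
  have hlft : lftOf H false false = [] := by simp [lftOf]
  rw [hlft] at c5
  exact c5.snoc (click_four (by omega))

end

end Pool.Agent.Lib.MP_e74eef_lc
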