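import Mathlib

/-!
# Counting runs in a list of bars
-/

namespace Pool.Agent.Lib.MP_e74eef_lc

/-- the number of maximal runs of colour `a` in a list of bars -/
def runs (a : ℕ) : List ℕ → ℕ
  | [] => 0
  | x :: l => (if x % 2 = a ∧ l.head?.map (· % 2) ≠ some a then 1 else 0) + runs a l

theorem runs_cons_head (a x : ℕ) {l l' : List ℕ} (h : l.head? = l'.head?) :
    runs a (x :: l) + runs a l' = runs a (x :: l') + runs a l := by
  simp only [runs, h]
  omega

theorem runs_mono_ne {a c : ℕ} (hac : c ≠ a) (m l : List ℕ) (hm : ∀ z ∈ m, z % 2 = c) :
    runs a (m ++ l) = runs a l := by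
  induction m with
  | nil => simp
  | cons x m ih =>
    have hx : x % 2 = c := hm x (by simp)
    rw [List.cons_append, runs, ih (fun z hz => hm z (by simp [hz])), if_neg]
    · simp
    · rw [hx]
      exact fun h => hac h.1

theorem runs_mono_le (a c : ℕ) (m l : List ℕ) (hm : ∀ z ∈ m, z % 2 = c) :
    runs a (m ++ l) ≤ runs a l + 1 := by
  by_cases hac : c = a
  · subst hac
    induction m with
    | nil => simp
    | cons x m ih =>
      have hx : x % 2 = c := hm x (by simp)
      rw [List.cons_append, runs]
      cases m with
      | nil =>
        simp only [List.nil_append]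
        split_ifs <;> omega
      | cons y m =>
        have hy : y % 2 = c := hm y (by simp)
        rw [if_neg (by simp [hy])]
        have := ih (fun z hz => hm z (by simp at hz ⊢; tauto))
        omega
  · rw [runs_mono_ne hac m l hm]
    omega

theorem runs_remove (a c : ℕ) (l1 m l2 : List ℕ) (hm : ∀ z ∈ m, z % 2 = c) :
    runs a (l1 ++ m ++ l2) ≤ runs a (l1 ++ l2) + 1 := by
  induction l1 with
  | nil => simpa using runs_mono_le a c m l2 hm
  | cons y l1 ih =>
    cases l1 with
    | cons w l1 =>
      have := runs_cons_head a y (l := w :: l1 ++ m ++ l2) (l' := w :: l1 ++ l2) (by simp)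
      simp only [List.cons_append] at ih this ⊢
      omega
    | nil =>
      simp only [List.nil_append, List.cons_append, runs]
      cases m with
      | nil => simp
      | cons x m =>
        have hx : x % 2 = c := hm x (by simp)
        by_cases hac : c = a
        · rw [if_neg (by simp [hx, hac])]
          have := runs_mono_le a c (x :: m) l2 hm
          omega
        · rw [runs_mono_ne hac (x :: m) l2 hm]
          split_ifs <;> omega

theorem runs_le_countP (a : ℕ) (l : List ℕ) : runs a l ≤ l.countP (fun j => j % 2 = a) := by
  induction l with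
  | nil => simp [runs]
  | cons x l ih =>
    rw [runs, List.countP_cons]
    by_cases h : x % 2 = a
    · simp only [h, true_and, decide_true, if_true]
      split_ifs <;> omega
    · simp [h, ih]

theorem runs_range' (N s : ℕ) (hs : s % 2 = 0) :
    runs 0 (List.range' s (2 * N)) = N ∧ runs 1 (List.range' s (2 * N)) = N := by
  induction N generalizing s with
  | zero => simp [runs]
  | succ N ih =>
    have e : 2 * (N + 1) = 2 * N + 1 + 1 := by ring
    rw [e, List.range'_succ, List.range'_succ]
    obtain ⟨h1, h2⟩ := ih (s + 1 + 1) (by omega)
    have h3 : (s + 1) % 2 = 1 := by omega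
    constructor
    · rw [runs, runs, h1, if_pos (by simp [hs, h3]), if_neg (by omega)]
      omega
    · have : (List.range' (s + 1 + 1) (2 * N)).head?.map (· % 2) ≠ some 1 := by
        cases N with
        | zero => simp
        | succ N =>
          have e : 2 * (N + 1) = 2 * N + 1 + 1 := by ring
          rw [e, List.range'_succ]
          have h4 : (s + 1 + 1) % 2 = 0 := by omega
          simp [h4]
      rw [runs, runs, h2, if_neg (by omega), if_pos ⟨h3, this⟩]
      omega

theorem runs_range (N : ℕ) :
    runs 0 (List.range (2 * N)) = N ∧ runs 1 (List.range (2 * N)) = N := by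
  rw [List.range_eq_range']
  exact runs_range' N 0 rfl

end Pool.Agent.Lib.MP_e74eef_lc
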