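import Pool.Agent.Lib.MP_e74eef_lc.Run
import Pool.Agent.Lib.MP_e74eef_lc.Runs

/-!
# Counting bars
-/

namespace Pool.Agent.Lib.MP_e74eef_lc

/-- The thickness offset: `1` when the pair `i` of bars belongs to a vertex `i / q` that dominates
the vertex `t`; the columns of type `n` are the reference columns. -/
def del (n q : ℕ) (adj : ℕ → ℕ → Prop) [DecidableRel adj] (t i : ℕ) : ℕ :=
  if t < n ∧ i / q < n ∧ (t = i / q ∨ adj t (i / q)) then 1 else 0

section
variable {δ : ℕ → ℕ → ℕ}

theorem ods_eq_countP (hδ : ∀ t i, δ t i ≤ 1) (t : ℕ) (l : List ℕ) :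
    ods δ t l = l.countP (fun j => j % 2 = 1 ∧ δ t (j / 2) = 1) := by
  induction l with
  | nil => simp [ods]
  | cons j l ih =>
    have h1 := hδ t (j / 2)
    rw [List.countP_cons, ← ih]
    simp only [ods, List.map_cons, List.sum_cons]
    by_cases h : j % 2 = 0
    · simp [h]
    · have h' : j % 2 = 1 := by omega
      by_cases h2 : δ t (j / 2) = 1
      · simp [h', h2]; omega
      · have : δ t (j / 2) = 0 := by omega
        simp [this]

theorem evs_eq_countP (hδ : ∀ t i, δ t i ≤ 1) (t : ℕ) (l : List ℕ) :
    evs δ t l = l.countP (fun j => j % 2 = 0 ∧ δ t (j / 2) = 1) := by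
  induction l with
  | nil => simp [evs]
  | cons j l ih =>
    have h1 := hδ t (j / 2)
    rw [List.countP_cons, ← ih]
    simp only [evs, List.map_cons, List.sum_cons]
    by_cases h : j % 2 = 0
    · by_cases h2 : δ t (j / 2) = 1
      · simp [h, h2]; omega
      · have : δ t (j / 2) = 0 := by omega
        simp [this]
    · simp [h]

theorem countP_eq_card {l : List ℕ} (hl : l.Nodup) (p : ℕ → Prop) [DecidablePred p] :
    l.countP (fun j => p j) = (l.toFinset.filter p).card := by
  rw [List.countP_eq_length_filter, ← List.toFinset_card_of_nodup (hl.filter _),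
    List.toFinset_filter]
  simp

theorem exists_of_evs_lt (hδ : ∀ t i, δ t i ≤ 1) {t : ℕ} {l : List ℕ} (hl : l.Nodup)
    (h : evs δ t l < ods δ t l) : ∃ i, 2 * i + 1 ∈ l ∧ 2 * i ∉ l ∧ δ t i = 1 := by
  by_contra hcon
  push Not at hcon
  apply absurd h
  rw [not_lt, ods_eq_countP hδ, evs_eq_countP hδ, countP_eq_card hl, countP_eq_card hl]
  apply Finset.card_le_card_of_injOn (fun j => j - 1)
  · intro j hj
    simp only [Finset.coe_filter, List.mem_toFinset, Set.mem_ofPred_eq] at hj ⊢
    obtain ⟨h1, h2, h3⟩ := hj
    have e : 2 * (j / 2) + 1 = j := by omega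
    have e2 : 2 * (j / 2) = j - 1 := by omega
    have e3 : (j - 1) / 2 = j / 2 := by omega
    refine ⟨?_, by omega, by rw [e3]; exact h3⟩
    by_contra h4
    exact hcon (j / 2) (by rw [e]; exact h1) (by rw [e2]; exact h4) h3
  · intro i hi j hj hij
    simp only [Finset.coe_filter, List.mem_toFinset, Set.mem_ofPred_eq] at hi hj hij
    omega

theorem exists_of_ods_lt (hδ : ∀ t i, δ t i ≤ 1) {t : ℕ} {l : List ℕ} (hl : l.Nodup)
    (h : ods δ t l < evs δ t l) : ∃ i, 2 * i ∈ l ∧ 2 * i + 1 ∉ l ∧ δ t i = 1 := by
  by_contra hcon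
  push Not at hcon
  apply absurd h
  rw [not_lt, ods_eq_countP hδ, evs_eq_countP hδ, countP_eq_card hl, countP_eq_card hl]
  apply Finset.card_le_card_of_injOn (fun j => j + 1)
  · intro j hj
    simp only [Finset.coe_filter, List.mem_toFinset, Set.mem_ofPred_eq] at hj ⊢
    obtain ⟨h1, h2, h3⟩ := hj
    have e : 2 * (j / 2) = j := by omega
    have e3 : (j + 1) / 2 = j / 2 := by omega
    refine ⟨?_, by omega, by rw [e3]; exact h3⟩
    by_contra h4
    exact hcon (j / 2) (by rw [e]; exact h1) (by rw [e]; exact h4) h3
  · intro i hi j hj hij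
    simp only at hij
    omega

/-- the number of pairs whose even bar has been removed -/
theorem card_removed_even {N : ℕ} {l : List ℕ} (hl : l.Sublist (List.range (2 * N))) :
    ((Finset.range N).filter (fun i => 2 * i ∉ l)).card + l.countP (fun j => j % 2 = 0) = N := by
  have hnd : l.Nodup := hl.nodup List.nodup_range
  rw [countP_eq_card hnd]
  have : (l.toFinset.filter (fun j => j % 2 = 0)).card
      = ((Finset.range N).filter (fun i => 2 * i ∈ l)).card := by
    symm
    apply Finset.card_bij (fun i _ => 2 * i)
    · intro i hi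
      simp only [Finset.mem_filter, Finset.mem_range, List.mem_toFinset] at hi ⊢
      exact ⟨hi.2, by omega⟩
    · intro i _ j _ h
      omega
    · intro j hj
      simp only [Finset.mem_filter, List.mem_toFinset] at hj
      have hlt : j < 2 * N := by simpa using hl.subset hj.1
      refine ⟨j / 2, ?_, by omega⟩
      simp only [Finset.mem_filter, Finset.mem_range]
      have e : 2 * (j / 2) = j := by omega
      rw [e]
      exact ⟨by omega, hj.1⟩
  rw [this, add_comm, Finset.card_filter_add_card_filter_not, Finset.card_range]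

theorem card_removed_odd {N : ℕ} {l : List ℕ} (hl : l.Sublist (List.range (2 * N))) :
    ((Finset.range N).filter (fun i => 2 * i + 1 ∉ l)).card + l.countP (fun j => j % 2 = 1)
      = N := by
  have hnd : l.Nodup := hl.nodup List.nodup_range
  rw [countP_eq_card hnd]
  have : (l.toFinset.filter (fun j => j % 2 = 1)).card
      = ((Finset.range N).filter (fun i => 2 * i + 1 ∈ l)).card := by
    symm
    apply Finset.card_bij (fun i _ => 2 * i + 1)
    · intro i hi
      simp only [Finset.mem_filter, Finset.mem_range, List.mem_toFinset] at hi ⊢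
      exact ⟨hi.2, by omega⟩
    · intro i _ j _ h
      omega
    · intro j hj
      simp only [Finset.mem_filter, List.mem_toFinset] at hj
      have hlt : j < 2 * N := by simpa using hl.subset hj.1
      refine ⟨j / 2, ?_, by omega⟩
      simp only [Finset.mem_filter, Finset.mem_range]
      have e : 2 * (j / 2) + 1 = j := by omega
      rw [e]
      exact ⟨by omega, hj.1⟩
  rw [this, add_comm, Finset.card_filter_add_card_filter_not, Finset.card_range]

/-- After all even bars are gone and few odd ones, a column with many hits is much lower. -/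
theorem length_le_of_odd (hδ : ∀ t i, δ t i ≤ 1) {N q : ℕ} (hq : q ≤ N) {t : ℕ}
    (ht : ∀ i < q, δ t i = 1) {l : List ℕ} (hl : l.Sublist (List.range (2 * N)))
    (hodd : ∀ j ∈ l, j % 2 = 1) : l.length + q ≤ ods δ t l + N := by
  have h1 : l.length = ods δ t l + l.countP (fun j => j % 2 = 1 ∧ δ t (j / 2) ≠ 1) := by
    rw [ods_eq_countP hδ]
    clear hl
    induction l with
    | nil => simp
    | cons j l ih =>
      have hj := hodd j (by simp)
      have ih' := ih (fun j hj => hodd j (by simp [hj]))
      rw [List.countP_cons, List.countP_cons, List.length_cons, ih']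
      by_cases h2 : δ t (j / 2) = 1
      · simp [hj, h2]; omega
      · simp [hj, h2]; omega
  have h2 : l.countP (fun j => j % 2 = 1 ∧ δ t (j / 2) ≠ 1)
      ≤ (List.range (2 * N)).countP (fun j => j % 2 = 1 ∧ δ t (j / 2) ≠ 1) :=
    hl.countP_le
  have h3 : (List.range (2 * N)).countP (fun j => j % 2 = 1 ∧ δ t (j / 2) ≠ 1) + q ≤ N := by
    obtain ⟨d, rfl⟩ := Nat.exists_eq_add_of_le hq
    clear hq hl h1 h2
    induction d with
    | zero =>
      have : (List.range (2 * (q + 0))).countP (fun j => j % 2 = 1 ∧ δ t (j / 2) ≠ 1) = 0 := by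
        rw [List.countP_eq_zero]
        intro j hj
        have hj' : j < 2 * (q + 0) := by simpa using hj
        have := ht (j / 2) (by omega)
        simp [this]
      omega
    | succ d ih =>
      have e : 2 * (q + (d + 1)) = 2 * (q + d) + 1 + 1 := by ring
      rw [e, List.range_succ, List.range_succ, List.countP_append, List.countP_append]
      have h5 : List.countP (fun j => decide (j % 2 = 1 ∧ δ t (j / 2) ≠ 1)) [2 * (q + d)] = 0 := by
        rw [List.countP_eq_zero]
        intro j hj
        have : j = 2 * (q + d) := by simpa using hj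
        have : j % 2 = 0 := by omega
        simp [this]
      have h6 : List.countP (fun j => decide (j % 2 = 1 ∧ δ t (j / 2) ≠ 1)) [2 * (q + d) + 1]
          ≤ 1 := List.countP_le_length
      omega
  omega

end

section
variable {n q : ℕ} {adj : ℕ → ℕ → Prop} [DecidableRel adj]

theorem del_le_one (t i : ℕ) : del n q adj t i ≤ 1 := by
  unfold del; split_ifs <;> omega

theorem del_ref (i : ℕ) : del n q adj n i = 0 := by
  unfold del; simp

theorem del_self {t i : ℕ} (ht : t < n) (h : i / q = t) : del n q adj t i = 1 := by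
  unfold del; rw [if_pos]; exact ⟨ht, by omega, Or.inl h.symm⟩

theorem of_del {t i : ℕ} (h : del n q adj t i = 1) :
    t < n ∧ i / q < n ∧ (t = i / q ∨ adj t (i / q)) := by
  unfold del at h
  by_contra hcon
  rw [if_neg hcon] at h
  omega

theorem ods_ref (l : List ℕ) : ods (del n q adj) n l = 0 := by
  induction l with
  | nil => simp [ods]
  | cons j l ih =>
    simp only [ods, List.map_cons, List.sum_cons, del_ref] at ih ⊢
    split_ifs <;> simpa using ih

theorem evs_ref (l : List ℕ) : evs (del n q adj) n l = 0 := by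
  induction l with
  | nil => simp [evs]
  | cons j l ih =>
    simp only [evs, List.map_cons, List.sum_cons, del_ref] at ih ⊢
    split_ifs <;> simpa using ih

theorem evs_of_odd {δ : ℕ → ℕ → ℕ} {t : ℕ} {l : List ℕ} (hodd : ∀ j ∈ l, j % 2 = 1) :
    evs δ t l = 0 := by
  induction l with
  | nil => simp [evs]
  | cons j l ih =>
    have hj := hodd j (by simp)
    have ih' := ih (fun j hj => hodd j (by simp [hj]))
    simp only [evs, List.map_cons, List.sum_cons] at ih' ⊢
    rw [if_neg (by omega)]
    simpa using ih'

end

end Pool.Agent.Lib.MP_e74eef_lc
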