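import Pool.Agent.Lib.MP_e74eef_lc.Board

/-!
# Parameterized problems and fpt-reductions

Machines are the machines `Turing.FinTM2` of Mathlib; instances are coded by bit strings.
-/

namespace Pool.Agent.Lib.MP_e74eef_lc

/-- A parameterized problem: its instances, their codes (bit strings), their parameters, and the
yes-instances. -/
structure ParamProblem where
  /-- the instances -/
  Inst : Type
  /-- the bit string that codes an instance -/
  code : Inst → List Bool
  /-- the parameter of an instance -/
  param : Inst → ℕ
  /-- the yes-instances -/
  Yes : Inst → Prop

/-- Started with the input `x`, the Turing machine `M` halts with the output `y` after at most `m`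
steps. -/
def Outputs (M : Turing.TM2ComputableAux Bool Bool) (x y : List Bool) (m : ℕ) : Prop :=
  Nonempty (Turing.TM2OutputsInTime M.tm (x.map M.inputAlphabet.invFun)
    (some (y.map M.outputAlphabet.invFun)) m)

/-- There is an fpt-reduction from `P` to `Q`: a function `f` that maps instances of `P` to
instances of `Q`, preserves the answer, bounds the new parameter by a computable function `h` of
the old one, and is computed by a Turing machine in time `g(parameter) * (length + 1) ^ c` with
`g` computable and `c` constant. -/
def FptReducible (P Q : ParamProblem) : Prop :=
  ∃ (f : P.Inst → Q.Inst) (M : Turing.TM2ComputableAux Bool Bool) (g h : ℕ → ℕ) (c : ℕ),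
    Computable g ∧ Computable h ∧
    (∀ x, P.Yes x ↔ Q.Yes (f x)) ∧
    (∀ x, Q.param (f x) ≤ h (P.param x)) ∧
    ∀ x, Outputs M (P.code x) (Q.code (f x)) (g (P.param x) * ((P.code x).length + 1) ^ c)

/-- the self-delimiting unary code `1 0 1 0 … 1 0 0` of a natural number -/
def codeNat : ℕ → List Bool
  | 0 => [false]
  | n + 1 => true :: false :: codeNat n

/-- the code of a list: `1` before each entry, `0` at the end -/
def codeList {α : Type} (c : α → List Bool) : List α → List Bool
  | [] => [false]
  | a :: l => true :: (c a ++ codeList c l)

/-- the code of a pair -/
def codePair {α β : Type} (c : α → List Bool) (d : β → List Bool) (p : α × β) : List Bool :=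
  true :: (c p.1 ++ d p.2)

/-- the simple graph with vertices `0, …, n - 1` and the edges in the list `E` -/
def graphOf (n : ℕ) (E : List (ℕ × ℕ)) : SimpleGraph (Fin n) :=
  SimpleGraph.fromRel (fun u v => ((u : ℕ), (v : ℕ)) ∈ E)

/-- the code of a graph (number of vertices, list of edges) with a parameter -/
def codeGraph : (ℕ × List (ℕ × ℕ)) × ℕ → List Bool :=
  codePair (codePair codeNat (codeList (codePair codeNat codeNat))) codeNat

/-- **Dominating Set**: does the graph have a set of at most `k` vertices such that every other
vertex has a neighbour in the set? The parameter is `k`. -/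
def DominatingSet : ParamProblem where
  Inst := (ℕ × List (ℕ × ℕ)) × ℕ
  code := codeGraph
  param := Prod.snd
  Yes x := ∃ S : Finset (Fin x.1.1), S.card ≤ x.2 ∧
    ∀ u, u ∈ S ∨ ∃ v ∈ S, (graphOf x.1.1 x.1.2).Adj u v

/-- **Independent Set**: does the graph have `k` pairwise non-adjacent vertices? The parameter is
`k`. -/
def IndependentSet : ParamProblem where
  Inst := (ℕ × List (ℕ × ℕ)) × ℕ
  code := codeGraph
  param := Prod.snd
  Yes x := ∃ S : Finset (Fin x.1.1), (graphOf x.1.1 x.1.2).IsNIndepSet x.2 S

/-- The class W[1]: the parameterized problems with an fpt-reduction to Independent Set. -/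
def W1 : Set ParamProblem := {P | FptReducible P IndependentSet}

/-- The class W[2]: the parameterized problems with an fpt-reduction to Dominating Set. -/
def W2 : Set ParamProblem := {P | FptReducible P DominatingSet}

/-- **k-Click Elimination-Variant Clickomania**: can the board be emptied with at most `k` clicks?
The parameter is `k`. -/
def Elimination : ParamProblem where
  Inst := Board × ℕ
  code := codePair (codeList (codeList codeNat)) codeNat
  param := Prod.snd
  Yes x := CanEmpty x.1 x.2

/-- **k-Click Score-Variant Clickomania** (an instance is `((board, S), k)`): can at most `k`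
clicks reach a total score greater than `S`? The parameter is `k`. -/
def Score : ParamProblem where
  Inst := (Board × ℕ) × ℕ
  code := codePair (codePair (codeList (codeList codeNat)) codeNat) codeNat
  param := Prod.snd
  Yes x := CanScore x.1.1 x.2 x.1.2

end Pool.Agent.Lib.MP_e74eef_lc
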