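import Mathlib

/-!
# Composition of Mathlib Turing machines

For two machines (`Turing.TM2ComputableAux Bool Bool`) we construct a machine that runs the first
one, moves its output to the input of the second one, and runs the second one.
-/

namespace Pool.Agent.Lib.MP_e74eef_lc

namespace TMComp

open Turing Turing.TM2 Function

section general

variable {K₁ K₂ : Type} [DecidableEq K₁] [DecidableEq K₂] {Γ₁ : K₁ → Type} {Γ₂ : K₂ → Type}
  {Λ₁ Λ₂ σ₁ σ₂ : Type}

/-- stack alphabets of the composition -/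
abbrev cΓ (Γ₁ : K₁ → Type) (Γ₂ : K₂ → Type) : K₁ ⊕ (Unit ⊕ K₂) → Type
  | .inl k => Γ₁ k
  | .inr (.inl _) => Bool
  | .inr (.inr k) => Γ₂ k

/-- stacks of the composition -/
def cS (S₁ : ∀ k, List (Γ₁ k)) (T : List Bool) (S₂ : ∀ k, List (Γ₂ k)) :
    ∀ k, List (cΓ Γ₁ Γ₂ k)
  | .inl k => S₁ k
  | .inr (.inl _) => T
  | .inr (.inr k) => S₂ k

theorem update_cS_inl (S₁ : ∀ k, List (Γ₁ k)) (T : List Bool) (S₂ : ∀ k, List (Γ₂ k)) (k : K₁)
    (x : List (Γ₁ k)) :
    update (β := fun k => List (cΓ Γ₁ Γ₂ k)) (cS S₁ T S₂) (.inl k) x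
      = cS (update S₁ k x) T S₂ := by
  funext j
  rcases j with j | _ | j
  · by_cases h : j = k
    · subst h
      rw [update_self]
      simp only [cS]
      rw [update_self]
    · rw [update_of_ne (by simpa using h)]
      simp only [cS]
      rw [update_of_ne h]
  · rw [update_of_ne (by simp)]
    rfl
  · rw [update_of_ne (by simp)]
    rfl

theorem update_cS_mid (S₁ : ∀ k, List (Γ₁ k)) (T : List Bool) (S₂ : ∀ k, List (Γ₂ k))
    (x : List Bool) :
    update (β := fun k => List (cΓ Γ₁ Γ₂ k)) (cS S₁ T S₂) (.inr (.inl ())) x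
      = cS S₁ x S₂ := by
  funext j
  rcases j with j | _ | j
  · rw [update_of_ne (by simp)]
    rfl
  · rw [update_self]
    rfl
  · rw [update_of_ne (by simp)]
    rfl

theorem update_cS_inr (S₁ : ∀ k, List (Γ₁ k)) (T : List Bool) (S₂ : ∀ k, List (Γ₂ k)) (k : K₂)
    (x : List (Γ₂ k)) :
    update (β := fun k => List (cΓ Γ₁ Γ₂ k)) (cS S₁ T S₂) (.inr (.inr k)) x
      = cS S₁ T (update S₂ k x) := by
  funext j
  rcases j with j | _ | j
  · rw [update_of_ne (by simp)]
    rfl
  · rw [update_of_ne (by simp)]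
    rfl
  · by_cases h : j = k
    · subst h
      rw [update_self]
      simp only [cS]
      rw [update_self]
    · rw [update_of_ne (by simpa using h)]
      simp only [cS]
      rw [update_of_ne h]

/-- translation of the statements of the first machine; halting becomes a jump to the copying
routine -/
def tr₁ (Γ₂ : K₂ → Type) (Λ₂ σ₂ : Type) :
    Stmt Γ₁ Λ₁ σ₁ → Stmt (cΓ Γ₁ Γ₂) (Λ₁ ⊕ (Bool ⊕ Λ₂)) (σ₁ × Option Bool × σ₂)
  | .push k f q => .push (.inl k) (fun v => f v.1) (tr₁ Γ₂ Λ₂ σ₂ q)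
  | .peek k f q => .peek (.inl k) (fun v s => (f v.1 s, v.2)) (tr₁ Γ₂ Λ₂ σ₂ q)
  | .pop k f q => .pop (.inl k) (fun v s => (f v.1 s, v.2)) (tr₁ Γ₂ Λ₂ σ₂ q)
  | .load a q => .load (fun v => (a v.1, v.2)) (tr₁ Γ₂ Λ₂ σ₂ q)
  | .branch f q₁ q₂ => .branch (fun v => f v.1) (tr₁ Γ₂ Λ₂ σ₂ q₁) (tr₁ Γ₂ Λ₂ σ₂ q₂)
  | .goto f => .goto (fun v => .inl (f v.1))
  | .halt => .goto (fun _ => .inr (.inl false))

/-- translation of the statements of the second machine -/
def tr₂ (Γ₁ : K₁ → Type) (Λ₁ σ₁ : Type) :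
    Stmt Γ₂ Λ₂ σ₂ → Stmt (cΓ Γ₁ Γ₂) (Λ₁ ⊕ (Bool ⊕ Λ₂)) (σ₁ × Option Bool × σ₂)
  | .push k f q => .push (.inr (.inr k)) (fun v => f v.2.2) (tr₂ Γ₁ Λ₁ σ₁ q)
  | .peek k f q => .peek (.inr (.inr k)) (fun v s => (v.1, v.2.1, f v.2.2 s)) (tr₂ Γ₁ Λ₁ σ₁ q)
  | .pop k f q => .pop (.inr (.inr k)) (fun v s => (v.1, v.2.1, f v.2.2 s)) (tr₂ Γ₁ Λ₁ σ₁ q)
  | .load a q => .load (fun v => (v.1, v.2.1, a v.2.2)) (tr₂ Γ₁ Λ₁ σ₁ q)
  | .branch f q₁ q₂ => .branch (fun v => f v.2.2) (tr₂ Γ₁ Λ₁ σ₁ q₁) (tr₂ Γ₁ Λ₁ σ₁ q₂)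
  | .goto f => .goto (fun v => .inr (.inr (f v.2.2)))
  | .halt => .halt

/-- a configuration of the first machine as a configuration of the composition -/
def emb₁ (c : Cfg Γ₁ Λ₁ σ₁) (r : Option Bool) (w : σ₂) (T : List Bool)
    (S₂ : ∀ k, List (Γ₂ k)) (Λ₂ : Type) :
    Cfg (cΓ Γ₁ Γ₂) (Λ₁ ⊕ (Bool ⊕ Λ₂)) (σ₁ × Option Bool × σ₂) :=
  ⟨some (c.l.elim (.inr (.inl false)) .inl), (c.var, r, w), cS c.stk T S₂⟩

/-- a configuration of the second machine as a configuration of the composition -/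
def emb₂ (c : Cfg Γ₂ Λ₂ σ₂) (r : Option Bool) (v : σ₁) (T : List Bool)
    (S₁ : ∀ k, List (Γ₁ k)) (Λ₁ : Type) :
    Cfg (cΓ Γ₁ Γ₂) (Λ₁ ⊕ (Bool ⊕ Λ₂)) (σ₁ × Option Bool × σ₂) :=
  ⟨c.l.map (fun l => .inr (.inr l)), (v, r, c.var), cS S₁ T c.stk⟩

theorem stepAux_tr₁ (r : Option Bool) (w : σ₂) (T : List Bool) (S₂ : ∀ k, List (Γ₂ k))
    (q : Stmt Γ₁ Λ₁ σ₁) (v : σ₁) (S₁ : ∀ k, List (Γ₁ k)) :
    stepAux (tr₁ Γ₂ Λ₂ σ₂ q) (v, r, w) (cS S₁ T S₂)
      = emb₁ (stepAux q v S₁) r w T S₂ Λ₂ := by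
  induction q generalizing v S₁ with
  | push k f q ih =>
    simp only [tr₁, stepAux]
    rw [update_cS_inl]
    exact ih _ _
  | peek k f q ih =>
    simp only [tr₁, stepAux]
    exact ih _ _
  | pop k f q ih =>
    simp only [tr₁, stepAux]
    rw [update_cS_inl]
    exact ih _ _
  | load a q ih =>
    simp only [tr₁, stepAux]
    exact ih _ _
  | branch f q₁ q₂ ih₁ ih₂ =>
    simp only [tr₁, stepAux]
    cases f v
    · exact ih₂ _ _
    · exact ih₁ _ _
  | goto f => rfl
  | halt => rfl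

theorem stepAux_tr₂ (r : Option Bool) (v : σ₁) (T : List Bool) (S₁ : ∀ k, List (Γ₁ k))
    (q : Stmt Γ₂ Λ₂ σ₂) (w : σ₂) (S₂ : ∀ k, List (Γ₂ k)) :
    stepAux (tr₂ Γ₁ Λ₁ σ₁ q) (v, r, w) (cS S₁ T S₂)
      = emb₂ (stepAux q w S₂) r v T S₁ Λ₁ := by
  induction q generalizing w S₂ with
  | push k f q ih =>
    simp only [tr₂, stepAux]
    rw [update_cS_inr]
    exact ih _ _
  | peek k f q ih =>
    simp only [tr₂, stepAux]
    exact ih _ _
  | pop k f q ih =>
    simp only [tr₂, stepAux]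
    rw [update_cS_inr]
    exact ih _ _
  | load a q ih =>
    simp only [tr₂, stepAux]
    exact ih _ _
  | branch f q₁ q₂ ih₁ ih₂ =>
    simp only [tr₂, stepAux]
    cases f w
    · exact ih₂ _ _
    · exact ih₁ _ _
  | goto f => rfl
  | halt => rfl

end general

/-- iteration of a step function -/
def iter {C : Type} (f : C → Option C) (n : ℕ) (a : Option C) : Option C := (flip bind f)^[n] a

theorem iter_none {C : Type} (f : C → Option C) (n : ℕ) : iter f n none = none := by
  induction n with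
  | zero => rfl
  | succ n ih =>
    unfold iter at ih ⊢
    rw [iterate_succ_apply]
    exact ih

theorem iter_succ {C : Type} (f : C → Option C) (n : ℕ) (a : C) :
    iter f (n + 1) (some a) = iter f n (f a) := by
  unfold iter
  rw [iterate_succ_apply]
  rfl

theorem iter_add {C : Type} (f : C → Option C) (m n : ℕ) (a : Option C) :
    iter f (m + n) a = iter f n (iter f m a) := by
  unfold iter
  rw [Nat.add_comm, iterate_add_apply]

variable (M₁ M₂ : TM2ComputableAux Bool Bool)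

/-- the copying routine, first part: from the output of the first machine to the middle stack -/
def stA : Stmt (cΓ M₁.tm.Γ M₂.tm.Γ) (M₁.tm.Λ ⊕ (Bool ⊕ M₂.tm.Λ)) (M₁.tm.σ × Option Bool × M₂.tm.σ) :=
  .pop (.inl M₁.tm.k₁) (fun v s => (v.1, s.map M₁.outputAlphabet, v.2.2))
    (.branch (fun v => v.2.1.isSome)
      (.push (.inr (.inl ())) (fun v => v.2.1.getD false)
        (.load (fun v => (v.1, none, v.2.2)) (.goto (fun _ => .inr (.inl false)))))
      (.goto (fun _ => .inr (.inl true))))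

/-- the copying routine, second part: from the middle stack to the input of the second machine -/
def stB : Stmt (cΓ M₁.tm.Γ M₂.tm.Γ) (M₁.tm.Λ ⊕ (Bool ⊕ M₂.tm.Λ)) (M₁.tm.σ × Option Bool × M₂.tm.σ) :=
  .pop (.inr (.inl ())) (fun v s => (v.1, s, v.2.2))
    (.branch (fun v => v.2.1.isSome)
      (.push (.inr (.inr M₂.tm.k₀)) (fun v => M₂.inputAlphabet.symm (v.2.1.getD false))
        (.load (fun v => (v.1, none, v.2.2)) (.goto (fun _ => .inr (.inl true)))))
      (.goto (fun _ => .inr (.inr M₂.tm.main))))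

/-- the program of the composed machine -/
def cm : M₁.tm.Λ ⊕ (Bool ⊕ M₂.tm.Λ) →
    Stmt (cΓ M₁.tm.Γ M₂.tm.Γ) (M₁.tm.Λ ⊕ (Bool ⊕ M₂.tm.Λ)) (M₁.tm.σ × Option Bool × M₂.tm.σ)
  | .inl l => tr₁ _ _ _ (M₁.tm.m l)
  | .inr (.inl false) => stA M₁ M₂
  | .inr (.inl true) => stB M₁ M₂
  | .inr (.inr l) => tr₂ _ _ _ (M₂.tm.m l)

/-- the composed machine -/
def ctm : FinTM2 where
  K := M₁.tm.K ⊕ (Unit ⊕ M₂.tm.K)
  kDecidableEq := inferInstance
  kFin := @instFintypeSum _ _ M₁.tm.kFin (@instFintypeSum _ _ _ M₂.tm.kFin)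
  k₀ := .inl M₁.tm.k₀
  k₁ := .inr (.inr M₂.tm.k₁)
  Γ := cΓ M₁.tm.Γ M₂.tm.Γ
  Λ := M₁.tm.Λ ⊕ (Bool ⊕ M₂.tm.Λ)
  main := .inl M₁.tm.main
  ΛFin := @instFintypeSum _ _ M₁.tm.ΛFin (@instFintypeSum _ _ _ M₂.tm.ΛFin)
  σ := M₁.tm.σ × Option Bool × M₂.tm.σ
  initialState := (M₁.tm.initialState, none, M₂.tm.initialState)
  σFin := @instFintypeProd _ _ M₁.tm.σFin (@instFintypeProd _ _ _ M₂.tm.σFin)
  Γk₀Fin := M₁.tm.Γk₀Fin
  m := cm M₁ M₂

/-- the composed machine with its alphabets -/
def comp : TM2ComputableAux Bool Bool where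
  tm := ctm M₁ M₂
  inputAlphabet := M₁.inputAlphabet
  outputAlphabet := M₂.outputAlphabet

variable {M₁ M₂}

theorem iter_emb₁ (r : Option Bool) (w : M₂.tm.σ) (T : List Bool) (S₂ : ∀ k, List (M₂.tm.Γ k))
    {n : ℕ} {c c' : Cfg M₁.tm.Γ M₁.tm.Λ M₁.tm.σ}
    (h : iter (step M₁.tm.m) n (some c) = some c') :
    iter (step (cm M₁ M₂)) n (some (emb₁ c r w T S₂ M₂.tm.Λ))
      = some (emb₁ c' r w T S₂ M₂.tm.Λ) := by
  induction n generalizing c with
  | zero =>
    have : c = c' := by simpa [iter] using h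
    rw [this]
    rfl
  | succ n ih =>
    rw [iter_succ] at h ⊢
    obtain ⟨l, v, S⟩ := c
    cases l with
    | none =>
      have : step M₁.tm.m ⟨none, v, S⟩ = none := rfl
      rw [this, iter_none] at h
      simp at h
    | some l =>
      have e1 : step M₁.tm.m ⟨some l, v, S⟩ = some (stepAux (M₁.tm.m l) v S) := rfl
      rw [e1] at h
      have e2 : step (cm M₁ M₂) (emb₁ (Γ₂ := M₂.tm.Γ) ⟨some l, v, S⟩ r w T S₂ M₂.tm.Λ)
          = some (stepAux (tr₁ M₂.tm.Γ M₂.tm.Λ M₂.tm.σ (M₁.tm.m l)) (v, r, w) (cS S T S₂)) := rfl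
      rw [e2, stepAux_tr₁]
      exact ih h

theorem iter_emb₂ (r : Option Bool) (v : M₁.tm.σ) (T : List Bool) (S₁ : ∀ k, List (M₁.tm.Γ k))
    {n : ℕ} {c c' : Cfg M₂.tm.Γ M₂.tm.Λ M₂.tm.σ}
    (h : iter (step M₂.tm.m) n (some c) = some c') :
    iter (step (cm M₁ M₂)) n (some (emb₂ c r v T S₁ M₁.tm.Λ))
      = some (emb₂ c' r v T S₁ M₁.tm.Λ) := by
  induction n generalizing c with
  | zero =>
    have : c = c' := by simpa [iter] using h
    rw [this]
    rfl
  | succ n ih =>
    rw [iter_succ] at h ⊢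
    obtain ⟨l, w, S⟩ := c
    cases l with
    | none =>
      have : step M₂.tm.m ⟨none, w, S⟩ = none := rfl
      rw [this, iter_none] at h
      simp at h
    | some l =>
      have e1 : step M₂.tm.m ⟨some l, w, S⟩ = some (stepAux (M₂.tm.m l) w S) := rfl
      rw [e1] at h
      have e2 : step (cm M₁ M₂) (emb₂ (Γ₁ := M₁.tm.Γ) ⟨some l, w, S⟩ r v T S₁ M₁.tm.Λ)
          = some (stepAux (tr₂ M₁.tm.Γ M₁.tm.Λ M₁.tm.σ (M₂.tm.m l)) (v, r, w) (cS S₁ T S)) := rfl
      rw [e2, stepAux_tr₂]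
      exact ih h

theorem iter_A (v : M₁.tm.σ) (w : M₂.tm.σ) (S₂ : ∀ k, List (M₂.tm.Γ k))
    (xs : List (M₁.tm.Γ M₁.tm.k₁)) (S₁ : ∀ k, List (M₁.tm.Γ k)) (T : List Bool)
    (h : S₁ M₁.tm.k₁ = xs) :
    iter (step (cm M₁ M₂)) (xs.length + 1)
      (some ⟨some (.inr (.inl false)), (v, none, w), cS S₁ T S₂⟩)
      = some ⟨some (.inr (.inl true)), (v, none, w),
          cS (update S₁ M₁.tm.k₁ []) ((xs.map M₁.outputAlphabet).reverse ++ T) S₂⟩ := by
  induction xs generalizing S₁ T with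
  | nil =>
    rw [List.length_nil, iter_succ]
    have e : step (cm M₁ M₂) ⟨some (.inr (.inl false)), (v, none, w), cS S₁ T S₂⟩
        = some (stepAux (stA M₁ M₂) (v, none, w) (cS S₁ T S₂)) := rfl
    rw [e]
    unfold stA
    simp only [stepAux]
    have e1 : cS S₁ T S₂ (.inl M₁.tm.k₁) = [] := h
    rw [e1]
    simp only [List.head?_nil, Option.map_none, Option.isSome_none, cond_false, List.tail_nil]
    rw [update_cS_inl]
    rfl
  | cons x xs ih =>
    rw [List.length_cons, iter_succ]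
    have e : step (cm M₁ M₂) ⟨some (.inr (.inl false)), (v, none, w), cS S₁ T S₂⟩
        = some (stepAux (stA M₁ M₂) (v, none, w) (cS S₁ T S₂)) := rfl
    rw [e]
    unfold stA
    simp only [stepAux]
    have e1 : cS S₁ T S₂ (.inl M₁.tm.k₁) = x :: xs := h
    rw [e1]
    simp only [List.head?_cons, Option.map_some, Option.isSome_some, cond_true, List.tail_cons]
    rw [update_cS_inl]
    have e2 : cS (update S₁ M₁.tm.k₁ xs) T S₂ (.inr (.inl ())) = T := rfl
    rw [e2, update_cS_mid]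
    have := ih (update S₁ M₁.tm.k₁ xs) (M₁.outputAlphabet x :: T) (update_self _ _ _)
    rw [update_idem] at this
    simp only [List.map_cons, List.reverse_cons, List.append_assoc, List.singleton_append]
    exact this

theorem iter_B (v : M₁.tm.σ) (w : M₂.tm.σ) (S₁ : ∀ k, List (M₁.tm.Γ k))
    (ys : List Bool) (S₂ : ∀ k, List (M₂.tm.Γ k)) :
    iter (step (cm M₁ M₂)) (ys.length + 1)
      (some ⟨some (.inr (.inl true)), (v, none, w), cS S₁ ys S₂⟩)
      = some ⟨some (.inr (.inr M₂.tm.main)), (v, none, w),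
          cS S₁ [] (update S₂ M₂.tm.k₀
            ((ys.map M₂.inputAlphabet.symm).reverse ++ S₂ M₂.tm.k₀))⟩ := by
  induction ys generalizing S₂ with
  | nil =>
    rw [List.length_nil, iter_succ]
    have e : step (cm M₁ M₂) ⟨some (.inr (.inl true)), (v, none, w), cS S₁ [] S₂⟩
        = some (stepAux (stB M₁ M₂) (v, none, w) (cS S₁ [] S₂)) := rfl
    rw [e]
    unfold stB
    simp only [stepAux]
    have e1 : cS S₁ [] S₂ (.inr (.inl ())) = [] := rfl
    rw [e1]
    simp only [List.head?_nil, Option.isSome_none, cond_false, List.tail_nil]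
    rw [update_cS_mid]
    simp only [List.map_nil, List.reverse_nil, List.nil_append, update_eq_self]
    rfl
  | cons y ys ih =>
    rw [List.length_cons, iter_succ]
    have e : step (cm M₁ M₂) ⟨some (.inr (.inl true)), (v, none, w), cS S₁ (y :: ys) S₂⟩
        = some (stepAux (stB M₁ M₂) (v, none, w) (cS S₁ (y :: ys) S₂)) := rfl
    rw [e]
    unfold stB
    simp only [stepAux]
    have e1 : cS S₁ (y :: ys) S₂ (.inr (.inl ())) = y :: ys := rfl
    rw [e1]
    simp only [List.head?_cons, Option.isSome_some, cond_true, List.tail_cons]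
    rw [update_cS_mid]
    have e2 : cS S₁ ys S₂ (.inr (.inr M₂.tm.k₀)) = S₂ M₂.tm.k₀ := rfl
    rw [e2, update_cS_inr]
    have := ih (update S₂ M₂.tm.k₀ (M₂.inputAlphabet.symm y :: S₂ M₂.tm.k₀))
    rw [update_self, update_idem] at this
    simp only [List.map_cons, List.reverse_cons, List.append_assoc, List.singleton_append]
    exact this

/-- stacks with one non-empty stack -/
def single {K : Type} [DecidableEq K] {Γ : K → Type} (k : K) (x : List (Γ k)) :
    ∀ k, List (Γ k) := update (fun _ => []) k x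

theorem initList_eq (tm : FinTM2) (x : List (tm.Γ tm.k₀)) :
    initList tm x = (⟨some tm.main, tm.initialState, single tm.k₀ x⟩ : Cfg tm.Γ tm.Λ tm.σ) := by
  unfold initList single
  congr 1
  funext k
  by_cases hk : k = tm.k₀
  · refine Eq.trans (dif_pos hk) ?_
    cases hk
    exact (update_self tm.k₀ x (fun _ => [])).symm
  · exact Eq.trans (dif_neg hk) (update_of_ne hk x (fun _ => [])).symm

theorem haltList_eq (tm : FinTM2) (x : List (tm.Γ tm.k₁)) :
    haltList tm x = (⟨none, tm.initialState, single tm.k₁ x⟩ : Cfg tm.Γ tm.Λ tm.σ) := by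
  unfold haltList single
  congr 1
  funext k
  by_cases hk : k = tm.k₁
  · refine Eq.trans (dif_pos hk) ?_
    cases hk
    exact (update_self tm.k₁ x (fun _ => [])).symm
  · exact Eq.trans (dif_neg hk) (update_of_ne hk x (fun _ => [])).symm

theorem iter_of_outputs {M : TM2ComputableAux Bool Bool} {x y : List Bool} {m : ℕ}
    (h : TM2OutputsInTime M.tm (x.map M.inputAlphabet.invFun)
      (some (y.map M.outputAlphabet.invFun)) m) :
    ∃ n ≤ m, iter (step M.tm.m) n (some ⟨some M.tm.main, M.tm.initialState,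
      single M.tm.k₀ (x.map M.inputAlphabet.invFun)⟩)
      = some ⟨none, M.tm.initialState, single M.tm.k₁ (y.map M.outputAlphabet.invFun)⟩ := by
  obtain ⟨⟨n, h1⟩, hle⟩ := h
  refine ⟨n, hle, ?_⟩
  rw [initList_eq] at h1
  have h2 : Option.map (haltList M.tm) (some (y.map M.outputAlphabet.invFun))
      = some (haltList M.tm (y.map M.outputAlphabet.invFun)) := rfl
  rw [h2, haltList_eq] at h1
  exact h1

theorem outputs_of_iter {M : TM2ComputableAux Bool Bool} {x y : List Bool} {n m : ℕ}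
    (hnm : n ≤ m) (h : iter (step M.tm.m) n (some ⟨some M.tm.main, M.tm.initialState,
      single M.tm.k₀ (x.map M.inputAlphabet.invFun)⟩)
      = some ⟨none, M.tm.initialState, single M.tm.k₁ (y.map M.outputAlphabet.invFun)⟩) :
    Nonempty (TM2OutputsInTime M.tm (x.map M.inputAlphabet.invFun)
      (some (y.map M.outputAlphabet.invFun)) m) := by
  refine ⟨⟨⟨n, ?_⟩, hnm⟩⟩
  rw [initList_eq]
  have h2 : Option.map (haltList M.tm) (some (y.map M.outputAlphabet.invFun))
      = some (haltList M.tm (y.map M.outputAlphabet.invFun)) := rfl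
  rw [h2, haltList_eq]
  exact h

theorem single_cS_inl {K₁ K₂ : Type} [DecidableEq K₁] [DecidableEq K₂] {Γ₁ : K₁ → Type}
    {Γ₂ : K₂ → Type} (k : K₁) (x : List (Γ₁ k)) :
    single (Γ := cΓ Γ₁ Γ₂) (.inl k) x = cS (single k x) [] (fun _ => []) := by
  unfold single
  rw [← update_cS_inl]
  congr 1
  funext j
  rcases j with j | _ | j <;> rfl

theorem single_cS_inr {K₁ K₂ : Type} [DecidableEq K₁] [DecidableEq K₂] {Γ₁ : K₁ → Type}
    {Γ₂ : K₂ → Type} (k : K₂) (x : List (Γ₂ k)) :
    single (Γ := cΓ Γ₁ Γ₂) (.inr (.inr k)) x = cS (fun _ => []) [] (single k x) := by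
  unfold single
  rw [← update_cS_inr]
  congr 1
  funext j
  rcases j with j | _ | j <;> rfl

/-- The composed machine works. -/
theorem comp_outputs {x y z : List Bool} {m₁ m₂ : ℕ}
    (h₁ : Nonempty (TM2OutputsInTime M₁.tm (x.map M₁.inputAlphabet.invFun)
      (some (y.map M₁.outputAlphabet.invFun)) m₁))
    (h₂ : Nonempty (TM2OutputsInTime M₂.tm (y.map M₂.inputAlphabet.invFun)
      (some (z.map M₂.outputAlphabet.invFun)) m₂)) {m : ℕ}
    (hm : m₁ + (2 * y.length + 2) + m₂ ≤ m) :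
    Nonempty (TM2OutputsInTime (comp M₁ M₂).tm (x.map (comp M₁ M₂).inputAlphabet.invFun)
      (some (z.map (comp M₁ M₂).outputAlphabet.invFun)) m) := by
  obtain ⟨h₁⟩ := h₁
  obtain ⟨h₂⟩ := h₂
  obtain ⟨n₁, hn₁, e₁⟩ := iter_of_outputs h₁
  obtain ⟨n₂, hn₂, e₂⟩ := iter_of_outputs h₂
  refine outputs_of_iter (n := n₁ + ((y.length + 1) + ((y.length + 1) + n₂))) (by omega) ?_
  have a₁ := iter_emb₁ (M₂ := M₂) none M₂.tm.initialState [] (fun _ => []) e₁
  have a₂ := iter_A (M₁ := M₁) (M₂ := M₂) M₁.tm.initialState M₂.tm.initialState (fun _ => [])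
    (y.map M₁.outputAlphabet.invFun) (single M₁.tm.k₁ (y.map M₁.outputAlphabet.invFun)) []
    (update_self _ _ _)
  have a₃ := iter_B (M₁ := M₁) (M₂ := M₂) M₁.tm.initialState M₂.tm.initialState (fun _ => [])
    y.reverse (fun _ => [])
  have a₄ := iter_emb₂ (M₁ := M₁) none M₁.tm.initialState [] (fun _ => []) e₂
  have c₁ : update (single (Γ := M₁.tm.Γ) M₁.tm.k₁ (y.map M₁.outputAlphabet.invFun)) M₁.tm.k₁ []
      = fun _ => [] := by
    unfold single
    rw [update_idem]
    exact update_eq_self _ _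
  have c₂ : ((y.map M₁.outputAlphabet.invFun).map M₁.outputAlphabet).reverse ++ []
      = y.reverse := by
    rw [List.append_nil, List.map_map]
    congr 1
    have : (M₁.outputAlphabet ∘ M₁.outputAlphabet.invFun) = id := by
      funext b
      exact M₁.outputAlphabet.apply_symm_apply b
    rw [this, List.map_id]
  have c₃ : (y.reverse.map M₂.inputAlphabet.symm).reverse ++ []
      = y.map M₂.inputAlphabet.invFun := by
    rw [List.append_nil, ← List.map_reverse, List.reverse_reverse]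
    rfl
  rw [c₁, c₂] at a₂
  rw [c₃] at a₃
  rw [List.length_map] at a₂
  rw [List.length_reverse] at a₃
  have b₁ : iter (step (cm M₁ M₂)) n₁
      (some ⟨some (.inl M₁.tm.main), (M₁.tm.initialState, none, M₂.tm.initialState),
        single (.inl M₁.tm.k₀) (x.map M₁.inputAlphabet.invFun)⟩)
      = some ⟨some (.inr (.inl false)), (M₁.tm.initialState, none, M₂.tm.initialState),
        cS (single M₁.tm.k₁ (y.map M₁.outputAlphabet.invFun)) [] (fun _ => [])⟩ := by
    rw [single_cS_inl]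
    exact a₁
  have b₄ : iter (step (cm M₁ M₂)) n₂
      (some ⟨some (.inr (.inr M₂.tm.main)), (M₁.tm.initialState, none, M₂.tm.initialState),
        cS (fun _ => []) [] (single M₂.tm.k₀ (y.map M₂.inputAlphabet.invFun))⟩)
      = some ⟨none, (M₁.tm.initialState, none, M₂.tm.initialState),
        single (.inr (.inr M₂.tm.k₁)) (z.map M₂.outputAlphabet.invFun)⟩ := by
    rw [single_cS_inr]
    exact a₄
  have key : iter (step (cm M₁ M₂)) (n₁ + ((y.length + 1) + ((y.length + 1) + n₂)))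
      (some ⟨some (.inl M₁.tm.main), (M₁.tm.initialState, none, M₂.tm.initialState),
        single (.inl M₁.tm.k₀) (x.map M₁.inputAlphabet.invFun)⟩)
      = some ⟨none, (M₁.tm.initialState, none, M₂.tm.initialState),
        single (.inr (.inr M₂.tm.k₁)) (z.map M₂.outputAlphabet.invFun)⟩ := by
    rw [iter_add, iter_add, iter_add, b₁, a₂, a₃]
    exact b₄
  exact key

/-! ### The length of the output -/

/-- the number of push instructions in a statement -/
def pushes {K : Type} {Γ : K → Type} {Λ σ : Type} : Stmt Γ Λ σ → ℕ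
  | .push _ _ q => pushes q + 1
  | .peek _ _ q => pushes q
  | .pop _ _ q => pushes q
  | .load _ q => pushes q
  | .branch _ q₁ q₂ => pushes q₁ + pushes q₂
  | .goto _ => 0
  | .halt => 0

theorem length_stepAux {K : Type} [DecidableEq K] {Γ : K → Type} {Λ σ : Type}
    (q : Stmt Γ Λ σ) (v : σ) (S : ∀ k, List (Γ k)) (B : ℕ) (hS : ∀ k, (S k).length ≤ B) (k : K) :
    ((stepAux q v S).stk k).length ≤ B + pushes q := by
  induction q generalizing v S B with
  | push j f q ih =>
    simp only [stepAux, pushes]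
    have := ih v (update S j (f v :: S j)) (B + 1) (by
      intro i
      by_cases h : i = j
      · subst h
        rw [update_self]
        have := hS i
        simp; omega
      · rw [update_of_ne h]
        have := hS i
        omega)
    omega
  | peek j f q ih =>
    simp only [stepAux, pushes]
    exact ih _ S B hS
  | pop j f q ih =>
    simp only [stepAux, pushes]
    refine ih _ _ B ?_
    intro i
    by_cases h : i = j
    · subst h
      rw [update_self]
      have := hS i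
      simp; omega
    · rw [update_of_ne h]
      exact hS i
  | load a q ih =>
    simp only [stepAux, pushes]
    exact ih _ S B hS
  | branch f q₁ q₂ ih₁ ih₂ =>
    simp only [stepAux, pushes]
    cases f v
    · have := ih₂ v S B hS
      simp only [cond_false]
      omega
    · have := ih₁ v S B hS
      simp only [cond_true]
      omega
  | goto f => simpa [stepAux, pushes] using hS k
  | halt => simpa [stepAux, pushes] using hS k

theorem length_iter {K : Type} [DecidableEq K] {Γ : K → Type} {Λ σ : Type}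
    (m : Λ → Stmt Γ Λ σ) (C : ℕ) (hC : ∀ l, pushes (m l) ≤ C) (n : ℕ) (c c' : Cfg Γ Λ σ)
    (h : iter (step m) n (some c) = some c') (B : ℕ) (hS : ∀ k, (c.stk k).length ≤ B) (k : K) :
    (c'.stk k).length ≤ B + C * n := by
  induction n generalizing c B with
  | zero =>
    have : c = c' := by simpa [iter] using h
    rw [← this]
    simpa using hS k
  | succ n ih =>
    rw [iter_succ] at h
    obtain ⟨l, v, S⟩ := c
    cases l with
    | none =>
      have : step m ⟨none, v, S⟩ = none := rfl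
      rw [this, iter_none] at h
      simp at h
    | some l =>
      have e1 : step m ⟨some l, v, S⟩ = some (stepAux (m l) v S) := rfl
      rw [e1] at h
      have := ih _ h (B + C) (fun k => by
        have h1 := length_stepAux (m l) v S B hS k
        have h2 := hC l
        omega)
      have e : C * (n + 1) = C * n + C := by ring
      omega

/-- The output of a machine is at most linearly longer than the input and the running time. -/
theorem exists_length_bound (M : TM2ComputableAux Bool Bool) :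
    ∃ C : ℕ, ∀ (x y : List Bool) (m : ℕ),
      Nonempty (TM2OutputsInTime M.tm (x.map M.inputAlphabet.invFun)
        (some (y.map M.outputAlphabet.invFun)) m) → y.length ≤ x.length + C * m := by
  have := M.tm.ΛFin
  refine ⟨∑ l : M.tm.Λ, pushes (M.tm.m l), ?_⟩
  rintro x y m ⟨h⟩
  obtain ⟨n, hn, e⟩ := iter_of_outputs h
  have h1 := length_iter M.tm.m (∑ l : M.tm.Λ, pushes (M.tm.m l))
    (fun l => Finset.single_le_sum (f := fun l => pushes (M.tm.m l)) (fun _ _ => Nat.zero_le _)
      (Finset.mem_univ l)) n _ _ e x.length (by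
      intro k
      simp only
      unfold single
      by_cases hk : k = M.tm.k₀
      · subst hk
        rw [update_self]
        simp
      · rw [update_of_ne hk]
        simp) M.tm.k₁
  simp only at h1
  unfold single at h1
  rw [update_self, List.length_map] at h1
  have := Nat.mul_le_mul_left (∑ l : M.tm.Λ, pushes (M.tm.m l)) hn
  omega

end TMComp

end Pool.Agent.Lib.MP_e74eef_lc
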