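import Pool.Agent.Lib.MP_e74eef_lc.Defs
import Pool.Agent.Lib.MP_e74eef_lc.TMComp

/-!
# Properties of fpt-reductions
-/

namespace Pool.Agent.Lib.MP_e74eef_lc

/-- a polynomial is bounded by `C * (n + 1) ^ c` -/
theorem poly_bound (P : Polynomial ℕ) : ∃ C c : ℕ, ∀ n, P.eval n ≤ C * (n + 1) ^ c := by
  induction P using Polynomial.induction_on' with
  | add p q hp hq =>
    obtain ⟨C₁, c₁, h₁⟩ := hp
    obtain ⟨C₂, c₂, h₂⟩ := hq
    refine ⟨C₁ + C₂, c₁ + c₂, fun n => ?_⟩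
    rw [Polynomial.eval_add]
    have e₁ : (n + 1) ^ c₁ ≤ (n + 1) ^ (c₁ + c₂) := Nat.pow_le_pow_right (by omega) (by omega)
    have e₂ : (n + 1) ^ c₂ ≤ (n + 1) ^ (c₁ + c₂) := Nat.pow_le_pow_right (by omega) (by omega)
    calc Polynomial.eval n p + Polynomial.eval n q
        ≤ C₁ * (n + 1) ^ c₁ + C₂ * (n + 1) ^ c₂ := Nat.add_le_add (h₁ n) (h₂ n)
      _ ≤ C₁ * (n + 1) ^ (c₁ + c₂) + C₂ * (n + 1) ^ (c₁ + c₂) :=
        Nat.add_le_add (Nat.mul_le_mul_left _ e₁) (Nat.mul_le_mul_left _ e₂)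
      _ = (C₁ + C₂) * (n + 1) ^ (c₁ + c₂) := by ring
  | monomial k a =>
    refine ⟨a, k, fun n => ?_⟩
    rw [Polynomial.eval_monomial]
    exact Nat.mul_le_mul_left _ (Nat.pow_le_pow_left (by omega) _)

/-- Reductions computable in polynomial time, with a computable bound for the parameter, are
fpt-reductions. -/
theorem FptReducible.of_poly {P Q : ParamProblem} (f : P.Inst → Q.Inst)
    (hM : Nonempty (Turing.TM2ComputableInPolyTime P.code Q.code f)) (h : ℕ → ℕ)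
    (hh : Computable h) (hYes : ∀ x, P.Yes x ↔ Q.Yes (f x))
    (hpar : ∀ x, Q.param (f x) ≤ h (P.param x)) : FptReducible P Q := by
  obtain ⟨M⟩ := hM
  obtain ⟨C, c, hC⟩ := poly_bound M.time
  refine ⟨f, M.toTM2ComputableAux, fun _ => C, h, c, Computable.const C, hh, hYes, hpar, ?_⟩
  intro x
  have := M.outputsFun x
  exact ⟨⟨this.toEvalsTo, this.steps_le_m.trans (hC _)⟩⟩

/-! ### Computable bounds -/

theorem computable_add {f g : ℕ → ℕ} (hf : Computable f) (hg : Computable g) :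
    Computable (fun n => f n + g n) :=
  (Primrec₂.to_comp Primrec.nat_add).comp hf hg

theorem computable_mul {f g : ℕ → ℕ} (hf : Computable f) (hg : Computable g) :
    Computable (fun n => f n * g n) :=
  (Primrec₂.to_comp Primrec.nat_mul).comp hf hg

theorem computable_pow {f : ℕ → ℕ} (hf : Computable f) (c : ℕ) :
    Computable (fun n => f n ^ c) := by
  induction c with
  | zero => exact (Computable.const 1).of_eq fun n => by simp
  | succ c ih => exact (computable_mul ih hf).of_eq fun n => by rw [pow_succ]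

/-- a monotone majorant -/
def maj (g : ℕ → ℕ) (n : ℕ) : ℕ := Nat.rec (g 0) (fun i r => r + g (i + 1)) n

theorem maj_succ (g : ℕ → ℕ) (n : ℕ) : maj g (n + 1) = maj g n + g (n + 1) := rfl

theorem le_maj (g : ℕ → ℕ) (n : ℕ) : g n ≤ maj g n := by
  cases n with
  | zero => exact le_rfl
  | succ n => rw [maj_succ]; omega

theorem maj_mono (g : ℕ → ℕ) : Monotone (maj g) := by
  apply monotone_nat_of_le_succ
  intro n
  rw [maj_succ]; omega

theorem computable_maj {g : ℕ → ℕ} (hg : Computable g) : Computable (maj g) := by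
  have h1 : Computable₂ (fun (_ : ℕ) (p : ℕ × ℕ) => p.2 + g (p.1 + 1)) := by
    have h2 : Computable (fun q : ℕ × (ℕ × ℕ) => q.2.2) := Computable.snd.comp Computable.snd
    have h3 : Computable (fun q : ℕ × (ℕ × ℕ) => g (q.2.1 + 1)) :=
      hg.comp (Computable.succ.comp (Computable.fst.comp Computable.snd))
    exact (Primrec₂.to_comp Primrec.nat_add).comp h2 h3
  exact (Computable.nat_rec (f := fun n : ℕ => n) (g := fun _ => g 0)
    (h := fun _ p => p.2 + g (p.1 + 1)) Computable.id (Computable.const _) h1)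

/-! ### Transitivity -/

theorem FptReducible.trans {P Q R : ParamProblem} (h₁ : FptReducible P Q)
    (h₂ : FptReducible Q R) : FptReducible P R := by
  obtain ⟨f₁, M₁, g₁, r₁, c₁, hg₁, hr₁, hy₁, hp₁, ho₁⟩ := h₁
  obtain ⟨f₂, M₂, g₂, r₂, c₂, hg₂, hr₂, hy₂, hp₂, ho₂⟩ := h₂
  obtain ⟨C, hC⟩ := TMComp.exists_length_bound M₁
  refine ⟨fun x => f₂ (f₁ x), TMComp.comp M₁ M₂,
    fun k => g₁ k + 2 * (1 + C * g₁ k) + maj g₂ (r₁ k) * (1 + C * g₁ k) ^ c₂,
    fun k => maj r₂ (r₁ k), c₁ + 1 + (c₁ + 1) * c₂, ?_, ?_, ?_, ?_, ?_⟩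
  · have h3 : Computable (fun k => 1 + C * g₁ k) :=
      computable_add (Computable.const 1) (computable_mul (Computable.const C) hg₁)
    exact computable_add (computable_add hg₁ (computable_mul (Computable.const 2) h3))
      (computable_mul ((computable_maj hg₂).comp hr₁) (computable_pow h3 c₂))
  · exact (computable_maj hr₂).comp hr₁
  · intro x
    rw [hy₁ x, hy₂ (f₁ x)]
  · intro x
    exact (hp₂ (f₁ x)).trans ((le_maj r₂ _).trans (maj_mono r₂ (hp₁ x)))
  · intro x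
    apply TMComp.comp_outputs (ho₁ x) (ho₂ (f₁ x))
    have hlen := hC _ _ _ (ho₁ x)
    set k := P.param x with hk
    set n := (P.code x).length + 1 with hn
    set y := (Q.code (f₁ x)).length with hy
    set G := g₂ (Q.param (f₁ x)) with hG
    have hGle : G ≤ maj g₂ (r₁ k) := (le_maj g₂ _).trans (maj_mono g₂ (hp₁ x))
    have hn1 : 1 ≤ n := by omega
    set A := 1 + C * g₁ k with hA
    have p1 : n ≤ n ^ (c₁ + 1) := Nat.le_self_pow (by omega) n
    have p2 : n ^ c₁ ≤ n ^ (c₁ + 1) := Nat.pow_le_pow_right hn1 (by omega)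
    have hy1 : y + 1 ≤ A * n ^ (c₁ + 1) := by
      calc y + 1 ≤ n + C * (g₁ k * n ^ c₁) := by omega
        _ = n + C * g₁ k * n ^ c₁ := by ring
        _ ≤ n ^ (c₁ + 1) + C * g₁ k * n ^ (c₁ + 1) :=
          Nat.add_le_add p1 (Nat.mul_le_mul_left _ p2)
        _ = A * n ^ (c₁ + 1) := by rw [hA]; ring
    set E := c₁ + 1 + (c₁ + 1) * c₂ with hE
    have q1 : n ^ c₁ ≤ n ^ E := Nat.pow_le_pow_right hn1 (by omega)
    have q2 : n ^ (c₁ + 1) ≤ n ^ E := Nat.pow_le_pow_right hn1 (by omega)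
    have q3 : n ^ ((c₁ + 1) * c₂) ≤ n ^ E := Nat.pow_le_pow_right hn1 (by omega)
    have s1 : g₁ k * n ^ c₁ ≤ g₁ k * n ^ E := Nat.mul_le_mul_left _ q1
    have s2 : 2 * y + 2 ≤ 2 * A * n ^ E := by
      calc 2 * y + 2 = 2 * (y + 1) := by ring
        _ ≤ 2 * (A * n ^ (c₁ + 1)) := Nat.mul_le_mul_left _ hy1
        _ ≤ 2 * (A * n ^ E) := Nat.mul_le_mul_left _ (Nat.mul_le_mul_left _ q2)
        _ = 2 * A * n ^ E := by ring
    have s3 : G * (y + 1) ^ c₂ ≤ maj g₂ (r₁ k) * A ^ c₂ * n ^ E := by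
      calc G * (y + 1) ^ c₂ ≤ maj g₂ (r₁ k) * (A * n ^ (c₁ + 1)) ^ c₂ :=
            Nat.mul_le_mul hGle (Nat.pow_le_pow_left hy1 _)
        _ = maj g₂ (r₁ k) * A ^ c₂ * n ^ ((c₁ + 1) * c₂) := by
          rw [Nat.mul_pow, ← pow_mul]; ring
        _ ≤ maj g₂ (r₁ k) * A ^ c₂ * n ^ E := Nat.mul_le_mul_left _ q3
    calc g₁ k * n ^ c₁ + (2 * y + 2) + G * (y + 1) ^ c₂
        ≤ g₁ k * n ^ E + 2 * A * n ^ E + maj g₂ (r₁ k) * A ^ c₂ * n ^ E := by
          apply Nat.add_le_add (Nat.add_le_add s1 s2) s3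
      _ = (g₁ k + 2 * A + maj g₂ (r₁ k) * A ^ c₂) * n ^ E := by ring

end Pool.Agent.Lib.MP_e74eef_lc
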