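import Pool.Agent.Lib.MP_e74eef_lc.PolyRed
import Pool.Agent.Lib.MP_e74eef_lc.Fpt

/-!
# The reductions
-/

namespace Pool.Agent.Lib.MP_e74eef_lc

open Pool.Agent.PolyTime

/-! ### Codes -/

theorem codeNat_eq (n : ℕ) : codeNat n = (enc n).bits := by
  induction n with
  | zero => rfl
  | succ n ih => simp [codeNat, ih, Sx.bits]

theorem codeList_eq {α : Type} [SCode α] {c : α → List Bool} (hc : ∀ a, c a = (enc a).bits)
    (l : List α) : codeList c l = (enc l).bits := by
  induction l with
  | nil => rfl
  | cons a l ih => simp [codeList, ih, hc, Sx.bits]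

theorem codePair_eq {α β : Type} [SCode α] [SCode β] {c : α → List Bool} {d : β → List Bool}
    (hc : ∀ a, c a = (enc a).bits) (hd : ∀ b, d b = (enc b).bits) (p : α × β) :
    codePair c d p = (enc p).bits := by
  obtain ⟨a, b⟩ := p
  simp [codePair, hc, hd, Sx.bits]

theorem codeGraph_eq (x : (ℕ × List (ℕ × ℕ)) × ℕ) : codeGraph x = (enc x).bits :=
  codePair_eq (codePair_eq codeNat_eq (codeList_eq (codePair_eq codeNat_eq codeNat_eq)))
    codeNat_eq x

theorem code_elim (x : Board × ℕ) :
    codePair (codeList (codeList codeNat)) codeNat x = (enc x).bits :=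
  codePair_eq (codeList_eq (codeList_eq codeNat_eq)) codeNat_eq x

theorem code_score (x : (Board × ℕ) × ℕ) :
    codePair (codePair (codeList (codeList codeNat)) codeNat) codeNat x = (enc x).bits :=
  codePair_eq (codePair_eq (codeList_eq (codeList_eq codeNat_eq)) codeNat_eq) codeNat_eq x

/-! ### Boards without empty columns -/

theorem Click.ne_nil {b b' : Board} (h : Click b b') : ∀ col ∈ b', col ≠ [] := by
  obtain ⟨p, q, _, _, _, rfl⟩ := h
  intro col hc
  unfold remove at hc
  simpa using (List.mem_filter.1 hc).2

theorem Clicks.ne_nil {m : ℕ} {b b' : Board} (h : Clicks m b b') (hb : ∀ col ∈ b, col ≠ []) :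
    ∀ col ∈ b', col ≠ [] := by
  induction h with
  | zero => exact hb
  | succ hc _ ih => exact ih hc.ne_nil

theorem eq_nil_of_numTiles {b : Board} (hb : ∀ col ∈ b, col ≠ []) (h : numTiles b = 0) :
    b = [] := by
  rcases b with _ | ⟨col, b⟩
  · rfl
  · exfalso
    have h1 := List.length_pos_of_ne_nil (hb col (by simp))
    unfold numTiles at h
    rw [List.map_cons, List.sum_cons] at h
    omega

theorem canEmpty_iff {b : Board} (hb : ∀ col ∈ b, col ≠ []) (k : ℕ) :
    CanEmpty b k ↔ ∃ m ≤ k, Clicks m b [] := by
  constructor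
  · rintro ⟨m, hm, b', h, h0⟩
    rw [eq_nil_of_numTiles (h.ne_nil hb) h0] at h
    exact ⟨m, hm, h⟩
  · rintro ⟨m, hm, h⟩
    exact ⟨m, hm, [], h, rfl⟩

theorem canScore_iff {b : Board} (hb : 0 < numTiles b) (k : ℕ) :
    CanScore b k (numTiles b - 1) ↔ CanEmpty b k := by
  unfold CanScore CanEmpty
  constructor
  · rintro ⟨m, hm, b', h, h1⟩
    exact ⟨m, hm, b', h, by omega⟩
  · rintro ⟨m, hm, b', h, h1⟩
    exact ⟨m, hm, b', h, by omega⟩

/-! ### The board of the reduction -/

theorem outBoard_mem {x : GInst} {col : List ℕ} (h : col ∈ outBoard x) :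
    col ≠ [] ∧ ∀ a ∈ col, a < 5 := by
  unfold outBoard theBoard at h
  simp only at h
  rw [board_append, List.mem_append] at h
  rcases h with h | h
  · refine ⟨?_, fun a ha => ?_⟩
    · simp only [lftOf, if_true, List.singleton_append, List.mem_cons, List.not_mem_nil,
        or_false] at h
      rcases h with rfl | rfl
      · simp
      · simp
    · rcases lftOf_colors col h a ha with h1 | h1 <;> omega
  · rw [List.mem_map] at h
    obtain ⟨y, hy, rfl⟩ := h
    unfold main0 at hy
    rw [List.mem_map] at hy
    obtain ⟨j, _, rfl⟩ := hy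
    unfold mcol
    refine ⟨?_, fun a ha => ?_⟩
    · intro h0
      exact topInit_ne_nil _ (List.append_eq_nil_iff.1 h0).2
    · rw [List.mem_append] at ha
      rcases ha with ha | ha
      · rcases bars_colors _ _ a ha with h1 | h1 <;> omega
      · unfold topInit at ha
        simp only at ha
        split_ifs at ha
        · simp [List.mem_replicate] at ha
          omega
        · simp at ha
          omega

theorem numTiles_outBoard_pos (x : GInst) : 0 < numTiles (outBoard x) := by
  by_contra h
  have h1 := eq_nil_of_numTiles (fun col hc => (outBoard_mem hc).1) (show numTiles (outBoard x) = 0 by omega)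
  unfold outBoard theBoard at h1
  simp only at h1
  rw [board_append] at h1
  have h2 := (List.append_eq_nil_iff.1 h1).1
  simp [lftOf] at h2

/-- The two ways to speak about dominating sets. -/
theorem hasDomSet_iff (n : ℕ) (E : List (ℕ × ℕ)) (k : ℕ) :
    (∃ S : Finset (Fin n), S.card ≤ k ∧ ∀ u, u ∈ S ∨ ∃ v ∈ S, (graphOf n E).Adj u v) ↔
      HasDomSet n (adjOf E) k := by
  constructor
  · rintro ⟨S, hk, hS⟩
    refine ⟨S.map Fin.valEmbedding, by simpa using hk, ?_, ?_⟩
    · intro v hv
      rw [Finset.mem_map] at hv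
      obtain ⟨w, _, rfl⟩ := hv
      exact w.2
    · intro u hu
      rcases hS ⟨u, hu⟩ with h | ⟨v, hv, h⟩
      · refine ⟨u, ?_, Or.inl rfl⟩
        rw [Finset.mem_map]
        exact ⟨_, h, rfl⟩
      · refine ⟨v, ?_, Or.inr ?_⟩
        · rw [Finset.mem_map]
          exact ⟨_, hv, rfl⟩
        · unfold graphOf at h
          rw [SimpleGraph.fromRel_adj] at h
          exact h.2
  · rintro ⟨S, hk, hn, hS⟩
    refine ⟨S.attachFin hn, by simpa using hk, ?_⟩
    intro u
    obtain ⟨v, hv, h⟩ := hS u u.2
    by_cases huv : (u : ℕ) = v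
    · left
      rw [Finset.mem_attachFin, huv]
      exact hv
    · right
      refine ⟨⟨v, hn v hv⟩, by rw [Finset.mem_attachFin]; exact hv, ?_⟩
      unfold graphOf
      rw [SimpleGraph.fromRel_adj]
      refine ⟨?_, ?_⟩
      · intro h'
        exact huv (congrArg Fin.val h')
      · rcases h with h | h
        · exact absurd h huv
        · exact h

theorem outBoard_iff (x : GInst) :
    CanEmpty (outBoard x) (x.2 + 5) ↔ DominatingSet.Yes x := by
  rw [canEmpty_iff (fun col hc => (outBoard_mem hc).1)]
  change _ ↔ ∃ S : Finset (Fin x.1.1), S.card ≤ x.2 ∧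
    ∀ u, u ∈ S ∨ ∃ v ∈ S, (graphOf x.1.1 x.1.2).Adj u v
  rw [hasDomSet_iff]
  exact ⟨sound, complete⟩

/-! ### The reductions -/

/-- the reduction to the elimination variant -/
def toElim (x : DominatingSet.Inst) : Elimination.Inst := (outBoard x, Prod.snd (α := ℕ × List (ℕ × ℕ)) x + 5)

/-- the reduction to the score variant -/
def toScore (x : DominatingSet.Inst) : Score.Inst :=
  ((outBoard x, numTiles (outBoard x) - 1), Prod.snd (α := ℕ × List (ℕ × ℕ)) x + 5)

theorem tm_toElim :
    Nonempty (Turing.TM2ComputableInPolyTime DominatingSet.code Elimination.code toElim) := by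
  have h : PTime (fun x : GInst => (outBoard x, x.2 + 5)) :=
    PTime.pair ptime_outBoard (PTime.add PTime.snd (ptime_const 5))
  obtain ⟨M⟩ := h.exists_tm
  have e1 : DominatingSet.code = fun x : GInst => (enc x).bits := funext codeGraph_eq
  have e2 : Elimination.code = fun x : Board × ℕ => (enc x).bits := funext code_elim
  rw [e1, e2]
  exact ⟨M⟩

theorem tm_toScore :
    Nonempty (Turing.TM2ComputableInPolyTime DominatingSet.code Score.code toScore) := by
  have hnum : PTime (fun x : GInst => numTiles (outBoard x)) :=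
    (PTime.length (PTime.flatten ptime_outBoard)).of_eq fun x => by
      rw [List.length_flatten]
      rfl
  have h : PTime (fun x : GInst => ((outBoard x, numTiles (outBoard x) - 1), x.2 + 5)) :=
    PTime.pair (PTime.pair ptime_outBoard (PTime.pred hnum)) (PTime.add PTime.snd (ptime_const 5))
  obtain ⟨M⟩ := h.exists_tm
  have e1 : DominatingSet.code = fun x : GInst => (enc x).bits := funext codeGraph_eq
  have e2 : Score.code = fun x : (Board × ℕ) × ℕ => (enc x).bits := funext code_score
  rw [e1, e2]
  exact ⟨M⟩

theorem fpt_toElim : FptReducible DominatingSet Elimination :=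
  FptReducible.of_poly toElim tm_toElim (fun k => k + 5)
    (computable_add Computable.id (Computable.const 5)) (fun x => (outBoard_iff x).symm)
    (fun _ => le_rfl)

theorem fpt_toScore : FptReducible DominatingSet Score :=
  FptReducible.of_poly toScore tm_toScore (fun k => k + 5)
    (computable_add Computable.id (Computable.const 5))
    (fun x => ((canScore_iff (numTiles_outBoard_pos x) _).trans (outBoard_iff x)).symm)
    (fun _ => le_rfl)

end Pool.Agent.Lib.MP_e74eef_lc
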