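import Pool.Agent.Lib.MP_e74eef_lc.BoardLemmas

/-!
# The bars of the gadget

Every main column consists of bars `0, 1, 2, …, 2N-1` (bar `j` has colour `j % 2`) and of a top
part with colours `3` and `4`. The thickness of a bar depends on the type of the column.
-/

namespace Pool.Agent.Lib.MP_e74eef_lc

/-- thickness of bar `j` in a column of type `t` -/
def thick (δ : ℕ → ℕ → ℕ) (L t j : ℕ) : ℕ :=
  if j % 2 = 0 then L + δ t (j / 2) else L - δ t (j / 2)

/-- the tiles of the bars in the list `l` in a column of type `t` -/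
def bars (δ : ℕ → ℕ → ℕ) (L t : ℕ) (l : List ℕ) : List ℕ :=
  l.flatMap (fun j => List.replicate (thick δ L t j) (j % 2))

/-- total height of the bars in `l` in a column of type `t` -/
def ht (δ : ℕ → ℕ → ℕ) (L t : ℕ) (l : List ℕ) : ℕ := (l.map (thick δ L t)).sum

section
variable {δ : ℕ → ℕ → ℕ} {L : ℕ}

@[simp] theorem bars_nil (t : ℕ) : bars δ L t [] = [] := rfl
@[simp] theorem ht_nil (t : ℕ) : ht δ L t [] = 0 := rfl

theorem bars_append (t : ℕ) (x y : List ℕ) :
    bars δ L t (x ++ y) = bars δ L t x ++ bars δ L t y := by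
  simp [bars, List.flatMap_append]

theorem bars_cons (t j : ℕ) (y : List ℕ) :
    bars δ L t (j :: y) = List.replicate (thick δ L t j) (j % 2) ++ bars δ L t y := by
  simp [bars]

theorem ht_append (t : ℕ) (x y : List ℕ) :
    ht δ L t (x ++ y) = ht δ L t x + ht δ L t y := by
  simp [ht, List.sum_append]

theorem ht_cons (t j : ℕ) (y : List ℕ) :
    ht δ L t (j :: y) = thick δ L t j + ht δ L t y := by
  simp [ht]

theorem bars_length (t : ℕ) (l : List ℕ) : (bars δ L t l).length = ht δ L t l := by
  induction l with
  | nil => simp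
  | cons j l ih => rw [bars_cons, ht_cons, List.length_append, ih, List.length_replicate]

theorem bars_mono (t a : ℕ) (m : List ℕ) (hm : ∀ z ∈ m, z % 2 = a) :
    bars δ L t m = List.replicate (ht δ L t m) a := by
  induction m with
  | nil => simp
  | cons j m ih =>
    rw [bars_cons, ht_cons, ih (fun z hz => hm z (by simp [hz])), hm j (by simp),
      List.replicate_append_replicate]

theorem bars_colors (t : ℕ) (l : List ℕ) : ∀ x ∈ bars δ L t l, x = 0 ∨ x = 1 := by
  intro x hx
  simp only [bars, List.mem_flatMap, List.mem_replicate] at hx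
  obtain ⟨j, _, _, rfl⟩ := hx
  omega

/-- number of elements of `l` with even index and `δ = 1`, etc. -/
def evs (δ : ℕ → ℕ → ℕ) (t : ℕ) (l : List ℕ) : ℕ :=
  (l.map (fun j => if j % 2 = 0 then δ t (j / 2) else 0)).sum

def ods (δ : ℕ → ℕ → ℕ) (t : ℕ) (l : List ℕ) : ℕ :=
  (l.map (fun j => if j % 2 = 0 then 0 else δ t (j / 2))).sum

theorem ht_eq (hδ : ∀ t i, δ t i ≤ 1) (hL : 1 ≤ L) (t : ℕ) (l : List ℕ) :
    ht δ L t l + ods δ t l = L * l.length + evs δ t l := by
  induction l with
  | nil => simp [ht, ods, evs]
  | cons j l ih =>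
    have h1 := hδ t (j / 2)
    simp only [ht, ods, evs, List.map_cons, List.sum_cons, List.length_cons, thick] at ih ⊢
    split_ifs
    · have : L * (l.length + 1) = L * l.length + L := by ring
      omega
    · have : L * (l.length + 1) = L * l.length + L := by ring
      omega

theorem evs_le_countP (hδ : ∀ t i, δ t i ≤ 1) (t : ℕ) (l : List ℕ) :
    evs δ t l ≤ l.countP (fun j => j % 2 = 0) := by
  induction l with
  | nil => simp [evs]
  | cons j l ih =>
    have h1 := hδ t (j / 2)
    simp only [evs, List.map_cons, List.sum_cons, List.countP_cons] at ih ⊢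
    by_cases h : j % 2 = 0
    · simp only [h, if_true, decide_true]; omega
    · simp [h]; simpa using ih

theorem ods_le_countP (hδ : ∀ t i, δ t i ≤ 1) (t : ℕ) (l : List ℕ) :
    ods δ t l ≤ l.countP (fun j => j % 2 = 1) := by
  induction l with
  | nil => simp [ods]
  | cons j l ih =>
    have h1 := hδ t (j / 2)
    simp only [ods, List.map_cons, List.sum_cons, List.countP_cons] at ih ⊢
    by_cases h : j % 2 = 0
    · simp [h]; simpa using ih
    · have h' : j % 2 = 1 := by omega
      simp [h']
      omega

theorem countP_range_even (N : ℕ) : (List.range (2 * N)).countP (fun j => j % 2 = 0) = N := by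
  induction N with
  | zero => simp
  | succ n ih =>
    have : 2 * (n + 1) = 2 * n + 1 + 1 := by ring
    rw [this, List.range_succ, List.range_succ, List.countP_append, List.countP_append, ih]
    simp

theorem countP_range_odd (N : ℕ) : (List.range (2 * N)).countP (fun j => j % 2 = 1) = N := by
  induction N with
  | zero => simp
  | succ n ih =>
    have : 2 * (n + 1) = 2 * n + 1 + 1 := by ring
    rw [this, List.range_succ, List.range_succ, List.countP_append, List.countP_append, ih]
    simp

theorem evs_le (hδ : ∀ t i, δ t i ≤ 1) {N : ℕ} {l : List ℕ} (hl : l.Sublist (List.range (2 * N)))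
    (t : ℕ) : evs δ t l ≤ N :=
  (evs_le_countP hδ t l).trans ((hl.countP_le (p := fun j => j % 2 = 0)).trans
    (countP_range_even N).le)

theorem ods_le (hδ : ∀ t i, δ t i ≤ 1) {N : ℕ} {l : List ℕ} (hl : l.Sublist (List.range (2 * N)))
    (t : ℕ) : ods δ t l ≤ N :=
  (ods_le_countP hδ t l).trans ((hl.countP_le (p := fun j => j % 2 = 1)).trans
    (countP_range_odd N).le)

/-- all heights are `L * |l|` up to `N` -/
theorem ht_bounds (hδ : ∀ t i, δ t i ≤ 1) (hL : 1 ≤ L) {N : ℕ} {l : List ℕ}
    (hl : l.Sublist (List.range (2 * N))) (t : ℕ) :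
    ht δ L t l ≤ L * l.length + N ∧ L * l.length ≤ ht δ L t l + N := by
  have h1 := ht_eq hδ hL t l
  have h2 := evs_le hδ hl t
  have h3 := ods_le hδ hl t
  omega

theorem thick_ge (hδ : ∀ t i, δ t i ≤ 1) (t j : ℕ) : L ≤ thick δ L t j + 1 := by
  have := hδ t (j / 2)
  unfold thick
  split_ifs <;> omega

theorem ht_ge (hδ : ∀ t i, δ t i ≤ 1) (t : ℕ) {m : List ℕ} (hm : m ≠ []) :
    L ≤ ht δ L t m + 1 := by
  cases m with
  | nil => exact absurd rfl hm
  | cons j m =>
    rw [ht_cons]
    have := thick_ge (L := L) hδ t j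
    omega

/-- the colour at a height inside a monochromatic segment -/
theorem getElem?_seg (t a : ℕ) (x m w top : List ℕ) (hm : ∀ z ∈ m, z % 2 = a) {y : ℕ}
    (h1 : ht δ L t x ≤ y) (h2 : y < ht δ L t (x ++ m)) :
    (bars δ L t (x ++ m ++ w) ++ top)[y]? = some a := by
  rw [bars_append, bars_append, bars_mono t a m hm, List.append_assoc, List.append_assoc,
    List.getElem?_append_right (by rw [bars_length]; exact h1), List.getElem?_append_left]
  · rw [bars_length, List.getElem?_replicate, if_pos]
    rw [ht_append] at h2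
    omega
  · rw [bars_length, List.length_replicate]
    rw [ht_append] at h2
    omega

/-- the colour above the bars -/
theorem getElem?_top (t : ℕ) (l top : List ℕ) {y : ℕ} (h1 : ht δ L t l ≤ y) :
    (bars δ L t l ++ top)[y]? = top[y - ht δ L t l]? := by
  rw [List.getElem?_append_right (by rw [bars_length]; exact h1), bars_length]

theorem getElem?_bars_lt (t : ℕ) (l top : List ℕ) {y : ℕ} (h1 : y < ht δ L t l) :
    (bars δ L t l ++ top)[y]? = some 0 ∨ (bars δ L t l ++ top)[y]? = some 1 := by
  have h : y < (bars δ L t l).length := by rw [bars_length]; exact h1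
  rw [List.getElem?_append_left h, List.getElem?_eq_getElem h]
  have := bars_colors t l _ (List.getElem_mem h)
  simpa using this

end

end Pool.Agent.Lib.MP_e74eef_lc
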