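import Pool.Agent.Lib.MP_e74eef_lc.Complete
import Pool.Agent.Lib.PolyTime.Eq

/-!
# The reduction is computable in polynomial time
-/

namespace Pool.Agent.Lib.MP_e74eef_lc

open Pool.Agent.PolyTime

theorem div_eq_length (a b : ℕ) (hb : 0 < b) :
    ((List.range a).filter (fun i => decide ((i + 1) * b ≤ a))).length = a / b := by
  have h1 : (List.range a).filter (fun i => decide ((i + 1) * b ≤ a))
      = (List.range a).filter (fun i => decide (i < a / b)) := by
    apply List.filter_congr
    intro i _
    rw [decide_eq_decide, Nat.le_div_iff_mul_le hb |>.symm]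
    exact Nat.succ_le_iff
  have h2 : ∀ m c, c ≤ m → ((List.range m).filter (fun i => decide (i < c))).length = c := by
    intro m
    induction m with
    | zero => intro c hc; simp; omega
    | succ m ih =>
      intro c hc
      rw [List.range_succ, List.filter_append, List.length_append]
      rcases Nat.lt_or_ge m c with h | h
      · have e : c = m + 1 := by omega
        subst e
        have : (List.range m).filter (fun i => decide (i < m + 1)) = List.range m := by
          rw [List.filter_eq_self]
          intro i hi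
          have := List.mem_range.1 hi
          simp; omega
        rw [this]
        simp
      · rw [ih c h]
        simp; omega
  rw [h1, h2 _ _ (Nat.div_le_self a b)]

variable {α : Type} [SCode α]

theorem ptime_div {f g : α → ℕ} (hf : PTime f) (hg : PTime g) (hpos : ∀ a, 0 < g a) :
    PTime (fun a => f a / g a) := by
  have h : PTime (fun a => ((List.range (f a)).filter
      (fun i => decide ((i + 1) * g a ≤ f a))).length) := by
    refine PTime.length (PTime.filter (p := fun a i => decide ((i + 1) * g a ≤ f a))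
      (PTime.range hf) ?_)
    exact PTime.nat_le (PTime.mul (PTime.succ PTime.snd) (hg.comp PTime.fst))
      (hf.comp PTime.fst)
  exact h.of_eq fun a => div_eq_length _ _ (hpos a)

theorem ptime_mod {f g : α → ℕ} (hf : PTime f) (hg : PTime g) (hpos : ∀ a, 0 < g a) :
    PTime (fun a => f a % g a) := by
  have h := PTime.sub hf (PTime.mul hg (ptime_div hf hg hpos))
  exact h.of_eq fun a => by
    have := Nat.div_add_mod (f a) (g a)
    omega

/-- adjacency of the graph with the list of edges `E` -/
def adjOf (E : List (ℕ × ℕ)) (u v : ℕ) : Prop := (u, v) ∈ E ∨ (v, u) ∈ E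

instance (E : List (ℕ × ℕ)) : DecidableRel (adjOf E) := fun u v => by
  unfold adjOf; infer_instance

/-- input: number of vertices, list of edges, parameter -/
abbrev GInst := (ℕ × List (ℕ × ℕ)) × ℕ

theorem ptime_const (c : ℕ) : PTime (fun _ : α => c) := PTime.const c

section
variable {x : α → GInst} {t j : α → ℕ}

theorem ptime_n (hx : PTime x) : PTime (fun a => (x a).1.1) :=
  PTime.fst.comp (PTime.fst.comp hx)
theorem ptime_E (hx : PTime x) : PTime (fun a => (x a).1.2) :=
  PTime.snd.comp (PTime.fst.comp hx)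
theorem ptime_k (hx : PTime x) : PTime (fun a => (x a).2) := PTime.snd.comp hx
theorem ptime_q (hx : PTime x) : PTime (fun a => 2 * (x a).2 + 8) :=
  PTime.add (PTime.mul (ptime_const 2) (ptime_k hx)) (ptime_const 8)
theorem ptime_N (hx : PTime x) : PTime (fun a => (x a).1.1 * (2 * (x a).2 + 8) + 1) :=
  PTime.succ (PTime.mul (ptime_n hx) (ptime_q hx))
theorem ptime_L (hx : PTime x) :
    PTime (fun a => 4 * ((x a).1.1 * (2 * (x a).2 + 8) + 1) + 4) :=
  PTime.add (PTime.mul (ptime_const 4) (ptime_N hx)) (ptime_const 4)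

theorem ptime_adj (hx : PTime x) (ht : PTime t) (hj : PTime j) :
    PTime (fun a => decide (adjOf (x a).1.2 (t a) (j a))) := by
  have h := PTime.or (PTime.mem (ht.pair hj) (ptime_E hx)) (PTime.mem (hj.pair ht) (ptime_E hx))
  refine h.of_eq fun a => ?_
  rw [Bool.eq_iff_iff]
  simp only [Bool.or_eq_true, decide_eq_true_eq]
  rfl

theorem ptime_del (hx : PTime x) (ht : PTime t) (hj : PTime j) :
    PTime (fun a => del (x a).1.1 (2 * (x a).2 + 8) (adjOf (x a).1.2) (t a) (j a)) := by
  have hdiv := ptime_div hj (ptime_q hx) (by intro a; omega)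
  have h := PTime.cond (PTime.and (PTime.nat_lt ht (ptime_n hx))
    (PTime.and (PTime.nat_lt hdiv (ptime_n hx))
      (PTime.or (PTime.nat_eq ht hdiv) (ptime_adj hx ht hdiv)))) (ptime_const 1) (ptime_const 0)
  refine h.of_eq fun a => ?_
  unfold del
  by_cases h1 : t a < (x a).1.1 <;> by_cases h2 : j a / (2 * (x a).2 + 8) < (x a).1.1 <;>
    by_cases h3 : t a = j a / (2 * (x a).2 + 8) <;>
    by_cases h4 : adjOf (x a).1.2 (t a) (j a / (2 * (x a).2 + 8)) <;>
    simp [h1, h2, h3, h4]

theorem ptime_thick (hx : PTime x) (ht : PTime t) (hj : PTime j) :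
    PTime (fun a => thick (del (x a).1.1 (2 * (x a).2 + 8) (adjOf (x a).1.2))
      (4 * ((x a).1.1 * (2 * (x a).2 + 8) + 1) + 4) (t a) (j a)) := by
  have hmod := ptime_mod hj (ptime_const 2) (by intro a; omega)
  have hdiv := ptime_div hj (ptime_const 2) (by intro a; omega)
  have h := PTime.ite (c := fun a => j a % 2 = 0) (PTime.nat_eq hmod (ptime_const 0))
    (PTime.add (ptime_L hx) (ptime_del hx ht hdiv))
    (PTime.sub (ptime_L hx) (ptime_del hx ht hdiv))
  refine h.of_eq fun a => ?_
  unfold thick
  rfl

theorem ptime_bars (hx : PTime x) (ht : PTime t) {l : α → List ℕ} (hl : PTime l) :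
    PTime (fun a => bars (del (x a).1.1 (2 * (x a).2 + 8) (adjOf (x a).1.2))
      (4 * ((x a).1.1 * (2 * (x a).2 + 8) + 1) + 4) (t a) (l a)) := by
  refine PTime.flatMap (f := fun a j => List.replicate
    (thick (del (x a).1.1 (2 * (x a).2 + 8) (adjOf (x a).1.2))
      (4 * ((x a).1.1 * (2 * (x a).2 + 8) + 1) + 4) (t a) j) (j % 2)) hl ?_
  exact PTime.replicate (ptime_thick (hx.comp PTime.fst) (ht.comp PTime.fst) PTime.snd)
    (ptime_mod PTime.snd (ptime_const 2) (by intro a; omega))

/-- the column with label `j` -/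
theorem ptime_tpOf (hx : PTime x) (hj : PTime j) : PTime (fun a => tpOf (x a).1.1 (j a)) := by
  have hD : PTime (fun a => 2 * (x a).1.1 + 1) :=
    PTime.succ (PTime.mul (ptime_const 2) (ptime_n hx))
  have hc := ptime_mod hj hD (by intro a; omega)
  have h := PTime.ite (c := fun a => j a % (2 * (x a).1.1 + 1) % 2 = 1)
    (PTime.nat_eq (ptime_mod hc (ptime_const 2) (by intro a; omega)) (ptime_const 1))
    (ptime_div hc (ptime_const 2) (by intro a; omega)) (ptime_n hx)
  exact h

theorem ptime_topInit (hx : PTime x) (hj : PTime j) :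
    PTime (fun a => topInit (x a).1.1 ((x a).2 + 1) (j a)) := by
  have hD : PTime (fun a => 2 * (x a).1.1 + 1) :=
    PTime.succ (PTime.mul (ptime_const 2) (ptime_n hx))
  have hc := ptime_mod hj hD (by intro a; omega)
  have h := PTime.ite (c := fun a => j a % (2 * (x a).1.1 + 1) % 2 = 1)
    (PTime.nat_eq (ptime_mod hc (ptime_const 2) (by intro a; omega)) (ptime_const 1))
    (PTime.cons (ptime_const 4) (PTime.replicate (PTime.succ (ptime_k hx)) (ptime_const 3)))
    (PTime.const [3, 4])
  exact h

end

/-- the output board -/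
def outBoard (x : GInst) : Board := theBoard x.1.1 (adjOf x.1.2) x.2

theorem ptime_outBoard : PTime outBoard := by
  have hid : PTime (fun x : GInst => x) := PTime.id
  have h2N := PTime.mul (ptime_const 2) (ptime_N hid)
  have hH := PTime.succ (PTime.add (PTime.mul (ptime_L hid) h2N) (ptime_N hid))
  have hR : PTime (fun x : GInst => (2 * x.2 + 11) * (2 * x.1.1 + 1)) :=
    PTime.mul (PTime.add (PTime.mul (ptime_const 2) (ptime_k hid)) (ptime_const 11))
      (PTime.succ (PTime.mul (ptime_const 2) (ptime_n hid)))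
  have hfst : PTime (fun p : GInst × ℕ => p.1) := PTime.fst
  have hcol : PTime (fun p : GInst × ℕ =>
      bars (del p.1.1.1 (2 * p.1.2 + 8) (adjOf p.1.1.2))
      (4 * (p.1.1.1 * (2 * p.1.2 + 8) + 1) + 4) (tpOf p.1.1.1 p.2)
      (List.range (2 * (p.1.1.1 * (2 * p.1.2 + 8) + 1))) ++ topInit p.1.1.1 (p.1.2 + 1) p.2) :=
    PTime.append (ptime_bars hfst (ptime_tpOf hfst PTime.snd) (PTime.range (h2N.comp hfst)))
      (ptime_topInit hfst PTime.snd)
  have hmain := PTime.map (f := fun (x : GInst) (j : ℕ) =>
      bars (del x.1.1 (2 * x.2 + 8) (adjOf x.1.2))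
      (4 * (x.1.1 * (2 * x.2 + 8) + 1) + 4) (tpOf x.1.1 j)
      (List.range (2 * (x.1.1 * (2 * x.2 + 8) + 1))) ++ topInit x.1.1 (x.2 + 1) j)
    (PTime.range hR) hcol
  have hleft := PTime.cons (PTime.replicate hH (ptime_const 0)) (PTime.const [[2, 2]])
  refine (PTime.append hleft hmain).of_eq fun x => ?_
  unfold outBoard theBoard board main0
  simp only [lftOf, if_true, List.map_map, List.singleton_append]
  rfl

end Pool.Agent.Lib.MP_e74eef_lc
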