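import Pool.Agent.Lib.MP_e74eef_lc.Gadget

/-!
# Runs of bars are groups
-/

namespace Pool.Agent.Lib.MP_e74eef_lc

/-- a main column with label and top part `x = (label, top)`, when the bars in `l` remain -/
def mcol (δ : ℕ → ℕ → ℕ) (L : ℕ) (tp : ℕ → ℕ) (l : List ℕ) (x : ℕ × List ℕ) : List ℕ :=
  bars δ L (tp x.1) l ++ x.2

/-- the board with left columns `lft`, main columns `main` and remaining bars `l` -/
def board (δ : ℕ → ℕ → ℕ) (L : ℕ) (tp : ℕ → ℕ) (lft : Board) (main : List (ℕ × List ℕ))
    (l : List ℕ) : Board :=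
  lft ++ main.map (mcol δ L tp l)

/-- the type of the `i`-th main column -/
def typeAt (tp : ℕ → ℕ) (main : List (ℕ × List ℕ)) (i : ℕ) : ℕ :=
  ((main[i]?).map (fun x => tp x.1)).getD 0

/-- `m` is a maximal segment of `l` consisting of bars of colour `a` -/
structure IsRun (l l1 m l2 : List ℕ) (a : ℕ) : Prop where
  eq : l = l1 ++ m ++ l2
  ne : m ≠ []
  mono : ∀ z ∈ m, z % 2 = a
  left : ∀ x z, l1 = x ++ [z] → z % 2 ≠ a
  right : ∀ z x, l2 = z :: x → z % 2 ≠ a

section
variable {δ : ℕ → ℕ → ℕ} {L : ℕ} {tp : ℕ → ℕ} {lft : Board} {main : List (ℕ × List ℕ)}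
  {l : List ℕ}

theorem tile_main (i y : ℕ) :
    tile (board δ L tp lft main l) (lft.length + i, y)
      = (main[i]?).bind (fun x => (mcol δ L tp l x)[y]?) := by
  unfold tile board
  simp only
  rw [List.getElem?_append_right (by omega)]
  have : lft.length + i - lft.length = i := by omega
  rw [this, List.getElem?_map]
  cases main[i]? <;> simp

theorem tile_left {i : ℕ} (hi : i < lft.length) (y : ℕ) :
    tile (board δ L tp lft main l) (i, y) = tile lft (i, y) := by
  unfold tile board
  simp only
  rw [List.getElem?_append_left hi]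

theorem typeAt_eq {i : ℕ} {x : ℕ × List ℕ} (h : main[i]? = some x) :
    typeAt tp main i = tp x.1 := by
  simp [typeAt, h]

/-- every height below the top of the bars is in some bar -/
theorem exists_bar (t : ℕ) (l : List ℕ) {y : ℕ} (h : y < ht δ L t l) :
    ∃ u j w, l = u ++ [j] ++ w ∧ ht δ L t u ≤ y ∧ y < ht δ L t (u ++ [j]) := by
  induction l generalizing y with
  | nil => simp at h
  | cons j l ih =>
    by_cases hy : y < thick δ L t j
    · exact ⟨[], j, l, by simp, by simp, by simpa [ht_cons] using hy⟩
    · rw [ht_cons] at h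
      obtain ⟨u, j', w, h1, h2, h3⟩ := ih (y := y - thick δ L t j) (by omega)
      refine ⟨j :: u, j', w, by simp [h1], ?_, ?_⟩
      · rw [ht_cons]; omega
      · rw [List.cons_append, ht_cons]; omega

theorem split_right (p : ℕ → Prop) (w : List ℕ) :
    ∃ m2 l2, w = m2 ++ l2 ∧ (∀ z ∈ m2, p z) ∧ ∀ z x, l2 = z :: x → ¬ p z := by
  induction w with
  | nil => exact ⟨[], [], by simp⟩
  | cons j w ih =>
    by_cases h : p j
    · obtain ⟨m2, l2, h1, h2, h3⟩ := ih
      refine ⟨j :: m2, l2, by simp [h1], ?_, h3⟩
      intro z hz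
      rcases List.mem_cons.1 hz with rfl | hz
      · exact h
      · exact h2 z hz
    · refine ⟨[], j :: w, by simp, by simp, ?_⟩
      intro z x hzx
      injection hzx with h1 _
      rwa [← h1]

theorem split_left (p : ℕ → Prop) (u : List ℕ) :
    ∃ l1 m1, u = l1 ++ m1 ∧ (∀ z ∈ m1, p z) ∧ ∀ x z, l1 = x ++ [z] → ¬ p z := by
  obtain ⟨m2, l2, h1, h2, h3⟩ := split_right p u.reverse
  refine ⟨l2.reverse, m2.reverse, ?_, ?_, ?_⟩
  · have := congrArg List.reverse h1
    simpa using this
  · intro z hz
    exact h2 z (by simpa using hz)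
  · intro x z hxz
    have := congrArg List.reverse hxz
    simp only [List.reverse_reverse, List.reverse_append, List.reverse_cons, List.reverse_nil,
      List.nil_append, List.singleton_append] at this
    exact h3 z _ this

/-- the maximal run around a bar -/
theorem exists_run (u : List ℕ) (j : ℕ) (w : List ℕ) :
    ∃ l1 m1 m2 l2, u = l1 ++ m1 ∧ w = m2 ++ l2 ∧
      IsRun (u ++ [j] ++ w) l1 (m1 ++ [j] ++ m2) l2 (j % 2) := by
  obtain ⟨l1, m1, h1, h2, h3⟩ := split_left (fun z => z % 2 = j % 2) u
  obtain ⟨m2, l2, h4, h5, h6⟩ := split_right (fun z => z % 2 = j % 2) w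
  refine ⟨l1, m1, m2, l2, h1, h4, ?_, by simp, ?_, h3, h6⟩
  · simp [h1, h4]
  · intro z hz
    simp only [List.mem_append, List.mem_singleton] at hz
    rcases hz with (hz | hz) | hz
    · exact h2 z hz
    · rw [hz]
    · exact h5 z hz

/-- Heights near a run that have the colour of the run belong to the run. -/
theorem near_run (hδ : ∀ t i, δ t i ≤ 1) {N : ℕ} (hL : 4 * N + 4 ≤ L)
    (hl : l.Sublist (List.range (2 * N))) {l1 m l2 : List ℕ} {a : ℕ} (hr : IsRun l l1 m l2 a)
    (ha : a < 2) {x : ℕ × List ℕ} (hx : ∀ z ∈ x.2, 2 ≤ z) {t y : ℕ}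
    (h1 : ht δ L t l1 ≤ y + 1) (h2 : y ≤ ht δ L t (l1 ++ m))
    (hy : (mcol δ L tp l x)[y]? = some a) :
    ht δ L (tp x.1) l1 ≤ y ∧ y < ht δ L (tp x.1) (l1 ++ m) := by
  have hL1 : 1 ≤ L := by omega
  have hs : (l1 ++ m ++ l2).Sublist (List.range (2 * N)) := hr.eq ▸ hl
  have hs1 : (l1 ++ m).Sublist (List.range (2 * N)) := (List.sublist_append_left _ _).trans hs
  have hs2 : l1.Sublist (List.range (2 * N)) := (List.sublist_append_left _ _).trans hs1
  unfold mcol at hy
  constructor
  · by_contra hlt
    push Not at hlt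
    rcases List.eq_nil_or_concat l1 with h | ⟨u, z, h⟩
    · rw [h] at hlt; simp at hlt
    · rw [List.concat_eq_append] at h
      have hu : u.Sublist (List.range (2 * N)) := by
        rw [h] at hs2
        exact (List.sublist_append_left _ _).trans hs2
      have b1 := (ht_bounds hδ hL1 hu (tp x.1)).1
      have b2 := (ht_bounds hδ hL1 hs2 t).2
      have hlen : l1.length = u.length + 1 := by simp [h]
      rw [hlen] at b2
      have e : L * (u.length + 1) = L * u.length + L := by ring
      have h3 : ht δ L (tp x.1) u ≤ y := by omega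
      have h4 : y < ht δ L (tp x.1) (u ++ [z]) := by rw [← h]; exact hlt
      have := getElem?_seg (tp x.1) (z % 2) u [z] (m ++ l2) x.2 (by simp) h3 h4
      have e2 : l = u ++ [z] ++ (m ++ l2) := by rw [hr.eq, h]; simp
      rw [e2, this] at hy
      exact hr.left u z h (by simpa using hy)
  · by_contra hge
    push Not at hge
    rcases l2 with _ | ⟨z, w⟩
    · have e2 : l = l1 ++ m := by rw [hr.eq]; simp
      rw [← e2] at hge
      rw [getElem?_top _ _ _ hge] at hy
      have := hx a (List.mem_of_getElem? hy)
      omega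
    · have hs3 : (l1 ++ m ++ [z]).Sublist (List.range (2 * N)) := by
        refine List.Sublist.trans ?_ hs
        exact List.Sublist.append (List.Sublist.refl _) (by simp)
      have b1 := (ht_bounds hδ hL1 hs3 (tp x.1)).2
      have b2 := (ht_bounds hδ hL1 hs1 t).1
      have hlen : (l1 ++ m ++ [z]).length = (l1 ++ m).length + 1 := by simp; omega
      rw [hlen] at b1
      have e : L * ((l1 ++ m).length + 1) = L * (l1 ++ m).length + L := by ring
      have h4 : y < ht δ L (tp x.1) (l1 ++ m ++ [z]) := by omega
      have := getElem?_seg (tp x.1) (z % 2) (l1 ++ m) [z] w x.2 (by simp) hge h4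
      have e2 : l = l1 ++ m ++ [z] ++ w := by rw [hr.eq]; simp
      rw [e2, this] at hy
      exact hr.right z w rfl (by simpa using hy)

/-- the positions of a run -/
def runSet (δ : ℕ → ℕ → ℕ) (L : ℕ) (tp : ℕ → ℕ) (n0 : ℕ) (main : List (ℕ × List ℕ))
    (l1 m : List ℕ) : Set (ℕ × ℕ) :=
  {x | ∃ i < main.length, x.1 = n0 + i ∧ ht δ L (typeAt tp main i) l1 ≤ x.2 ∧
    x.2 < ht δ L (typeAt tp main i) (l1 ++ m)}

theorem tile_runSet {l1 m l2 : List ℕ} {a : ℕ} (hr : IsRun l l1 m l2 a) {x : ℕ × ℕ}
    (hx : x ∈ runSet δ L tp lft.length main l1 m) :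
    tile (board δ L tp lft main l) x = some a := by
  obtain ⟨i, hi, h1, h2, h3⟩ := hx
  have hxe : x = (lft.length + i, x.2) := by ext <;> simp [h1]
  rw [hxe, tile_main, List.getElem?_eq_getElem hi]
  simp only [Option.bind_some]
  rw [typeAt_eq (List.getElem?_eq_getElem hi)] at h2 h3
  unfold mcol
  rw [hr.eq]
  exact getElem?_seg _ a l1 m l2 _ hr.mono h2 h3

/-- The tiles of a run in all main columns are connected. -/
theorem run_connected (hδ : ∀ t i, δ t i ≤ 1) {N : ℕ} (hL : 4 * N + 4 ≤ L)
    (hl : l.Sublist (List.range (2 * N))) {l1 m l2 : List ℕ} {a : ℕ} (hr : IsRun l l1 m l2 a)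
    {x y : ℕ × ℕ} (hx : x ∈ runSet δ L tp lft.length main l1 m)
    (hy : y ∈ runSet δ L tp lft.length main l1 m) :
    y ∈ group (board δ L tp lft main l) x := by
  have hL1 : 1 ≤ L := by omega
  have hs : (l1 ++ m ++ l2).Sublist (List.range (2 * N)) := hr.eq ▸ hl
  have hs1 : (l1 ++ m).Sublist (List.range (2 * N)) := (List.sublist_append_left _ _).trans hs
  have hs2 : l1.Sublist (List.range (2 * N)) := (List.sublist_append_left _ _).trans hs1
  have hm1 : 1 ≤ m.length := List.length_pos_of_ne_nil hr.ne
  have key : ∀ t t', ht δ L t l1 < ht δ L t' (l1 ++ m) := by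
    intro t t'
    have b1 := (ht_bounds hδ hL1 hs2 t).1
    have b2 := (ht_bounds hδ hL1 hs1 t').2
    rw [List.length_append, Nat.mul_add] at b2
    have : L * 1 ≤ L * m.length := Nat.mul_le_mul_left _ hm1
    omega
  obtain ⟨i, hi, h1, h2, h3⟩ := hx
  obtain ⟨j, hj, h4, h5, h6⟩ := hy
  have hxe : x = (lft.length + i, x.2) := by ext <;> simp [h1]
  have hye : y = (lft.length + j, y.2) := by ext <;> simp [h4]
  rw [hxe, hye]
  have e : ∀ i, lft.length + i - lft.length = i := by intro i; omega
  refine strip_connected (a := a) (i0 := lft.length) (i1 := lft.length + main.length)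
    (lo := fun i => ht δ L (typeAt tp main (i - lft.length)) l1)
    (hi := fun i => ht δ L (typeAt tp main (i - lft.length)) (l1 ++ m))
    ?_ ?_ ?_ (by omega) (by omega) (by omega) (by omega) ?_ ?_ ?_ ?_
  · intro i' h0 h1' y' hy1 hy2
    apply tile_runSet hr
    exact ⟨i' - lft.length, by omega, by simp only; omega, hy1, hy2⟩
  · intro i' _ _
    exact key _ _
  · intro i' _ _
    exact ⟨key _ _, key _ _⟩
  · simp only [e]; exact h2
  · simp only [e]; exact h3
  · simp only [e]; exact h5
  · simp only [e]; exact h6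

/-- The group of a tile in a run is the run (in all main columns). -/
theorem group_run (hδ : ∀ t i, δ t i ≤ 1) {N : ℕ} (hL : 4 * N + 4 ≤ L)
    (hl : l.Sublist (List.range (2 * N))) {l1 m l2 : List ℕ} {a : ℕ} (hr : IsRun l l1 m l2 a)
    (ha : a < 2) (htop : ∀ x ∈ main, ∀ z ∈ x.2, 2 ≤ z)
    (hleft : ∀ i y, i + 1 = lft.length → tile lft (i, y) ≠ some a)
    {x : ℕ × ℕ} (hx : x ∈ runSet δ L tp lft.length main l1 m) :
    group (board δ L tp lft main l) x = runSet δ L tp lft.length main l1 m := by
  apply Set.Subset.antisymm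
  · apply group_subset hx
    intro u hu v huv
    have hcu := tile_runSet (δ := δ) (L := L) (lft := lft) hr hu
    obtain ⟨hn, c, hc1, hc2⟩ := huv
    rw [hcu] at hc1
    obtain rfl : a = c := by simpa using hc1
    obtain ⟨i, hi, h1, h2, h3⟩ := hu
    -- the column of v
    have hv1 : lft.length ≤ v.1 := by
      by_contra hlt
      push Not at hlt
      have hv : v.1 + 1 = lft.length := by
        unfold Neighbour at hn; omega
      have : tile lft (v.1, v.2) = some a := by
        rw [← tile_left (δ := δ) (L := L) (tp := tp) (main := main) (l := l) hlt]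
        exact hc2
      exact hleft v.1 v.2 hv this
    obtain ⟨i', hi'⟩ := Nat.exists_eq_add_of_le hv1
    have hve : v = (lft.length + i', v.2) := by ext <;> simp [hi']
    rw [hve, tile_main] at hc2
    have hlt : i' < main.length := by
      by_contra hge
      push Not at hge
      rw [List.getElem?_eq_none hge] at hc2
      simp at hc2
    rw [List.getElem?_eq_getElem hlt] at hc2
    simp only [Option.bind_some] at hc2
    have hnear := near_run (tp := tp) (x := main[i']) hδ hL hl hr ha
      (htop _ (List.getElem_mem hlt)) (t := typeAt tp main i) (y := v.2) (by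
        unfold Neighbour at hn; omega) (by unfold Neighbour at hn; omega) hc2
    refine ⟨i', hlt, hi', ?_, ?_⟩
    · rw [typeAt_eq (List.getElem?_eq_getElem hlt)]; exact hnear.1
    · rw [typeAt_eq (List.getElem?_eq_getElem hlt)]; exact hnear.2
  · intro y hy
    exact run_connected hδ hL hl hr hx hy

theorem fallAll_eq_self {b : Board} {S : Set (ℕ × ℕ)} (h : ∀ x ∈ S, b.length ≤ x.1) :
    fallAll b S = b := by
  apply List.ext_getElem?
  intro i
  rw [fallAll_getElem?]
  by_cases hi : i < b.length
  · rw [List.getElem?_eq_getElem hi]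
    simp only [Option.map_some, Option.some.injEq]
    apply fall_eq_self
    intro j _ hj
    have := h _ hj
    simp only at this
    omega
  · rw [List.getElem?_eq_none (by omega)]
    simp

/-- The effect of removing a run. -/
theorem fallAll_run {l1 m l2 : List ℕ} (heq : l = l1 ++ m ++ l2) :
    fallAll (board δ L tp lft main l) (runSet δ L tp lft.length main l1 m)
      = board δ L tp lft main (l1 ++ l2) := by
  unfold board
  rw [fallAll_append]
  congr 1
  · apply fallAll_eq_self
    rintro x ⟨i, hi, h1, _, _⟩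
    omega
  · apply List.ext_getElem?
    intro i
    rw [fallAll_getElem?, List.getElem?_map, List.getElem?_map]
    by_cases hi : i < main.length
    · rw [List.getElem?_eq_getElem hi]
      simp only [Option.map_some, Option.some.injEq]
      have ht' := typeAt_eq (tp := tp) (List.getElem?_eq_getElem hi)
      set x := main[i] with hx
      have hmem : ∀ j, (i, j) ∈ {x : ℕ × ℕ | (x.1 + lft.length, x.2) ∈
          runSet δ L tp lft.length main l1 m} ↔
          ht δ L (tp x.1) l1 ≤ j ∧ j < ht δ L (tp x.1) (l1 ++ m) := by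
        intro j
        simp only [runSet, Set.mem_ofPred_eq]
        constructor
        · rintro ⟨i', hi', h1, h2, h3⟩
          obtain rfl : i = i' := by omega
          rw [ht'] at h2 h3
          exact ⟨h2, h3⟩
        · rintro ⟨h2, h3⟩
          exact ⟨i, hi, by omega, by rw [ht']; exact h2, by rw [ht']; exact h3⟩
      simp only [hmem]
      unfold mcol
      rw [heq, bars_append, bars_append, List.append_assoc, List.append_assoc, fall_append,
        fall_append, bars_append, List.append_assoc]
      congr 1
      · apply fall_eq_self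
        intro j hj
        rw [bars_length] at hj
        simp only [Set.mem_ofPred_eq, not_and]
        omega
      · rw [fall_eq_nil, List.nil_append]
        · apply fall_eq_self
          intro j hj
          simp only [Set.mem_ofPred_eq, bars_length, ht_append]
          omega
        · intro j hj
          rw [bars_length] at hj
          simp only [Set.mem_ofPred_eq, bars_length, ht_append]
          omega
    · rw [List.getElem?_eq_none (by omega)]
      simp

end

end Pool.Agent.Lib.MP_e74eef_lc
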