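import Pool.Agent.Lib.MP_e74eef_lc.Step2

/-!
# Soundness: an elimination with few clicks gives a small dominating set
-/

namespace Pool.Agent.Lib.MP_e74eef_lc

theorem label_mod {r D c : ℕ} (h : c < D) : (r * D + c) % D = c := by
  rw [Nat.add_comm, Nat.add_mul_mod_self_right, Nat.mod_eq_of_lt h]

/-- the initial top part of the main column with label `a` -/
def topInit (n bb a : ℕ) : List ℕ :=
  if a % (2 * n + 1) % 2 = 1 then 4 :: List.replicate bb 3 else [3, 4]

/-- the type of the main column with label `a` -/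
def tpOf (n a : ℕ) : ℕ := if a % (2 * n + 1) % 2 = 1 then a % (2 * n + 1) / 2 else n

/-- all columns of copy `r` are intact -/
def Fresh (n bb r : ℕ) (main : List (ℕ × List ℕ)) : Prop :=
  ∀ c < 2 * n + 1, (r * (2 * n + 1) + c, topInit n bb (r * (2 * n + 1) + c)) ∈ main

/-- what a click that crosses an intact copy tells us -/
def Cross (δ : ℕ → ℕ → ℕ) (L n bb : ℕ) (l : List ℕ) : Prop :=
  (∀ u < n, ht δ L u l + 1 ≤ ht δ L n l ∧ ht δ L n l ≤ ht δ L u l + bb) ∨
  (∀ u < n, ht δ L u l = ht δ L n l + 1)

section
variable {δ : ℕ → ℕ → ℕ} {L N H n bb : ℕ} {main : List (ℕ × List ℕ)}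
  {l : List ℕ} {hasA hasC : Bool}

theorem index_lt {i j : ℕ} {x y : ℕ × List ℕ} (hinc : main.Pairwise (fun x y => x.1 < y.1))
    (hi : main[i]? = some x) (hj : main[j]? = some y) (h : x.1 < y.1) : i < j := by
  by_contra hge
  push Not at hge
  have hi' : i < main.length := (List.getElem?_eq_some_iff.1 hi).1
  have hj' : j < main.length := (List.getElem?_eq_some_iff.1 hj).1
  have ei : main[i] = x := (List.getElem?_eq_some_iff.1 hi).2
  have ej : main[j] = y := (List.getElem?_eq_some_iff.1 hj).2
  rcases Nat.lt_or_eq_of_le hge with h1 | h1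
  · have := List.pairwise_iff_getElem.1 hinc j i hj' hi' h1
    rw [ei, ej] at this
    omega
  · subst h1
    rw [ei] at ej
    subst ej
    omega

theorem index_succ {i : ℕ} {x y : ℕ × List ℕ} (hinc : main.Pairwise (fun x y => x.1 < y.1))
    (hi : main[i]? = some x) (hy : y ∈ main) (h : y.1 = x.1 + 1) : main[i + 1]? = some y := by
  obtain ⟨j, hj⟩ := List.mem_iff_getElem?.1 hy
  have hij : i < j := index_lt hinc hi hj (by omega)
  by_cases h1 : j = i + 1
  · rw [← h1]; exact hj
  · exfalso
    have hj' : j < main.length := (List.getElem?_eq_some_iff.1 hj).1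
    have hi1 : i + 1 < main.length := by omega
    have hi' : i < main.length := by omega
    have ei : main[i] = x := (List.getElem?_eq_some_iff.1 hi).2
    have ej : main[j] = y := (List.getElem?_eq_some_iff.1 hj).2
    have h2 := List.pairwise_iff_getElem.1 hinc i (i + 1) hi' hi1 (by omega)
    have h3 := List.pairwise_iff_getElem.1 hinc (i + 1) j hi1 hj' (by omega)
    rw [ei] at h2
    rw [ej] at h3
    omega

/-- the click touches copy `r` -/
def Touched (n n0 r : ℕ) (main : List (ℕ × List ℕ)) (G : Set (ℕ × ℕ)) : Prop :=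
  ∃ i x, main[i]? = some x ∧ x.1 / (2 * n + 1) = r ∧ ∃ y, (n0 + i, y) ∈ G

theorem cross_of_three (hinc : main.Pairwise (fun x y => x.1 < y.1)) {lft : Board}
    {p : ℕ × ℕ} {c : ℕ} (hc : c = 3 ∨ c = 4)
    (hp : tile (board δ L (tpOf n) lft main l) p = some c) {r1 r2 r3 : ℕ}
    (h12 : r1 < r2) (h23 : r2 < r3)
    (h1 : Touched n lft.length r1 main (group (board δ L (tpOf n) lft main l) p))
    (h3 : Touched n lft.length r3 main (group (board δ L (tpOf n) lft main l) p))
    (h2 : Fresh n bb r2 main) : Cross δ L n bb l := by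
  set b := board δ L (tpOf n) lft main l with hb
  obtain ⟨i1, x1, hx1, hr1, y1, hy1⟩ := h1
  obtain ⟨i3, x3, hx3, hr3, y3, hy3⟩ := h3
  set D := 2 * n + 1 with hD
  -- for every `u` there is a link across
  have key : ∀ u < n, ∃ y : ℕ, (mcol δ L (tpOf n) l (r2 * D + 2 * u, [3, 4]))[y]? = some c ∧
      (mcol δ L (tpOf n) l (r2 * D + (2 * u + 1), 4 :: List.replicate bb 3))[y]? = some c := by
    intro u hu
    have hm0 := h2 (2 * u) (by omega)
    have hm1 := h2 (2 * u + 1) (by omega)
    rw [← hD] at hm0 hm1
    have e0 : (r2 * D + 2 * u) % D % 2 = 0 := by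
      rw [label_mod (by omega)]
      omega
    have e1 : (r2 * D + (2 * u + 1)) % D % 2 = 1 := by
      rw [label_mod (by omega)]
      omega
    have t0 : topInit n bb (r2 * D + 2 * u) = [3, 4] := by
      unfold topInit
      rw [if_neg (by rw [← hD, e0]; omega)]
    have t1 : topInit n bb (r2 * D + (2 * u + 1)) = 4 :: List.replicate bb 3 := by
      unfold topInit
      rw [if_pos (by rw [← hD, e1])]
    rw [t0] at hm0
    rw [t1] at hm1
    obtain ⟨i, hi⟩ := List.mem_iff_getElem?.1 hm0
    have hi1 := index_succ hinc hi hm1 (by simp only; omega)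
    have hD0 : 0 < D := by omega
    have l1 : i1 < i := by
      apply index_lt hinc hx1 hi
      have : x1.1 < (r1 + 1) * D := by
        rw [← hr1]
        have := Nat.lt_div_mul_add (a := x1.1) hD0
        calc x1.1 < x1.1 / D * D + D := this
          _ = (x1.1 / D + 1) * D := by ring
      have : (r1 + 1) * D ≤ r2 * D := Nat.mul_le_mul_right _ (by omega)
      simp only
      omega
    have l3 : i + 1 < i3 := by
      apply index_lt hinc hi1 hx3
      have h5 : r3 * D ≤ x3.1 := by
        rw [← hr3]; exact Nat.div_mul_le_self _ _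
      have h6 : (r2 + 1) * D ≤ r3 * D := Nat.mul_le_mul_right _ (by omega)
      have h7 : (r2 + 1) * D = r2 * D + D := by ring
      simp only
      omega
    obtain ⟨y, hy, hyG⟩ := exists_link_between' (m := lft.length + i) hy1 hy3
      (by simp only; omega) (by simp only; omega)
    have hcy : tile b (lft.length + i, y) = some c := group_color hyG hp
    obtain ⟨_, a, ha1, ha2⟩ := hy
    rw [hcy] at ha1
    have hac : a = c := by simpa using ha1.symm
    subst hac
    rw [hb, tile_main, hi] at hcy
    rw [hb, Nat.add_assoc, tile_main, hi1] at ha2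
    exact ⟨y, by simpa using hcy, by simpa using ha2⟩
  -- types
  have ty0 : ∀ u < n, tpOf n (r2 * D + 2 * u) = n := by
    intro u hu
    unfold tpOf
    rw [if_neg]
    rw [← hD, label_mod (by omega)]
    omega
  have ty1 : ∀ u < n, tpOf n (r2 * D + (2 * u + 1)) = u := by
    intro u hu
    unfold tpOf
    rw [if_pos]
    · rw [← hD, label_mod (by omega)]
      omega
    · rw [← hD, label_mod (by omega)]
      omega
  rcases hc with rfl | rfl
  · left
    intro u hu
    obtain ⟨y, hy0, hy1⟩ := key u hu
    unfold mcol at hy0 hy1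
    simp only [ty0 u hu, ty1 u hu] at hy0 hy1
    have g0 : ht δ L n l ≤ y := by
      by_contra hlt
      push Not at hlt
      rcases getElem?_bars_lt (δ := δ) (L := L) n l [3, 4] hlt with h | h <;>
        rw [h] at hy0 <;> simp at hy0
    have g1 : ht δ L u l ≤ y := by
      by_contra hlt
      push Not at hlt
      rcases getElem?_bars_lt (δ := δ) (L := L) u l (4 :: List.replicate bb 3) hlt with h | h <;>
        rw [h] at hy1 <;> simp at hy1
    rw [getElem?_top _ _ _ g0] at hy0
    rw [getElem?_top _ _ _ g1] at hy1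
    have e0 : y - ht δ L n l = 0 := by
      rcases hh : y - ht δ L n l with _ | _ | k
      · rfl
      · rw [hh] at hy0; simp at hy0
      · rw [hh] at hy0; simp at hy0
    obtain ⟨k, hk⟩ : ∃ k, y - ht δ L u l = k + 1 := by
      rcases hh : y - ht δ L u l with _ | k
      · rw [hh] at hy1; simp at hy1
      · exact ⟨k, rfl⟩
    rw [hk] at hy1
    simp only [List.getElem?_cons_succ, List.getElem?_replicate] at hy1
    have : k < bb := by
      by_contra hk'
      rw [if_neg hk'] at hy1
      simp at hy1
    omega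
  · right
    intro u hu
    obtain ⟨y, hy0, hy1⟩ := key u hu
    unfold mcol at hy0 hy1
    simp only [ty0 u hu, ty1 u hu] at hy0 hy1
    have g0 : ht δ L n l ≤ y := by
      by_contra hlt
      push Not at hlt
      rcases getElem?_bars_lt (δ := δ) (L := L) n l [3, 4] hlt with h | h <;>
        rw [h] at hy0 <;> simp at hy0
    have g1 : ht δ L u l ≤ y := by
      by_contra hlt
      push Not at hlt
      rcases getElem?_bars_lt (δ := δ) (L := L) u l (4 :: List.replicate bb 3) hlt with h | h <;>
        rw [h] at hy1 <;> simp at hy1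
    rw [getElem?_top _ _ _ g0] at hy0
    rw [getElem?_top _ _ _ g1] at hy1
    have e0 : y - ht δ L n l = 1 := by
      rcases hh : y - ht δ L n l with _ | _ | k
      · rw [hh] at hy0; simp at hy0
      · rfl
      · rw [hh] at hy0; simp at hy0
    have e1 : y - ht δ L u l = 0 := by
      rcases hh : y - ht δ L u l with _ | k
      · rfl
      · rw [hh] at hy1
        simp [List.getElem?_replicate] at hy1
    omega

theorem topInit_ne_nil (a : ℕ) : topInit n bb a ≠ [] := by
  unfold topInit
  split_ifs <;> simp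

theorem Fresh.norm {r : ℕ} (h : Fresh n bb r main) (l : List ℕ) :
    Fresh n bb r (norm l main) := by
  intro c hc
  exact mem_norm (h c hc) (topInit_ne_nil _)

/-- Every click either crosses an intact copy or destroys at most two copies. -/
theorem step_total (hδ : ∀ t i, δ t i ≤ 1) (hL : 4 * N + 4 ≤ L)
    (hH : L * (2 * N) + N < H) {t : ℕ} (hinv : Inv N t hasC main l) {b' : Board}
    (hclick : Click (board δ L (tpOf n) (lftOf H hasA hasC) main l) b') :
    Cross δ L n bb l ∨ ∃ hasA' hasC' main' l',
      b' = board δ L (tpOf n) (lftOf H hasA' hasC') main' l' ∧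
      Inv N (t + 1) hasC' main' l' ∧
      ∃ X : Finset ℕ, X.card ≤ 2 ∧ ∀ r, r ∉ X → Fresh n bb r main → Fresh n bb r main' := by
  obtain ⟨p, q, hp, _, _, rfl⟩ := hclick
  obtain ⟨c, hc⟩ := Option.ne_none_iff_exists'.1 hp
  rcases tile_cases hc with ⟨hA, h1, h2, h3⟩ | ⟨hC, h1, h2, h3⟩ | ⟨i, hi, h1, h2, h3⟩ |
      ⟨i, w, hw, h1, h2, h3⟩
  · -- the high column
    subst hA h3
    cases hasC
    · right
      obtain ⟨e, hinv'⟩ := step_mass hδ hL hH hinv hc
      exact ⟨_, _, _, _, e, hinv', ∅, by simp, fun r _ h => h.norm _⟩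
    · right
      obtain ⟨e, hinv'⟩ := step_A (δ := δ) (tp := tpOf n) hδ hL (by omega) hinv h1 h2
      exact ⟨_, _, _, _, e, hinv', ∅, by simp, fun r _ h => h.norm _⟩
  · subst hC h3
    right
    obtain ⟨e, hinv'⟩ := step_C hδ hL (by omega) hinv hc
    exact ⟨_, _, _, _, e, hinv', ∅, by simp, fun r _ h => h.norm _⟩
  · right
    by_cases hfree : c = 1 ∨ hasA = false ∨ hasC = true
    · obtain ⟨l', e, hinv'⟩ := step_bar hδ hL hH hinv hi h1 h2 hc hfree
      exact ⟨_, _, _, _, e, hinv', ∅, by simp, fun r _ h => h.norm _⟩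
    · push Not at hfree
      have hc0 : c = 0 := by omega
      have hA : hasA = true := by simpa using hfree.2.1
      have hC : hasC = false := by simpa using hfree.2.2
      subst hc0 hA hC
      obtain ⟨e, hinv'⟩ := step_mass hδ hL hH hinv hc
      exact ⟨_, _, _, _, e, hinv', ∅, by simp, fun r _ h => h.norm _⟩
  · have hc34 : c = 3 ∨ c = 4 :=
      hinv.tops w (List.mem_of_getElem? hw) _ (List.mem_of_getElem? h3)
    obtain ⟨main', e, hinv', hkeep⟩ := step_top hδ hL (by omega) hinv hc34 hc
    set G := group (board δ L (tpOf n) (lftOf H hasA hasC) main l) p with hG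
    set n0 := (lftOf H hasA hasC).length with hn0
    by_cases hcr : ∃ r1 r2 r3, r1 < r2 ∧ r2 < r3 ∧ Touched n n0 r1 main G ∧
        Touched n n0 r3 main G ∧ Fresh n bb r2 main
    · obtain ⟨r1, r2, r3, h12, h23, ht1, ht3, hf⟩ := hcr
      exact Or.inl (cross_of_three hinv.inc hc34 hc h12 h23 ht1 ht3 hf)
    · right
      -- untouched copies stay intact
      have hun : ∀ r, ¬ Touched n n0 r main G → Fresh n bb r main → Fresh n bb r main' := by
        intro r hnt hf c hc
        have hmem := hf c hc
        obtain ⟨i, hi⟩ := List.mem_iff_getElem?.1 hmem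
        apply hkeep i _ hi (topInit_ne_nil _)
        intro y hy
        apply hnt
        refine ⟨i, _, hi, ?_, y, hy⟩
        simp only
        rw [Nat.mul_comm, Nat.mul_add_div (by omega)]
        simp [Nat.div_eq_of_lt hc]
      refine ⟨_, _, _, _, e, hinv', ?_⟩
      set T : Set ℕ := {r | Touched n n0 r main G ∧ Fresh n bb r main} with hT
      have hX : ∃ X : Finset ℕ, X.card ≤ 2 ∧ ∀ r ∈ T, r ∈ X := by
        by_cases hT0 : T.Nonempty
        · obtain ⟨r1, hr1, hmin1⟩ : ∃ r1 ∈ T, ∀ r ∈ T, r1 ≤ r :=
            ⟨sInf T, Nat.sInf_mem hT0, fun r hr => Nat.sInf_le hr⟩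
          by_cases hT1 : (T \ {r1}).Nonempty
          · obtain ⟨r2, hr2, hmin2⟩ : ∃ r2 ∈ T \ {r1}, ∀ r ∈ T \ {r1}, r2 ≤ r :=
              ⟨sInf _, Nat.sInf_mem hT1, fun r hr => Nat.sInf_le hr⟩
            refine ⟨{r1, r2}, Finset.card_le_two, ?_⟩
            intro r hr
            by_contra hno
            simp only [Finset.mem_insert, Finset.mem_singleton, not_or] at hno
            apply hcr
            have a1 := hmin1 r2 hr2.1
            have a2 := hmin2 r ⟨hr, by simpa using hno.1⟩
            have a3 : r2 ≠ r1 := by simpa using hr2.2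
            exact ⟨r1, r2, r, by omega, by omega, hr1.1, hr.1, hr2.1.2⟩
          · refine ⟨{r1}, by simp, ?_⟩
            intro r hr
            by_contra hno
            exact hT1 ⟨r, hr, by simpa using hno⟩
        · exact ⟨∅, by simp, fun r hr => absurd ⟨r, hr⟩ hT0⟩
      obtain ⟨X, hX1, hX2⟩ := hX
      refine ⟨X, hX1, ?_⟩
      intro r hr hf
      apply hun r _ hf
      intro htc
      exact hr (hX2 r ⟨htc, hf⟩)

end

/-! ### Colours -/

theorem mem_fall {S : Set ℕ} {col : List ℕ} {j a : ℕ} (h : col[j]? = some a) (hj : j ∉ S) :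
    a ∈ fall S col := by
  classical
  induction col generalizing S j with
  | nil => simp at h
  | cons x col ih =>
    rw [fall_cons]
    cases j with
    | zero =>
      rw [if_neg hj]
      simp at h
      simp [h]
    | succ j =>
      rw [List.mem_append]
      right
      exact ih (by simpa using h) hj

theorem color_persists {b b' : Board} (h : Click b b') :
    ∃ c, ∀ a ∈ b.flatten, a ≠ c → a ∈ b'.flatten := by
  obtain ⟨p, q, hp, _, _, rfl⟩ := h
  obtain ⟨c, hc⟩ := Option.ne_none_iff_exists'.1 hp
  refine ⟨c, ?_⟩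
  intro a ha hac
  rw [List.mem_flatten] at ha
  obtain ⟨col, hcol, hacol⟩ := ha
  obtain ⟨i, hi⟩ := List.mem_iff_getElem?.1 hcol
  obtain ⟨j, hj⟩ := List.mem_iff_getElem?.1 hacol
  have hnot : (i, j) ∉ group b p := by
    intro hmem
    have := group_color hmem hc
    unfold tile at this
    simp only at this
    rw [hi] at this
    simp only [Option.bind_some] at this
    rw [hj] at this
    exact hac (by simpa using this)
  have h1 : a ∈ fall {j | (i, j) ∈ group b p} col := mem_fall hj hnot
  rw [List.mem_flatten]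
  refine ⟨fall {j | (i, j) ∈ group b p} col, ?_, h1⟩
  unfold remove
  rw [List.mem_filter]
  refine ⟨?_, ?_⟩
  · apply List.mem_of_getElem? (i := i)
    rw [fallAll_getElem?, hi]
    rfl
  · have : fall {j | (i, j) ∈ group b p} col ≠ [] := List.ne_nil_of_mem h1
    simpa using this

theorem colors_le {m : ℕ} {b b' : Board} (h : Clicks m b b') :
    b.flatten.toFinset.card ≤ b'.flatten.toFinset.card + m := by
  induction h with
  | zero => simp
  | @succ m b b' b'' hc _ ih =>
    obtain ⟨c, hc⟩ := color_persists hc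
    have : b.flatten.toFinset ⊆ insert c b'.flatten.toFinset := by
      intro a ha
      rw [Finset.mem_insert]
      by_cases hac : a = c
      · exact Or.inl hac
      · exact Or.inr (by simpa using hc a (by simpa using ha) hac)
    have h1 := Finset.card_le_card this
    have h2 := Finset.card_insert_le c b'.flatten.toFinset
    omega

end Pool.Agent.Lib.MP_e74eef_lc
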