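import Pool.Agent.Lib.MP_e74eef_lc.Sound

/-!
# Soundness, conclusion
-/

namespace Pool.Agent.Lib.MP_e74eef_lc

/-- The graph with vertices `0, …, n-1` and adjacency `adj` has a dominating set with at most `k`
vertices. -/
def HasDomSet (n : ℕ) (adj : ℕ → ℕ → Prop) (k : ℕ) : Prop :=
  ∃ S : Finset ℕ, S.card ≤ k ∧ (∀ v ∈ S, v < n) ∧ ∀ u < n, ∃ v ∈ S, u = v ∨ adj u v

section
variable {n q k N L H : ℕ} {adj : ℕ → ℕ → Prop} [DecidableRel adj]
  {main : List (ℕ × List ℕ)} {l : List ℕ} {hasA hasC : Bool}

/-- dominating set from removed pairs -/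
theorem domSet_of_removed {P : ℕ → Prop} [DecidablePred P]
    (hcard : ((Finset.range N).filter P).card ≤ k)
    (h : ∀ u < n, ∃ i < N, P i ∧ del n q adj u i = 1) : HasDomSet n adj k := by
  refine ⟨(((Finset.range N).filter P).image (fun i => i / q)).filter (fun v => v < n), ?_, ?_, ?_⟩
  · exact (Finset.card_filter_le _ _).trans (Finset.card_image_le.trans hcard)
  · intro v hv
    exact (Finset.mem_filter.1 hv).2
  · intro u hu
    obtain ⟨i, hi, hP, hd⟩ := h u hu
    obtain ⟨_, h2, h3⟩ := of_del hd
    refine ⟨i / q, ?_, h3⟩
    rw [Finset.mem_filter, Finset.mem_image]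
    exact ⟨⟨i, by simp [hi, hP], rfl⟩, h2⟩

theorem color_of_bar {lft : Board} (hL : 4 * N + 4 ≤ L) (hmain : main ≠ []) {a : ℕ}
    (h : ∃ j ∈ l, j % 2 = a) {tp : ℕ → ℕ} :
    a ∈ (board (del n q adj) L tp lft main l).flatten := by
  obtain ⟨j, hj, rfl⟩ := h
  obtain ⟨x, hx⟩ := List.exists_mem_of_ne_nil _ hmain
  rw [List.mem_flatten]
  refine ⟨mcol (del n q adj) L tp l x, ?_, ?_⟩
  · unfold board
    rw [List.mem_append]
    right
    exact List.mem_map_of_mem hx
  · unfold mcol bars
    rw [List.mem_append]
    left
    rw [List.mem_flatMap]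
    refine ⟨j, hj, ?_⟩
    rw [List.mem_replicate]
    have := thick_ge (L := L) (del_le_one (n := n) (q := q) (adj := adj)) (tp x.1) j
    exact ⟨by omega, rfl⟩

theorem exists_parity_of_runs {a : ℕ} (h : 0 < runs a l) : ∃ j ∈ l, j % 2 = a := by
  have := lt_of_lt_of_le h (runs_le_countP a l)
  rw [List.countP_pos_iff] at this
  simpa using this

theorem cross_domSet (hq : q = 2 * k + 8) (hN : N = n * q + 1) (hL : L = 4 * N + 4)
    {t m r : ℕ} (hinv : Inv N t hasC main l) (hf : Fresh n (k + 1) r main)
    (hclicks : Clicks (m + 1) (board (del n q adj) L (tpOf n) (lftOf H hasA hasC) main l) [])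
    (ht : m + 1 + t ≤ k + 5) (hcross : Cross (del n q adj) L n (k + 1) l) :
    HasDomSet n adj k := by
  have hδ := del_le_one (n := n) (q := q) (adj := adj)
  have hnd : l.Nodup := hinv.sub.nodup List.nodup_range
  rcases Nat.eq_zero_or_pos n with hn | hn
  · exact ⟨∅, by simp, by simp, by intro u hu; omega⟩
  have hmain : main ≠ [] := by
    intro h
    have := hf 0 (by omega)
    rw [h] at this
    simp at this
  have href := ht_eq hδ (L := L) (by omega) n l
  rw [ods_ref, evs_ref] at href
  have hNq : q ≤ n * q := Nat.le_mul_of_pos_left q hn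
  rcases hinv.phase with ⟨p0, p1⟩ | ⟨hodd, hlen⟩ | hnil
  · -- before the mass click
    have hc0 := color_of_bar (n := n) (q := q) (adj := adj) (lft := lftOf H hasA hasC)
      (tp := tpOf n) hL.ge hmain (exists_parity_of_runs (a := 0) (l := l) (by omega))
    have hc1 := color_of_bar (n := n) (q := q) (adj := adj) (lft := lftOf H hasA hasC)
      (tp := tpOf n) hL.ge hmain (exists_parity_of_runs (a := 1) (l := l) (by omega))
    have hf0 := hf 0 (by omega)
    have htop : topInit n (k + 1) (r * (2 * n + 1) + 0) = [3, 4] := by
      unfold topInit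
      rw [if_neg]
      rw [label_mod (by omega)]
      omega
    rw [htop] at hf0
    have hc34 : ∀ a, a = 3 ∨ a = 4 →
        a ∈ (board (del n q adj) L (tpOf n) (lftOf H hasA hasC) main l).flatten := by
      intro a ha
      rw [List.mem_flatten]
      refine ⟨mcol (del n q adj) L (tpOf n) l (r * (2 * n + 1) + 0, [3, 4]), ?_, ?_⟩
      · unfold board
        rw [List.mem_append]
        right
        exact List.mem_map_of_mem hf0
      · unfold mcol
        rw [List.mem_append]
        right
        simpa using ha
    have hcol := colors_le hclicks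
    simp only [List.flatten_nil, List.toFinset_nil, Finset.card_empty, Nat.zero_add] at hcol
    set b := board (del n q adj) L (tpOf n) (lftOf H hasA hasC) main l with hb
    have hcount : 4 + (if hasC then 1 else 0) ≤ m + 1 := by
      refine le_trans ?_ hcol
      cases hasC
      · have hsub : ({0, 1, 3, 4} : Finset ℕ) ⊆ b.flatten.toFinset := by
          intro a ha
          simp only [Finset.mem_insert, Finset.mem_singleton] at ha
          rw [List.mem_toFinset]
          rcases ha with rfl | rfl | rfl | rfl
          · exact hc0
          · exact hc1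
          · exact hc34 _ (by simp)
          · exact hc34 _ (by simp)
        have := Finset.card_le_card hsub
        simpa using this
      · have hc2 : 2 ∈ b.flatten := by
          rw [List.mem_flatten]
          refine ⟨[2, 2], ?_, by simp⟩
          rw [hb, board_append, List.mem_append]
          left
          simp [lftOf]
        have hsub : ({0, 1, 2, 3, 4} : Finset ℕ) ⊆ b.flatten.toFinset := by
          intro a ha
          simp only [Finset.mem_insert, Finset.mem_singleton] at ha
          rw [List.mem_toFinset]
          rcases ha with rfl | rfl | rfl | rfl | rfl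
          · exact hc0
          · exact hc1
          · exact hc2
          · exact hc34 _ (by simp)
          · exact hc34 _ (by simp)
        have := Finset.card_le_card hsub
        simpa using this
    have r0 : N ≤ runs 0 l + k := by
      cases hasC <;> simp at p0 hcount <;> omega
    have r1 : N ≤ runs 1 l + k := by
      cases hasC <;> simp at p1 hcount <;> omega
    rcases hcross with hcr | hcr
    · have hce := card_removed_even hinv.sub
      have hru := runs_le_countP 0 l
      apply domSet_of_removed (N := N) (q := q) (P := fun i => 2 * i ∉ l)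
      · omega
      · intro u hu
        have h1 := (hcr u hu).1
        have h2 := ht_eq hδ (L := L) (by omega) u l
        obtain ⟨i, hi1, hi2, hi3⟩ := exists_of_evs_lt hδ hnd (t := u) (by omega)
        have hlt : 2 * i + 1 < 2 * N := by simpa using hinv.sub.subset hi1
        exact ⟨i, by omega, hi2, hi3⟩
    · have hce := card_removed_odd hinv.sub
      have hru := runs_le_countP 1 l
      apply domSet_of_removed (N := N) (q := q) (P := fun i => 2 * i + 1 ∉ l)
      · omega
      · intro u hu
        have h1 := hcr u hu
        have h2 := ht_eq hδ (L := L) (by omega) u l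
        obtain ⟨i, hi1, hi2, hi3⟩ := exists_of_ods_lt hδ hnd (t := u) (by omega)
        have hlt : 2 * i < 2 * N := by simpa using hinv.sub.subset hi1
        exact ⟨i, by omega, hi2, hi3⟩
  · -- after the mass click: impossible
    exfalso
    have hev := evs_of_odd (δ := del n q adj) (t := 0) hodd
    have h2 := ht_eq hδ (L := L) (by omega) 0 l
    rw [hev] at h2
    rcases hcross with hcr | hcr
    · have h1 := (hcr 0 hn).2
      have h3 := length_le_of_odd hδ (q := q) (N := N) (by omega) (t := 0)
        (fun i hi => del_self hn (Nat.div_eq_of_lt hi)) hinv.sub hodd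
      omega
    · have h1 := hcr 0 hn
      omega
  · exfalso
    subst hnil
    rcases hcross with hcr | hcr
    · have := (hcr 0 hn).1
      simp at this
    · have := hcr 0 hn
      simp at this

theorem sound_aux (hq : q = 2 * k + 8) (hN : N = n * q + 1) (hL : L = 4 * N + 4)
    (hH : L * (2 * N) + N < H) (m : ℕ) :
    ∀ (t : ℕ) (hasA hasC : Bool) (main : List (ℕ × List ℕ)) (l : List ℕ) (F : Finset ℕ),
      Inv N t hasC main l → (∀ r ∈ F, Fresh n (k + 1) r main) → 2 * m + 1 ≤ F.card →
      m + t ≤ k + 5 →
      Clicks m (board (del n q adj) L (tpOf n) (lftOf H hasA hasC) main l) [] →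
      HasDomSet n adj k := by
  induction m with
  | zero =>
    intro t hasA hasC main l F _ hF hcard _ hcl
    exfalso
    obtain ⟨r, hr⟩ : F.Nonempty := by
      rw [← Finset.card_pos]; omega
    have hf := hF r hr 0 (by omega)
    generalize hb : board (del n q adj) L (tpOf n) (lftOf H hasA hasC) main l = b at hcl
    cases hcl
    unfold board at hb
    have := (List.append_eq_nil_iff.1 hb).2
    rw [List.map_eq_nil_iff] at this
    rw [this] at hf
    simp at hf
  | succ m ih =>
    intro t hasA hasC main l F hinv hF hcard hmt hcl
    obtain ⟨r, hr⟩ : F.Nonempty := by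
      rw [← Finset.card_pos]; omega
    have hcl' := hcl
    generalize hb : board (del n q adj) L (tpOf n) (lftOf H hasA hasC) main l = b at hcl'
    cases hcl' with
    | @succ _ _ b' _ hclick hrest =>
      rw [← hb] at hclick
      rcases step_total (bb := k + 1) del_le_one hL.ge hH hinv hclick with
        hcross | ⟨hasA', hasC', main', l', e, hinv', X, hX, hkeep⟩
      · exact cross_domSet hq hN hL hinv (hF r hr) hcl hmt hcross
      · rw [e] at hrest
        refine ih (t + 1) hasA' hasC' main' l' (F \ X) hinv' ?_ ?_ (by omega) hrest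
        · intro r hr
          rw [Finset.mem_sdiff] at hr
          exact hkeep r hr.2 (hF r hr.1)
        · have := Finset.le_card_sdiff X F
          omega

end

/-! ### The initial board -/

/-- the main columns of the initial board -/
def main0 (n k R : ℕ) : List (ℕ × List ℕ) :=
  (List.range (R * (2 * n + 1))).map (fun a => (a, topInit n (k + 1) a))

/-- the board of the reduction -/
def theBoard (n : ℕ) (adj : ℕ → ℕ → Prop) [DecidableRel adj] (k : ℕ) : Board :=
  let q := 2 * k + 8
  let N := n * q + 1
  let L := 4 * N + 4
  board (del n q adj) L (tpOf n) (lftOf (L * (2 * N) + N + 1) true true)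
    (main0 n k (2 * k + 11)) (List.range (2 * N))

theorem sound {n : ℕ} {adj : ℕ → ℕ → Prop} [DecidableRel adj] {k : ℕ}
    (h : ∃ m ≤ k + 5, Clicks m (theBoard n adj k) []) : HasDomSet n adj k := by
  obtain ⟨m, hm, hcl⟩ := h
  unfold theBoard at hcl
  simp only at hcl
  refine sound_aux (q := 2 * k + 8) rfl rfl rfl (by omega) m 0 true true
    (main0 n k (2 * k + 11)) (List.range (2 * (n * (2 * k + 8) + 1)))
    (Finset.range (2 * k + 11)) ?_ ?_ ?_ (by omega) hcl
  · refine ⟨List.Sublist.refl _, ?_, ?_, ?_, ?_⟩
    · left
      have := runs_range (n * (2 * k + 8) + 1)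
      rw [this.1, this.2]
      simp
    · unfold main0
      rw [List.pairwise_map]
      exact List.pairwise_lt_range
    · intro x hx z hz
      unfold main0 at hx
      rw [List.mem_map] at hx
      obtain ⟨a, _, rfl⟩ := hx
      unfold topInit at hz
      simp only at hz
      split_ifs at hz
      · simp [List.mem_replicate] at hz
        omega
      · simpa using hz
    · intro h
      simp at h
  · intro r hr c hc
    have hr' : r < 2 * k + 11 := by simpa using hr
    unfold main0
    rw [List.mem_map]
    refine ⟨r * (2 * n + 1) + c, ?_, rfl⟩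
    rw [List.mem_range]
    calc r * (2 * n + 1) + c < r * (2 * n + 1) + (2 * n + 1) := by omega
      _ = (r + 1) * (2 * n + 1) := by ring
      _ ≤ (2 * k + 11) * (2 * n + 1) := Nat.mul_le_mul_right _ (by omega)
  · rw [Finset.card_range]; omega

end Pool.Agent.Lib.MP_e74eef_lc
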