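import Pool.Agent.Lib.MP_e74eef_lc.Counting

/-!
# The possible clicks on a board of the gadget
-/

namespace Pool.Agent.Lib.MP_e74eef_lc

/-- the left columns: a high column of colour `0` and a column `[2, 2]`, if present -/
def lftOf (H : ℕ) (hasA hasC : Bool) : Board :=
  (if hasA then [List.replicate H 0] else []) ++ (if hasC then [[2, 2]] else [])

/-- Bookkeeping of the number `t` of clicks made so far. -/
def Phase (N t : ℕ) (hasC : Bool) (l : List ℕ) : Prop :=
  (N + (if hasC then 0 else 1) ≤ runs 0 l + t ∧ N + (if hasC then 0 else 1) ≤ runs 1 l + t) ∨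
  ((∀ j ∈ l, j % 2 = 1) ∧ N ≤ l.length + t) ∨ l = []

/-- the invariant of the boards that can occur -/
structure Inv (N t : ℕ) (hasC : Bool) (main : List (ℕ × List ℕ)) (l : List ℕ) : Prop where
  sub : l.Sublist (List.range (2 * N))
  phase : Phase N t hasC l
  inc : main.Pairwise (fun x y => x.1 < y.1)
  tops : ∀ x ∈ main, ∀ z ∈ x.2, z = 3 ∨ z = 4
  ne : l = [] → ∀ x ∈ main, x.2 ≠ []

theorem Phase.succ {N t : ℕ} {hasC : Bool} {l : List ℕ} (h : Phase N t hasC l) :
    Phase N (t + 1) hasC l := by
  rcases h with ⟨h1, h2⟩ | ⟨h1, h2⟩ | h
  · exact Or.inl ⟨by omega, by omega⟩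
  · exact Or.inr (Or.inl ⟨h1, by omega⟩)
  · exact Or.inr (Or.inr h)

section
variable {δ : ℕ → ℕ → ℕ} {L N H : ℕ} {tp : ℕ → ℕ} {lft : Board} {main : List (ℕ × List ℕ)}
  {l : List ℕ} {hasA hasC : Bool}

theorem mcol_ne_nil (hδ : ∀ t i, δ t i ≤ 1) (hL : 4 * N + 4 ≤ L) (hl : l ≠ [])
    (x : ℕ × List ℕ) : mcol δ L tp l x ≠ [] := by
  intro h
  have h1 := congrArg List.length h
  unfold mcol at h1
  rw [List.length_append, bars_length] at h1
  have := ht_ge (L := L) hδ (tp x.1) hl
  simp at h1
  omega

theorem filter_board (hδ : ∀ t i, δ t i ≤ 1) (hL : 4 * N + 4 ≤ L)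
    (main : List (ℕ × List ℕ)) (l : List ℕ) :
    (board δ L tp lft main l).filter (fun x => x ≠ [])
      = board δ L tp (lft.filter (fun x => x ≠ []))
        (if l = [] then main.filter (fun x => x.2 ≠ []) else main) l := by
  unfold board
  rw [List.filter_append]
  congr 1
  split_ifs with h
  · subst h
    rw [List.filter_map]
    congr 1
  · rw [List.filter_eq_self]
    intro x hx
    simp only [List.mem_map] at hx
    obtain ⟨y, _, rfl⟩ := hx
    simpa using mcol_ne_nil hδ hL h y

theorem filter_lftOf (hH : 0 < H) :
    (lftOf H hasA hasC).filter (fun x => x ≠ []) = lftOf H hasA hasC := by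
  rw [List.filter_eq_self]
  intro x hx
  unfold lftOf at hx
  rw [List.mem_append] at hx
  rcases hx with hx | hx
  · split_ifs at hx
    · simp only [List.mem_singleton] at hx
      subst hx
      simp; omega
    · simp at hx
  · split_ifs at hx
    · simp only [List.mem_singleton] at hx
      subst hx
      simp
    · simp at hx

/-- the new list of main columns once empty columns are deleted -/
def norm (l : List ℕ) (main : List (ℕ × List ℕ)) : List (ℕ × List ℕ) :=
  if l = [] then main.filter (fun x => x.2 ≠ []) else main

theorem norm_sublist : (norm l main).Sublist main := by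
  unfold norm
  split_ifs
  · exact List.filter_sublist
  · exact List.Sublist.refl _

theorem mem_norm {x : ℕ × List ℕ} (hx : x ∈ main) (hne : x.2 ≠ []) : x ∈ norm l main := by
  unfold norm
  split_ifs
  · simp [hx, hne]
  · exact hx

theorem Inv.norm {t : ℕ} {l : List ℕ} {main : List (ℕ × List ℕ)}
    (sub : l.Sublist (List.range (2 * N)))
    (phase : Phase N t hasC l)
    (inc : main.Pairwise (fun x y => x.1 < y.1))
    (tops : ∀ x ∈ main, ∀ z ∈ x.2, z = 3 ∨ z = 4) : Inv N t hasC (norm l main) l where
  sub := sub
  phase := phase
  inc := inc.sublist norm_sublist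
  tops := fun x hx => tops x (norm_sublist.subset hx)
  ne := by
    intro hl x hx
    unfold Lib.MP_e74eef_lc.norm at hx
    rw [if_pos hl] at hx
    simpa using (List.mem_filter.1 hx).2

theorem length_lftOf : (lftOf H hasA hasC).length
    = (if hasA then 1 else 0) + (if hasC then 1 else 0) := by
  unfold lftOf
  cases hasA <;> cases hasC <;> simp

theorem lftOf_colors : ∀ c ∈ lftOf H hasA hasC, ∀ z ∈ c, z = 0 ∨ z = 2 := by
  intro c hc z hz
  unfold lftOf at hc
  rw [List.mem_append] at hc
  rcases hc with hc | hc
  · split_ifs at hc
    · simp only [List.mem_singleton] at hc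
      subst hc
      rw [List.mem_replicate] at hz
      exact Or.inl hz.2
    · simp at hc
  · split_ifs at hc
    · simp only [List.mem_singleton] at hc
      subst hc
      simp at hz
      exact Or.inr hz
    · simp at hc

theorem tile_color_mem {b : Board} {x : ℕ × ℕ} {a : ℕ} (h : tile b x = some a) :
    ∃ col : List ℕ, b[x.1]? = some col ∧ col ∈ b ∧ col[x.2]? = some a ∧ a ∈ col := by
  unfold tile at h
  cases hb : b[x.1]? with
  | none => rw [hb] at h; simp at h
  | some col =>
    rw [hb] at h
    simp only [Option.bind_some] at h
    exact ⟨col, rfl, List.mem_of_getElem? hb, h, List.mem_of_getElem? h⟩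

/-- `fallAll` for the set of all tiles of one colour. -/
theorem fallAll_color {b : Board} {S : Set (ℕ × ℕ)} {a : ℕ}
    (h : ∀ x, x ∈ S ↔ tile b x = some a) :
    fallAll b S = b.map (fun c => c.filter (fun x => x ≠ a)) := by
  apply List.ext_getElem?
  intro i
  rw [fallAll_getElem?, List.getElem?_map]
  by_cases hi : i < b.length
  · rw [List.getElem?_eq_getElem hi]
    simp only [Option.map_some, Option.some.injEq]
    apply fall_color
    intro j hj
    rw [Set.mem_ofPred_eq, h]
    unfold tile
    simp only
    rw [List.getElem?_eq_getElem hi]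
    simp only [Option.bind_some]
    rw [List.getElem?_eq_getElem hj]
    simp
  · rw [List.getElem?_eq_none (by omega)]
    simp

theorem filter_bars (t a : ℕ) (l : List ℕ) :
    (bars δ L t l).filter (fun x => x ≠ a) = bars δ L t (l.filter (fun j => j % 2 ≠ a)) := by
  induction l with
  | nil => simp
  | cons j l ih =>
    rw [bars_cons, List.filter_append, ih, List.filter_cons]
    by_cases h : j % 2 = a
    · have : (List.replicate (thick δ L t j) (j % 2)).filter (fun x => x ≠ a) = [] := by
        rw [List.filter_eq_nil_iff]
        intro x hx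
        rw [List.mem_replicate] at hx
        simp [hx.2, h]
      rw [this]
      simp [h]
    · have : (List.replicate (thick δ L t j) (j % 2)).filter (fun x => x ≠ a)
          = List.replicate (thick δ L t j) (j % 2) := by
        rw [List.filter_eq_self]
        intro x hx
        rw [List.mem_replicate] at hx
        simp [hx.2, h]
      rw [this]
      simp [h, bars_cons]

theorem filter_main (a : ℕ) (l : List ℕ)
    (htop : ∀ x ∈ main, ∀ z ∈ x.2, z ≠ a) :
    (main.map (mcol δ L tp l)).map (fun c => c.filter (fun x => x ≠ a))
      = main.map (mcol δ L tp (l.filter (fun j => j % 2 ≠ a))) := by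
  rw [List.map_map]
  apply List.map_congr_left
  intro x hx
  simp only [Function.comp, mcol]
  rw [List.filter_append, filter_bars]
  congr 1
  rw [List.filter_eq_self]
  intro z hz
  simpa using htop x hx z hz

/-- location of a tile -/
theorem tile_cases {p : ℕ × ℕ} {c : ℕ}
    (h : tile (board δ L tp (lftOf H hasA hasC) main l) p = some c) :
    (hasA = true ∧ p.1 = 0 ∧ p.2 < H ∧ c = 0) ∨
    (hasC = true ∧ p.1 + 1 = (lftOf H hasA hasC).length ∧ p.2 < 2 ∧ c = 2) ∨
    (∃ i < main.length, p.1 = (lftOf H hasA hasC).length + i ∧
      p.2 < ht δ L (typeAt tp main i) l ∧ c < 2) ∨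
    (∃ i, ∃ x, main[i]? = some x ∧ p.1 = (lftOf H hasA hasC).length + i ∧
      ht δ L (tp x.1) l ≤ p.2 ∧ x.2[p.2 - ht δ L (tp x.1) l]? = some c) := by
  by_cases hp : p.1 < (lftOf H hasA hasC).length
  · have h' : tile (lftOf H hasA hasC) (p.1, p.2) = some c := by
      rw [← tile_left hp]
      exact h
    have hp' := hp
    rw [length_lftOf] at hp'
    unfold tile lftOf at h'
    simp only at h'
    cases hasA <;> cases hasC
    · simp at hp'
    · simp only [if_true] at hp'
      have e : p.1 = 0 := by simpa using hp'
      right; left
      rw [e] at h'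
      simp at h'
      refine ⟨rfl, ?_, ?_, ?_⟩
      · rw [length_lftOf]; simp [e]
      · by_contra hge
        rw [List.getElem?_eq_none (by simp; omega)] at h'
        simp at h'
      · have := List.mem_of_getElem? h'
        simpa using this
    · have e : p.1 = 0 := by simpa using hp'
      left
      rw [e] at h'
      simp [List.getElem?_replicate] at h'
      exact ⟨rfl, e, h'.1, h'.2.symm⟩
    · by_cases e : p.1 = 0
      · left
        rw [e] at h'
        simp [List.getElem?_replicate] at h'
        exact ⟨rfl, e, h'.1, h'.2.symm⟩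
      · have e1 : p.1 = 1 := by
          have : p.1 < 2 := by simpa using hp'
          omega
        right; left
        rw [e1] at h'
        simp at h'
        refine ⟨rfl, ?_, ?_, ?_⟩
        · rw [length_lftOf]; simp [e1]
        · by_contra hge
          rw [List.getElem?_eq_none (by simp; omega)] at h'
          simp at h'
        · have := List.mem_of_getElem? h'
          simpa using this
  · obtain ⟨i, hi⟩ := Nat.exists_eq_add_of_le (not_lt.1 hp)
    have hpe : p = ((lftOf H hasA hasC).length + i, p.2) := by ext <;> simp [hi]
    rw [hpe, tile_main] at h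
    cases hm : main[i]? with
    | none => rw [hm] at h; simp at h
    | some x =>
      rw [hm] at h
      simp only [Option.bind_some] at h
      have hlt : i < main.length := by
        by_contra hge
        rw [List.getElem?_eq_none (by omega)] at hm
        simp at hm
      by_cases hy : p.2 < ht δ L (tp x.1) l
      · right; right; left
        refine ⟨i, hlt, hi, ?_, ?_⟩
        · rw [typeAt_eq hm]; exact hy
        · unfold mcol at h
          rcases getElem?_bars_lt (δ := δ) (L := L) (tp x.1) l x.2 hy with h1 | h1
          · rw [h1] at h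
            simp only [Option.some.injEq] at h
            omega
          · rw [h1] at h
            simp only [Option.some.injEq] at h
            omega
      · right; right; right
        refine ⟨i, x, hm, hi, by omega, ?_⟩
        unfold mcol at h
        rw [getElem?_top _ _ _ (by omega)] at h
        exact h

theorem ht_le_H (hδ : ∀ t i, δ t i ≤ 1) (hL : 4 * N + 4 ≤ L) (hH : L * (2 * N) + N < H)
    (hl : l.Sublist (List.range (2 * N))) (t : ℕ) : ht δ L t l < H := by
  have h1 := (ht_bounds (L := L) hδ (by omega) hl t).1
  have h2 : l.length ≤ 2 * N := by simpa using hl.length_le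
  have h3 : L * l.length ≤ L * (2 * N) := Nat.mul_le_mul_left _ h2
  omega

/-- A click on a bar when the bars are not attached to the high column. -/
theorem step_bar (hδ : ∀ t i, δ t i ≤ 1) (hL : 4 * N + 4 ≤ L)
    (hH : L * (2 * N) + N < H) {t : ℕ} (hinv : Inv N t hasC main l)
    {p : ℕ × ℕ} {i : ℕ} (hi : i < main.length) (hp1 : p.1 = (lftOf H hasA hasC).length + i)
    (hp2 : p.2 < ht δ L (typeAt tp main i) l) {c : ℕ}
    (hc : tile (board δ L tp (lftOf H hasA hasC) main l) p = some c)
    (hfree : c = 1 ∨ hasA = false ∨ hasC = true) :
    ∃ l', remove (board δ L tp (lftOf H hasA hasC) main l)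
      (group (board δ L tp (lftOf H hasA hasC) main l) p)
        = board δ L tp (lftOf H hasA hasC) (norm l' main) l' ∧
      Inv N (t + 1) hasC (norm l' main) l' := by
  obtain ⟨u, j, w, hl, h1, h2⟩ := exists_bar (typeAt tp main i) l hp2
  obtain ⟨l1, m1, m2, l2, hu, hw, hr⟩ := exists_run u j w
  rw [← hl] at hr
  set m := m1 ++ [j] ++ m2 with hm
  have hmem : p ∈ runSet δ L tp (lftOf H hasA hasC).length main l1 m := by
    refine ⟨i, hi, hp1, ?_, ?_⟩
    · rw [hu, ht_append] at h1
      omega
    · refine lt_of_lt_of_le h2 ?_
      rw [hu, hm]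
      simp only [ht_append]
      omega
  have hcj : c = j % 2 := by
    have := tile_runSet (δ := δ) (L := L) (lft := lftOf H hasA hasC) hr hmem
    rw [hc] at this
    simpa using this
  have hg := group_run (lft := lftOf H hasA hasC) hδ hL hinv.sub hr (by omega)
    (fun x hx z hz => by rcases hinv.tops x hx z hz with h | h <;> omega) (by
      intro i' y hi' htile
      obtain ⟨col, h3, _, h4, h5⟩ := tile_color_mem htile
      rw [← hcj] at h5 h4
      simp only at h3
      rw [length_lftOf] at hi'
      cases hasA <;> cases hasC
      · simp at hi'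
      · have : i' = 0 := by simpa using hi'
        rw [this] at h3
        simp [lftOf] at h3
        rw [← h3] at h5
        simp at h5
        omega
      · have : i' = 0 := by simpa using hi'
        rw [this] at h3
        simp [lftOf] at h3
        rw [← h3] at h5
        rw [List.mem_replicate] at h5
        simp at hfree
        omega
      · have : i' = 1 := by simpa using hi'
        rw [this] at h3
        simp [lftOf] at h3
        rw [← h3] at h5
        simp at h5
        omega) hmem
  refine ⟨l1 ++ l2, ?_, ?_⟩
  · unfold remove
    rw [hg, fallAll_run hr.eq, filter_board hδ hL, filter_lftOf (by omega)]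
    rfl
  · apply Inv.norm
    · refine List.Sublist.trans ?_ hinv.sub
      rw [hr.eq, List.append_assoc]
      exact List.Sublist.append (List.Sublist.refl _) (List.sublist_append_right _ _)
    · rcases hinv.phase with ⟨h3, h4⟩ | ⟨h3, h4⟩ | h3
      · left
        have r0 := runs_remove 0 (j % 2) l1 m l2 hr.mono
        have r1 := runs_remove 1 (j % 2) l1 m l2 hr.mono
        rw [← hr.eq] at r0 r1
        constructor <;> omega
      · right; right
        have e1 : l1 = [] := by
          rcases List.eq_nil_or_concat l1 with h | ⟨x, z, h⟩
          · exact h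
          · rw [List.concat_eq_append] at h
            exfalso
            apply hr.left x z h
            rw [h3 z (by rw [hr.eq, h]; simp), h3 j (by rw [hl]; simp)]
        have e2 : l2 = [] := by
          rcases h : l2 with _ | ⟨z, x⟩
          · rfl
          · exfalso
            apply hr.right z x h
            rw [h3 z (by rw [hr.eq, h]; simp), h3 j (by rw [hl]; simp)]
        simp [e1, e2]
      · exfalso
        rw [h3] at hl
        simp at hl
    · exact hinv.inc
    · exact hinv.tops

end

end Pool.Agent.Lib.MP_e74eef_lc
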