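import Pool.Agent.Lib.MP_e74eef_lc.Step

/-!
# The other clicks
-/

namespace Pool.Agent.Lib.MP_e74eef_lc

section
variable {δ : ℕ → ℕ → ℕ} {L N H : ℕ} {tp : ℕ → ℕ} {main : List (ℕ × List ℕ)}
  {l : List ℕ} {hasA hasC : Bool}

theorem board_append (lft : Board) :
    board δ L tp lft main l = lft ++ main.map (mcol δ L tp l) := rfl

/-- When the high column is attached, all tiles of colour `0` form one group. -/
theorem group_mass (hδ : ∀ t i, δ t i ≤ 1) (hL : 4 * N + 4 ≤ L)
    (hH : L * (2 * N) + N < H) (hl : l.Sublist (List.range (2 * N)))
    (htop : ∀ x ∈ main, ∀ z ∈ x.2, z = 3 ∨ z = 4)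
    {p : ℕ × ℕ} (hp : tile (board δ L tp (lftOf H true false) main l) p = some 0) (x : ℕ × ℕ) :
    x ∈ group (board δ L tp (lftOf H true false) main l) p ↔
      tile (board δ L tp (lftOf H true false) main l) x = some 0 := by
  set b := board δ L tp (lftOf H true false) main l with hb
  have hlen : (lftOf H true false).length = 1 := by simp [length_lftOf]
  have hA : ∀ y < H, tile b (0, y) = some 0 := by
    intro y hy
    rw [hb, tile_left (by omega)]
    simp [tile, lftOf, hy]
  have key : ∀ x, tile b x = some 0 → x ∈ group b (0, 0) := by
    intro x hx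
    have hcol0 : ∀ y < H, (0, y) ∈ group b (0, 0) := by
      intro y hy
      refine strip_connected (a := 0) (i0 := 0) (i1 := 1) (lo := fun _ => 0) (hi := fun _ => H)
        ?_ ?_ ?_ le_rfl (by omega) le_rfl (by omega) (by simp) (by omega) (by simp) hy
      · intro i _ hi y _ hy
        have : i = 0 := by omega
        subst this
        exact hA y hy
      · intro i _ _; omega
      · intro i _ _; omega
    rcases tile_cases hx with ⟨_, h1, h2, _⟩ | ⟨h, _⟩ | ⟨i, hi, h1, h2, _⟩ | ⟨i, w, hw, _, _, h3⟩
    · have : x = (0, x.2) := by ext <;> simp [h1]
      rw [this]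
      exact hcol0 _ h2
    · simp at h
    · obtain ⟨u, j, w, hlw, h3, h4⟩ := exists_bar (typeAt tp main i) l h2
      obtain ⟨l1, m1, m2, l2, hu, hw, hr⟩ := exists_run u j w
      rw [← hlw] at hr
      set m := m1 ++ [j] ++ m2 with hm
      have hmem : x ∈ runSet δ L tp (lftOf H true false).length main l1 m := by
        refine ⟨i, hi, h1, ?_, ?_⟩
        · rw [hu, ht_append] at h3
          omega
        · refine lt_of_lt_of_le h4 ?_
          rw [hu, hm]
          simp only [ht_append]
          omega
      have hj0 : j % 2 = 0 := by
        have := tile_runSet (δ := δ) (L := L) (lft := lftOf H true false) hr hmem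
        rw [← hb, hx] at this
        simpa using this.symm
      have hmem0 : (1, ht δ L (typeAt tp main 0) l1) ∈
          runSet δ L tp (lftOf H true false).length main l1 m := by
        refine ⟨0, by omega, by rw [hlen], le_rfl, ?_⟩
        have hm0 := ht_ge (L := L) hδ (typeAt tp main 0) (m := m) hr.ne
        rw [ht_append]
        simp only
        omega
      have hcon := run_connected (δ := δ) (L := L) (lft := lftOf H true false) hδ hL hl hr
        hmem0 hmem
      have hlt : ht δ L (typeAt tp main 0) l1 < H := by
        apply ht_le_H hδ hL hH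
        refine List.Sublist.trans ?_ hl
        rw [hr.eq, List.append_assoc]
        exact List.sublist_append_left _ _
      refine group_trans (hcol0 _ hlt) (group_trans ?_ hcon)
      apply Relation.ReflTransGen.single
      refine ⟨Or.inr ⟨rfl, Or.inl rfl⟩, 0, hA _ hlt, ?_⟩
      have := tile_runSet (δ := δ) (L := L) (lft := lftOf H true false) hr hmem0
      rw [hj0] at this
      exact this
    · have := htop w (List.mem_of_getElem? hw) _ (List.mem_of_getElem? h3)
      omega
  constructor
  · intro hx
    exact group_color hx hp
  · intro hx
    exact group_trans (group_symm (key p hp)) (key x hx)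

/-- The mass click. -/
theorem step_mass (hδ : ∀ t i, δ t i ≤ 1) (hL : 4 * N + 4 ≤ L)
    (hH : L * (2 * N) + N < H) {t : ℕ} (hinv : Inv N t false main l)
    {p : ℕ × ℕ} (hp : tile (board δ L tp (lftOf H true false) main l) p = some 0) :
    remove (board δ L tp (lftOf H true false) main l)
      (group (board δ L tp (lftOf H true false) main l) p)
        = board δ L tp (lftOf H false false) (norm (l.filter (fun j => j % 2 ≠ 0)) main)
          (l.filter (fun j => j % 2 ≠ 0)) ∧
      Inv N (t + 1) false (norm (l.filter (fun j => j % 2 ≠ 0)) main)
        (l.filter (fun j => j % 2 ≠ 0)) := by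
  constructor
  · unfold remove
    rw [fallAll_color (group_mass hδ hL hH hinv.sub hinv.tops hp), board_append, List.map_append,
      filter_main 0 l (fun x hx z hz => by rcases hinv.tops x hx z hz with h | h <;> omega),
      List.filter_append]
    have h1 : List.filter (fun x => decide (x ≠ [])) (List.map (fun c => List.filter
        (fun x => decide (x ≠ 0)) c) (lftOf H true false)) = lftOf H false false := by
      simp [lftOf]
    rw [h1]
    have := filter_board (lft := []) (tp := tp) hδ hL main (l.filter (fun j => j % 2 ≠ 0))
    unfold board at this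
    simp only [List.nil_append, List.filter_nil] at this
    rw [this]
    simp [board, norm, lftOf]
  · apply Inv.norm
    · exact List.filter_sublist.trans hinv.sub
    · rcases hinv.phase with ⟨h3, h4⟩ | ⟨h3, h4⟩ | h3
      · right; left
        refine ⟨?_, ?_⟩
        · intro j hj
          have := (List.mem_filter.1 hj).2
          have : j % 2 ≠ 0 := by simpa using this
          omega
        · have h5 := runs_le_countP 1 l
          have h6 : (l.filter (fun j => j % 2 ≠ 0)).length = l.countP (fun j => j % 2 = 1) := by
            rw [List.countP_eq_length_filter]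
            congr 1
            apply List.filter_congr
            intro j _
            rcases Nat.mod_two_eq_zero_or_one j with h | h <;> simp [h]
          rw [h6]
          omega
      · right; left
        have : l.filter (fun j => j % 2 ≠ 0) = l := by
          rw [List.filter_eq_self]
          intro j hj
          simp [h3 j hj]
        rw [this]
        exact ⟨h3, by omega⟩
      · right; right
        simp [h3]
    · exact hinv.inc
    · exact hinv.tops

/-- Clicking the column `[2, 2]`. -/
theorem step_C (hδ : ∀ t i, δ t i ≤ 1) (hL : 4 * N + 4 ≤ L)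
    (hH : 0 < H) {t : ℕ} (hinv : Inv N t true main l)
    {p : ℕ × ℕ} (hp : tile (board δ L tp (lftOf H hasA true) main l) p = some 2) :
    remove (board δ L tp (lftOf H hasA true) main l)
      (group (board δ L tp (lftOf H hasA true) main l) p)
        = board δ L tp (lftOf H hasA false) (norm l main) l ∧
      Inv N (t + 1) false (norm l main) l := by
  set b := board δ L tp (lftOf H hasA true) main l with hb
  have hlen : (lftOf H hasA true).length = (if hasA then 1 else 0) + 1 := by simp [length_lftOf]
  set n0 := (if hasA = true then 1 else 0) with hn0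
  have hC : ∀ y < 2, tile b (n0, y) = some 2 := by
    intro y hy
    rw [hb, tile_left (by omega)]
    have : y = 0 ∨ y = 1 := by omega
    cases hasA <;> rcases this with rfl | rfl <;> simp [tile, lftOf, hn0]
  have hloc : ∀ x, tile b x = some 2 → x.1 = n0 ∧ x.2 < 2 := by
    intro x hx
    rcases tile_cases hx with ⟨_, _, _, h⟩ | ⟨_, h1, h2, _⟩ | ⟨i, hi, h1, _, h2⟩ |
      ⟨i, w, hw, _, _, h3⟩
    · omega
    · omega
    · omega
    · have := hinv.tops w (List.mem_of_getElem? hw) _ (List.mem_of_getElem? h3)
      omega
  have hg : ∀ x, x ∈ group b p ↔ tile b x = some 2 := by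
    intro x
    constructor
    · intro hx
      exact group_color hx hp
    · intro hx
      obtain ⟨h1, h2⟩ := hloc x hx
      obtain ⟨h3, h4⟩ := hloc p hp
      have e1 : x = (n0, x.2) := by ext <;> simp [h1]
      have e2 : p = (n0, p.2) := by ext <;> simp [h3]
      rw [e1, e2]
      refine strip_connected (a := 2) (i0 := n0) (i1 := n0 + 1) (lo := fun _ => 0)
        (hi := fun _ => 2) ?_ ?_ ?_ le_rfl (by omega) le_rfl (by omega) (by simp)
        h4 (by simp) h2
      · intro i h5 h6 y _ hy
        have : i = n0 := by omega
        subst this
        exact hC y hy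
      · intro i _ _; simp
      · intro i _ _; simp
  constructor
  · unfold remove
    rw [fallAll_color hg, hb, board_append, List.map_append,
      filter_main 2 l (fun x hx z hz => by rcases hinv.tops x hx z hz with h | h <;> omega),
      List.filter_append]
    have hl2 : l.filter (fun j => j % 2 ≠ 2) = l := by
      rw [List.filter_eq_self]
      intro j _
      have : j % 2 < 2 := Nat.mod_lt _ (by omega)
      simp; omega
    rw [hl2]
    have h1 : List.filter (fun x => decide (x ≠ [])) (List.map (fun c => List.filter
        (fun x => decide (x ≠ 2)) c) (lftOf H hasA true)) = lftOf H hasA false := by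
      cases hasA
      · simp [lftOf]
      · have hne : List.replicate H 0 ≠ [] := by simp; omega
        simp [lftOf, hne]
    rw [h1]
    have := filter_board (lft := []) (tp := tp) hδ hL main l
    unfold board at this
    simp only [List.nil_append, List.filter_nil] at this
    rw [this]
    rfl
  · apply Inv.norm
    · exact hinv.sub
    · rcases hinv.phase with ⟨h3, h4⟩ | ⟨h3, h4⟩ | h3
      · left
        simp at h3 h4 ⊢
        omega
      · right; left
        exact ⟨h3, by omega⟩
      · right; right
        simp [h3]
    · exact hinv.inc
    · exact hinv.tops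

/-- Clicking the high column while it is not attached. -/
theorem step_A (hδ : ∀ t i, δ t i ≤ 1) (hL : 4 * N + 4 ≤ L)
    (hH : 0 < H) {t : ℕ} (hinv : Inv N t true main l)
    {p : ℕ × ℕ} (hp1 : p.1 = 0) (hp2 : p.2 < H) :
    remove (board δ L tp (lftOf H true true) main l)
      (group (board δ L tp (lftOf H true true) main l) p)
        = board δ L tp (lftOf H false true) (norm l main) l ∧
      Inv N (t + 1) true (norm l main) l := by
  set b := board δ L tp (lftOf H true true) main l with hb
  have hlen : (lftOf H true true).length = 2 := by simp [length_lftOf]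
  have hA : ∀ y < H, tile b (0, y) = some 0 := by
    intro y hy
    rw [hb, tile_left (by omega)]
    simp [tile, lftOf, hy]
  have hAlt : ∀ y, tile b (0, y) ≠ none → y < H := by
    intro y hy
    rw [hb, tile_left (by omega)] at hy
    simp [tile, lftOf, List.getElem?_replicate] at hy
    exact hy
  have hp : tile b p = some 0 := by
    have : p = (0, p.2) := by ext <;> simp [hp1]
    rw [this]
    exact hA _ hp2
  have hg : group b p = {x | x.1 = 0 ∧ x.2 < H} := by
    apply Set.Subset.antisymm
    · apply group_subset
      · exact ⟨hp1, hp2⟩
      · rintro x ⟨hx1, hx2⟩ y ⟨hn, c, hc1, hc2⟩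
        have hxe : x = (0, x.2) := by ext <;> simp [hx1]
        rw [hxe, hA _ hx2] at hc1
        have hc0 : c = 0 := by simpa using hc1.symm
        subst hc0
        by_cases hy : y.1 = 0
        · refine ⟨hy, hAlt y.2 ?_⟩
          have : y = (0, y.2) := by ext <;> simp [hy]
          rw [← this, hc2]
          simp
        · exfalso
          have hy1 : y.1 = 1 := by unfold Neighbour at hn; omega
          have hye : y = (1, y.2) := by ext <;> simp [hy1]
          rw [hye, hb, tile_left (by omega)] at hc2
          have := (tile_color_mem hc2)
          obtain ⟨col, h1, _, _, h2⟩ := this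
          simp [lftOf] at h1
          rw [← h1] at h2
          simp at h2
    · rintro x ⟨hx1, hx2⟩
      have hxe : x = (0, x.2) := by ext <;> simp [hx1]
      have hpe : p = (0, p.2) := by ext <;> simp [hp1]
      rw [hxe, hpe]
      refine strip_connected (a := 0) (i0 := 0) (i1 := 1) (lo := fun _ => 0) (hi := fun _ => H)
        ?_ ?_ ?_ le_rfl (by omega) le_rfl (by omega) (by simp) hp2 (by simp) hx2
      · intro i _ hi y _ hy
        have : i = 0 := by omega
        subst this
        exact hA y hy
      · intro i _ _; omega
      · intro i _ _; omega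
  constructor
  · unfold remove
    rw [hg, hb, board_append]
    have e : lftOf H true true ++ main.map (mcol δ L tp l)
        = List.replicate H 0 :: ([2, 2] :: main.map (mcol δ L tp l)) := by
      simp [lftOf]
    rw [e, fallAll_cons, fall_eq_nil, fallAll_eq_self]
    · have := filter_board (lft := lftOf H false true) (tp := tp) hδ hL main l
      rw [filter_lftOf (by omega)] at this
      unfold board at this
      simp only [norm]
      rw [List.filter_cons]
      simp only [ne_eq, not_true_eq_false, decide_false, Bool.false_eq_true, if_false]
      rw [board_append, ← this]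
      simp [lftOf]
    · rintro x ⟨hx1, hx2⟩
      simp at hx1
    · intro j hj
      simp only [List.length_replicate] at hj
      exact ⟨rfl, hj⟩
  · apply Inv.norm
    · exact hinv.sub
    · exact hinv.phase.succ
    · exact hinv.inc
    · exact hinv.tops

/-- the main columns after the removal of `G` -/
noncomputable def topFall (δ : ℕ → ℕ → ℕ) (L : ℕ) (tp : ℕ → ℕ) (l : List ℕ) (n0 : ℕ)
    (main : List (ℕ × List ℕ)) (G : Set (ℕ × ℕ)) : List (ℕ × List ℕ) :=
  main.zipIdx.map (fun x => (x.1.1, fall {j | (n0 + x.2, j + ht δ L (tp x.1.1) l) ∈ G} x.1.2))

theorem topFall_getElem? (n0 : ℕ) (G : Set (ℕ × ℕ)) (i : ℕ) :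
    (topFall δ L tp l n0 main G)[i]?
      = (main[i]?).map (fun x => (x.1, fall {j | (n0 + i, j + ht δ L (tp x.1) l) ∈ G} x.2)) := by
  simp only [topFall, List.getElem?_map, List.getElem?_zipIdx]
  cases main[i]? <;> simp

theorem fallAll_top {lft : Board} {G : Set (ℕ × ℕ)}
    (h1 : ∀ x ∈ G, lft.length ≤ x.1)
    (h2 : ∀ i x, main[i]? = some x → ∀ y, (lft.length + i, y) ∈ G → ht δ L (tp x.1) l ≤ y) :
    fallAll (board δ L tp lft main l) G
      = board δ L tp lft (topFall δ L tp l lft.length main G) l := by
  unfold board
  rw [fallAll_append, fallAll_eq_self h1]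
  congr 1
  apply List.ext_getElem?
  intro i
  rw [fallAll_getElem?, List.getElem?_map, List.getElem?_map, topFall_getElem?]
  cases hm : main[i]? with
  | none => simp
  | some x =>
    simp only [Option.map_some, Option.some.injEq]
    unfold mcol
    rw [fall_append, fall_eq_self]
    · congr 1
      apply fall_congr
      intro j _
      simp only [Set.mem_ofPred_eq, bars_length, Nat.add_comm i]
    · intro j hj hjG
      rw [bars_length] at hj
      simp only [Set.mem_ofPred_eq] at hjG
      rw [Nat.add_comm] at hjG
      have := h2 i x hm j hjG
      omega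

/-- A click on a tile of the top parts. -/
theorem step_top (hδ : ∀ t i, δ t i ≤ 1) (hL : 4 * N + 4 ≤ L)
    (hH : 0 < H) {t : ℕ} (hinv : Inv N t hasC main l)
    {p : ℕ × ℕ} {c : ℕ} (hc : c = 3 ∨ c = 4)
    (hp : tile (board δ L tp (lftOf H hasA hasC) main l) p = some c) :
    ∃ main', remove (board δ L tp (lftOf H hasA hasC) main l)
      (group (board δ L tp (lftOf H hasA hasC) main l) p)
        = board δ L tp (lftOf H hasA hasC) main' l ∧
      Inv N (t + 1) hasC main' l ∧
      ∀ i x, main[i]? = some x → x.2 ≠ [] →
        (∀ y, ((lftOf H hasA hasC).length + i, y) ∉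
          group (board δ L tp (lftOf H hasA hasC) main l) p) → x ∈ main' := by
  set b := board δ L tp (lftOf H hasA hasC) main l with hb
  set G := group b p with hG
  set main1 := topFall δ L tp l (lftOf H hasA hasC).length main G with hmain1
  have hcol : ∀ x ∈ G, tile b x = some c := fun x hx => group_color hx hp
  have h1 : ∀ x ∈ G, (lftOf H hasA hasC).length ≤ x.1 := by
    intro x hx
    by_contra hlt
    push Not at hlt
    have h2 := hcol x hx
    have hxe : x = (x.1, x.2) := rfl
    rw [hxe, hb, tile_left hlt] at h2
    obtain ⟨col, _, h3, _, h4⟩ := tile_color_mem h2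
    have := lftOf_colors col h3 c h4
    omega
  have h2 : ∀ i x, main[i]? = some x → ∀ y, ((lftOf H hasA hasC).length + i, y) ∈ G →
      ht δ L (tp x.1) l ≤ y := by
    intro i x hx y hy
    by_contra hlt
    push Not at hlt
    have h2 := hcol _ hy
    rw [hb, tile_main, hx] at h2
    simp only [Option.bind_some] at h2
    unfold mcol at h2
    rcases getElem?_bars_lt (δ := δ) (L := L) (tp x.1) l x.2 hlt with h | h
    · rw [h] at h2
      simp at h2; omega
    · rw [h] at h2
      simp at h2; omega
  refine ⟨norm l main1, ?_, ?_, ?_⟩
  · unfold remove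
    rw [hb, fallAll_top h1 h2, filter_board hδ hL, filter_lftOf hH]
    rfl
  · apply Inv.norm
    · exact hinv.sub
    · exact hinv.phase.succ
    · rw [List.pairwise_iff_getElem]
      intro i j hi hj hij
      have hi' : i < main.length := by simpa [hmain1, topFall] using hi
      have hj' : j < main.length := by simpa [hmain1, topFall] using hj
      have e1 : main1[i].1 = main[i].1 := by simp [hmain1, topFall]
      have e2 : main1[j].1 = main[j].1 := by simp [hmain1, topFall]
      rw [e1, e2]
      exact List.pairwise_iff_getElem.1 hinv.inc i j hi' hj' hij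
    · intro x hx z hz
      obtain ⟨i, hi⟩ := List.mem_iff_getElem?.1 hx
      rw [hmain1, topFall_getElem?] at hi
      cases hm : main[i]? with
      | none => rw [hm] at hi; simp at hi
      | some w =>
        rw [hm] at hi
        simp only [Option.map_some, Option.some.injEq] at hi
        subst hi
        exact hinv.tops w (List.mem_of_getElem? hm) z ((fall_sublist _ _).subset hz)
  · intro i x hx hne hno
    apply mem_norm _ hne
    apply List.mem_of_getElem? (i := i)
    rw [hmain1, topFall_getElem?, hx]
    simp only [Option.map_some, Option.some.injEq]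
    have : fall {j | ((lftOf H hasA hasC).length + i, j + ht δ L (tp x.1) l) ∈ G} x.2 = x.2 := by
      apply fall_eq_self
      intro j _ hj
      exact hno _ hj
    rw [this]

end

end Pool.Agent.Lib.MP_e74eef_lc
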